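import Mathlib
import Pool.Agent.BRW.St
import Pool.Agent.WLE.St

set_option autoImplicit false

/-!
# The quantifier depth of counting logic is at most (1/8 + o(1)) n: definitions

`Bj G H r t a b`: Duplicator wins `r` rounds of the bijective game from the position `(a, b)`.
`tc G r t s x y`: the `r`-round type of `(x, y)` over the parameters `s`.
-/

namespace Pool.Agent.DQE

open Pool.Agent.BRW Pool.Agent.WLE

/-- The tuple `s` followed by `x`. -/
abbrev sn {V : Type} {t : ℕ} (s : Fin t → V) (x : V) : Fin (t + 1) → V :=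
  Fin.snoc (α := fun _ => V) s x

/-- The tuples satisfy the same atomic formulas. -/
def At {V W : Type} (G : SimpleGraph V) (H : SimpleGraph W) (t : ℕ) (a : Fin t → V)
    (b : Fin t → W) : Prop :=
  ∀ i j : Fin t, (a i = a j ↔ b i = b j) ∧ (G.Adj (a i) (a j) ↔ H.Adj (b i) (b j))

/-- Duplicator wins `r` rounds of the bijective game from the position `(a, b)`. -/
def Bj {V W : Type} (G : SimpleGraph V) (H : SimpleGraph W) :
    (r t : ℕ) → (Fin t → V) → (Fin t → W) → Prop
  | 0, t, a, b => At G H t a b
  | r + 1, t, a, b => At G H t a b ∧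
      ∃ f : V ≃ W, ∀ v : V, Bj G H r (t + 1) (sn a v) (sn b (f v))

/-- The `r`-round type of the pair `(x, y)` over the parameters `s`. -/
def tc {V : Type} (G : SimpleGraph V) (r t : ℕ) (s : Fin t → V) (x y : V) : Set (V × V) :=
  {p | Bj G G r (t + 2) (sn (sn s x) y) (sn (sn s p.1) p.2)}

/-- `k` rounds of the bijective game identify `G`. -/
def DId {V : Type} (k : ℕ) (G : SimpleGraph V) : Prop :=
  ∀ (W : Type) [Fintype W] (H : SimpleGraph W),
    Bj G H k 0 (fun i => i.elim0) (fun i => i.elim0) → Nonempty (G ≃g H)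

/-- Colour systems (colourings of pairs with the obvious properties of types). -/
structure CS {V κ : Type} (c : V → V → κ) : Prop where
  diag : ∀ x y z : V, c x x = c y z → y = z
  val : ∀ x y x' y' : V, c x y = c x' y' →
    c x x = c x' x' ∧ c y y = c y' y' ∧ c y x = c y' x'

/-- `c'` is (at least) one level finer than `c`. -/
def Stp {V κ κ' : Type} (c' : V → V → κ') (c : V → V → κ) : Prop :=
  Ref c' c ∧ ∀ x y x' y' : V, c' x y = c' x' y' →
    ∃ e : V ≃ V, ∀ z, c x z = c x' (e z) ∧ c z y = c (e z) y'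

/-- Number of adjacent pairs between the fibres of `x` and `y`. -/
noncomputable def pa {V κ : Type} (G : SimpleGraph V) (c : V → V → κ) (x y : V) : ℕ :=
  Nat.card {p : V × V // c p.1 p.1 = c x x ∧ c p.2 p.2 = c y y ∧ p.1 ≠ p.2 ∧ G.Adj p.1 p.2}

/-- Number of non-adjacent pairs of distinct vertices between the fibres of `x` and `y`. -/
noncomputable def pb {V κ : Type} (G : SimpleGraph V) (c : V → V → κ) (x y : V) : ℕ :=
  Nat.card {p : V × V // c p.1 p.1 = c x x ∧ c p.2 p.2 = c y y ∧ p.1 ≠ p.2 ∧ ¬ G.Adj p.1 p.2}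

/-- Exceptional pairs: the adjacency status of `(x, y)` is the less frequent one between the
fibres of `x` and `y` (tie: adjacency). -/
def Ex {V κ : Type} (G : SimpleGraph V) (c : V → V → κ) (x y : V) : Prop :=
  x ≠ y ∧ ((pa G c x y ≤ pb G c x y ∧ G.Adj x y) ∨ (pb G c x y < pa G c x y ∧ ¬ G.Adj x y))

open Classical in
/-- The fibre `i` of `c` in `A`. -/
noncomputable def cl {V κ : Type} (c : V → V → κ) (A : Finset V) (i : κ) : Finset V :=
  A.filter (fun y => c y y = i)

open Classical in
/-- How much the rows of the elements of `A` split the fibre `i`. -/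
noncomputable def tau {V κ : Type} (c : V → V → κ) (A : Finset V) (i : κ) : ℕ :=
  ∑ x ∈ A, (Num (c x) (cl c A i) - 1)

open Classical in
/-- Sum over the fibres in `A` of `tau`, truncated at `B`. -/
noncomputable def Qf {V κ : Type} (c : V → V → κ) (A : Finset V) (B : ℕ) : ℕ :=
  ∑ i ∈ A.image (fib c), min (tau c A i) B

/-- `y` can be reached from `x` in at most `m` steps. -/
def Wk {V : Type} (Γ : SimpleGraph V) : ℕ → V → V → Prop
  | 0, x, y => x = y
  | m + 1, x, y => ∃ z, Wk Γ m x z ∧ (z = y ∨ Γ.Adj z y)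

end Pool.Agent.DQE
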