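import Mathlib
import Pool.Agent.BRW.St
import Pool.Agent.WLE.St
import Pool.Agent.DQE.Defs

set_option autoImplicit false

/-!
# The quantifier depth of counting logic is at most (1/8 + o(1)) n: statements of the modules

Each module proves one `Stmt...` (namespace `Pool.Agent.DQE`), with earlier statements as
hypotheses. The modules of `Pool/Agent/WLE` (`mon : StmtMON`, `loc : StmtLOC`, ...) and of
`Pool/Agent/BRW` may be imported.

Plan. `tc G r t s` is the colouring of pairs by their `r`-round types over the parameters `s`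
(`t` of them). Phase 1 (GR1, DG1, DI1): after `o(n)` rounds the exceptional pairs `Ex` form a graph
of bounded degree, and every component or every fibre is bounded. Phase 2 (MIN, STB): minimise
`8KB(t+q) + KB Phi + 16B(n - Num) + 8(Bn - Qf)`; at the minimum no vertex makes the potential drop
by `8`, and the types of level `q` are EXACTLY stable on `A` outside boundedly many fibres. So the
results for coherent configurations (WLE) apply (NUC). CLL: the final step.
-/

namespace Pool.Agent.DQE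

open Pool.Agent.BRW Pool.Agent.WLE

/-! ## The game -/

/-- GAM. Elementary properties of the game. Proof. Induction on `r`. (1) clear (`r = 0`: `At` is a
part of `Bj 1`). (2) `(snoc (a ∘ σ) v) = (snoc a v) ∘ σ'` with `σ' i = castSucc (σ i)`, `σ' last = last`.
(3) the identity, (4) inverse bijections, (5) composition. -/
def StmtGAM : Prop :=
  (∀ (V W : Type) (G : SimpleGraph V) (H : SimpleGraph W) (r t : ℕ) (a : Fin t → V)
    (b : Fin t → W), Bj G H (r + 1) t a b → Bj G H r t a b) ∧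
  (∀ (V W : Type) (G : SimpleGraph V) (H : SimpleGraph W) (r t t' : ℕ) (a : Fin t → V)
    (b : Fin t → W) (σ : Fin t' → Fin t), Bj G H r t a b →
    Bj G H r t' (fun i => a (σ i)) (fun i => b (σ i))) ∧
  (∀ (V : Type) (G : SimpleGraph V) (r t : ℕ) (a : Fin t → V), Bj G G r t a a) ∧
  (∀ (V W : Type) (G : SimpleGraph V) (H : SimpleGraph W) (r t : ℕ) (a : Fin t → V)
    (b : Fin t → W), Bj G H r t a b → Bj H G r t b a) ∧
  (∀ (V W U : Type) (G : SimpleGraph V) (H : SimpleGraph W) (K : SimpleGraph U) (r t : ℕ)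
    (a : Fin t → V) (b : Fin t → W) (c : Fin t → U), Bj G H r t a b → Bj H K r t b c →
    Bj G K r t a c)

/-- FRM. The forms of the final statement. Proof. (1) By induction on `j` for `j + t = k`:
`R t a b → Bj G H j t a b`. (2) If `V` is empty then `W` is (the bijection `f`). Otherwise put
`R t a b :↔ t ≤ k` and there are `α β` in the relation of `Identifies` with `a i = α i`, `b i = β i` for
`i < t` (for `t > k`: `True` or anything is not needed, use `k - t` rounds); the start is a constant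
tuple; in the round `t < k` move the pebble `t`. -/
def StmtFRM : Prop :=
  ∀ (V : Type) [Finite V] (k : ℕ) (G : SimpleGraph V), DId k G →
    (∀ (W : Type) [Fintype W] (H : SimpleGraph W),
      (∃ R : (t : ℕ) → (Fin t → V) → (Fin t → W) → Prop,
        R 0 (fun i => i.elim0) (fun i => i.elim0) ∧
        (∀ (t : ℕ) (a : Fin t → V) (b : Fin t → W), R t a b → ∀ i j : Fin t,
          (a i = a j ↔ b i = b j) ∧ (G.Adj (a i) (a j) ↔ H.Adj (b i) (b j))) ∧
        (∀ (t : ℕ) (a : Fin t → V) (b : Fin t → W), t < k → R t a b → ∃ f : V ≃ W,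
          ∀ v : V, R (t + 1) (Fin.snoc (α := fun _ => V) a v)
            (Fin.snoc (α := fun _ => W) b (f v)))) →
      Nonempty (G ≃g H)) ∧
    Identifies k G

/-- TCP. Types. Proof. GAM. `Stp`: from `(s,x,y) ~ (s,x',y')` for `r + 1` rounds take the bijection `f`:
`(s,x,y,z) ~ (s,x',y',f z)` for `r` rounds and reindex to `(s,x,z) ~ (s,x',f z)` and
`(s,z,y) ~ (s,f z,y')`. The other claims: reindexing (`(s,x,x)` and `(s,x)` have the same type), atomic
formulas, and refl, symm, trans. Last claim: `(s,p,y,y)` reindexed from `(s,p,y)` and conversely. -/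
def StmtTCP : Prop :=
  ∀ (V : Type) (G : SimpleGraph V) (r t : ℕ) (s : Fin t → V),
    CS (tc G r t s) ∧ Stp (tc G (r + 1) t s) (tc G r t s) ∧ Inv (tc G r t s) G.Adj ∧
    (∀ x y x' y', tc G r t s x y = tc G r t s x' y' ↔
      Bj G G r (t + 2) (sn (sn s x) y) (sn (sn s x') y')) ∧
    (∀ x x', tc G r t s x x = tc G r t s x' x' ↔ Bj G G r (t + 1) (sn s x) (sn s x')) ∧
    (∀ p : V, Ref (tc G r (t + 1) (sn s p)) (tc G r t s) ∧
      ∀ y y', tc G r (t + 1) (sn s p) y y = tc G r (t + 1) (sn s p) y' y' ↔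
        tc G r t s p y = tc G r t s p y')

/-- ASM2. Gluing of isomorphisms of cells (compare `Pool/Agent/BRW/ASM.lean`: the same proof).
`T x x'`: `x` and `x'` have the same colour. Proof. Let `I x x'` be the existence of `β` as in the
hypothesis with `β x = x'` (an isomorphism of the cell of `x` onto the cell of `x'`, respecting `T`).
`inv x := {u | ∃ y, E x y ∧ I y u}`, `inv' x' := {u | ∃ y', E' x' y' ∧ ∃ v, I v y' ∧ I v u}`. Since
`I v (f v)` for all `v`, `inv x = inv' x'` if and only if `I y x'` for some `y` in the cell of `x`. CBJ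
gives a bijection of the cells with isomorphic cells; glue; pairs in different cells: last
hypothesis. -/
def StmtASM2 : Prop :=
  ∀ (V W : Type) [Finite V] [Finite W] (G : SimpleGraph V) (H : SimpleGraph W)
    (E : V → V → Prop) (E' : W → W → Prop) (T : V → W → Prop) (f : V ≃ W),
    Equivalence E → Equivalence E' →
    (∀ x x1 x' x1', T x x' → T x1 x' → T x1 x1' → T x x1') →
    (∀ x, ∃ β : V → W, β x = f x ∧
      (∀ y, E x y → T y (β y) ∧ E' (f x) (β y)) ∧
      (∀ y z, E x y → E x z → (y = z ↔ β y = β z) ∧ (G.Adj y z ↔ H.Adj (β y) (β z))) ∧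
      (∀ y', E' (f x) y' → ∃ y, E x y ∧ β y = y')) →
    (∀ x z x' z', T x x' → T z z' → ¬ E x z → ¬ E' x' z' → (G.Adj x z ↔ H.Adj x' z')) →
    Nonempty (G ≃g H)

/-- CLL. The final step. Proof. `V` empty: then `W` is (a bijection). `X u v :↔ u ≠ v ∧ ¬ (Adj ↔ D)`,
symmetric. Play `t` rounds: `b : Fin t → W` with `Bj G H (q+L+3) t a b` (from `Bj (j + t) 0` by induction),
then the bijection `f` of the next round. `T x x' :↔ Bj G H q (t+1) (sn a x) (sn b x')`.
`D' x' y' :↔ ∃ x y, T x x' ∧ T y y' ∧ D x y` (equal to `D x y` for all `x, y` with `T x x'`, `T y y'`, by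
GAM and the hypothesis on `D`), `X'` in the same way, `E, E'` := reachability of `X, X'`. For `x` and
`f x`: put further pebbles on all (`≤ L`) elements `y_i` of the cell of `x`, answers `y'_i`; at least
`q + 1` rounds remain; `β y_i := y'_i`. `T y_i y'_i` by reindexing, `X y_i y_j ↔ X' y'_i y'_j`, so `β` maps
the cell into the cell of `f x`; onto: if `X' (β y) z'` take one more round: `z` with `z'` as the answer,
so `X y z`, `z` is in the cell, `β z = z'`. Cross: `¬ E x z → (G.Adj x z ↔ D x z)` for `x ≠ z`. ASM2. -/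
def StmtCLL : Prop :=
  ∀ (V : Type) [Finite V] (G : SimpleGraph V) (t q L : ℕ) (a : Fin t → V)
    (D : V → V → Prop), (∀ x y, D x y → D y x) →
    (∀ x y x' y', tc G q t a x x = tc G q t a x' x' → tc G q t a y y = tc G q t a y' y' →
      (D x y ↔ D x' y')) →
    (∀ x, Nat.card {y : V // Relation.ReflTransGen
      (fun u v => u ≠ v ∧ ¬ (G.Adj u v ↔ D u v)) x y} ≤ L) →
    DId (t + q + L + 3) G

/-- PAD. A finite set `P` is added to the parameters. Proof. TCP, one point after the other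
(compare `StmtADD` in WLE). -/
def StmtPAD : Prop :=
  ∀ (V : Type) (G : SimpleGraph V) (q t : ℕ) (s : Fin t → V) (P : Finset V),
    ∃ a : Fin (t + P.card) → V, Ref (tc G q (t + P.card) a) (tc G q t s) ∧
      ∀ p ∈ P, ∀ y y' : V, tc G q (t + P.card) a y y = tc G q (t + P.card) a y' y' →
        tc G q t s p y = tc G q t s p y'

/-! ## Counting classes -/

open Classical in
/-- TCH. `f` refines `g`. The number of classes of `g` in `A` that are split by `f`, and the number
of the classes of `f` inside them. Proof. LOC or directly: a class of `g` with `k ≥ 2` parts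
contributes `k - 1 ≥ k / 2` to `Num f A - Num g A`. -/
def StmtTCH : Prop :=
  ∀ (V κ κ' : Type) [Fintype V] (f : V → κ') (g : V → κ) (A : Finset V),
    (∀ y y', f y = f y' → g y = g y') →
    ((A.image g).filter (fun i => ∃ y ∈ A, ∃ y' ∈ A, g y = i ∧ g y' = i ∧ f y ≠ f y')).card +
      Num g A ≤ Num f A ∧
    ((A.image f).filter (fun j => ∃ y ∈ A, ∃ y' ∈ A, f y = j ∧ g y' = g y ∧ f y' ≠ j)).card +
      2 * Num g A ≤ 2 * Num f A

/-- DGA. The minority side of `N` in every class of `g`. Proof. Put the smaller one of the two sets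
`F ∩ N`, `F ∖ N` into `Z`, for every class `F` of `g`; `d_F` its size. LOC (third part) with
`δ_F = √d_F / 2`: both sets are unions of classes of `f`, `√a + √b ≥ √(a+b) + √a/2` for `a ≤ b`. So
`∑ √d_F < 2K` and `|Z| = ∑ d_F ≤ (∑ √d_F)² ≤ 4K²` (compare `Pool/Agent/WLE/MDeg.lean`). -/
def StmtDGA : Prop :=
  ∀ (V κ κ' : Type) [Fintype V] (N : V → Prop) (f : V → κ') (g : V → κ) (K : ℕ),
    (∀ y y', f y = f y' → g y = g y') → (∀ y y', f y = f y' → (N y ↔ N y')) →
    Sq f Finset.univ < Sq g Finset.univ + K →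
    ∃ Z : Finset V, Z.card ≤ 4 * K ^ 2 ∧
      ∀ i : κ, (∀ y, g y = i → (y ∈ Z ↔ N y)) ∨ (∀ y, g y = i → (y ∈ Z ↔ ¬ N y))

/-! ## Phase 1 -/

/-- GR1. First greedy phase. Proof (compare `Pool/Agent/WLE/MGrz.lean`). `P := Sq + Num ≤ 2n` (MON).
Claim for every `j`: there is a terminal `(s, r)` with `t ≤ j`, `r ≤ m j`, or an `(s, r)` with `t ≤ j`,
`r ≤ m j` and `P (fib (tc r s)) ≥ j K`: if `(s, r)` is not terminal, `x` the vertex, pass to
`(sn s x, r + m)`; the classes of `fib (tc (r+m) (sn s x))` are those of the row `tc (r+m) s x` (TCP). For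
`j = 2n/K + 1` the second alternative is impossible, and its step `j = 2n/K` gives the claim. -/
def StmtGR1 : Prop :=
  ∀ (V : Type) [Fintype V] (G : SimpleGraph V) (K m : ℕ), 1 ≤ K →
    ∃ (t r : ℕ) (s : Fin t → V), t ≤ 2 * Fintype.card V / K ∧
      r ≤ m * (2 * Fintype.card V / K) ∧
      ∀ x, Sq (tc G (r + m) t s x) Finset.univ + Num (tc G (r + m) t s x) Finset.univ <
        Sq (fib (tc G r t s)) Finset.univ + Num (fib (tc G r t s)) Finset.univ + K

/-- DG1. The exceptional pairs have bounded degree. Proof. `Ex` is symmetric (swap the pairs) and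
`c'`-invariant (`pa, pb` depend only on the `c'`-fibres, `Inv c G.Adj`). Degree: let `D := 4K²`, `x` a
vertex, `F` its `c'`-fibre. For every `x₁ ∈ F` let `Z x₁` be the set of DGA for `f := c' x₁`, `g := fib c`,
`N := G.Adj x₁`. For every `c`-fibre `F₀` the number `a := |N(x₁) ∩ F₀|` does not depend on `x₁ ∈ F` (`Stp`).
Let `F'` be a `c'`-fibre, `F₀ ⊇ F'` its `c`-fibre.
(i) `|F'| ≥ 4D+4`. As `|F₀| ≥ 4D+4`, either `a ≤ D` and `Z x₁ ∩ F₀ = N(x₁) ∩ F₀` for all `x₁ ∈ F`, or
`|F₀| - a ≤ D` and `Z x₁ ∩ F₀ = F₀ ∖ N(x₁)` for all `x₁ ∈ F`. In the first case there are `≤ D|F|` adjacent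
pairs `x₁ ≠ y` in `F × F'` and more non-adjacent ones, so `pa ≤ pb`; in the second case `pb < pa`. So all
`y ∈ F'` with `Ex x y` are in `Z x`: altogether at most `D` such `y`.
(ii) `|F'| < 4D+4`, `F' ≠ F₀`: at most `2K` such `F'` (TCH for `fib c'`, `fib c`;
`Num (fib c') ≤ Num (c' x) < Num (fib c) + K`), so at most `2K(4D+4)` such `y`.
(iii) `|F'| < 4D+4`, `F' = F₀ ≠ F`. If `c' x` is not constant on `F'`: at most `K` such `F'` (TCH for
`c' x`, `fib c`). If it is, then `a = 0` or `a = |F'|` (for all `x₁ ∈ F`), `pa = 0` or `pb = 0`, and there is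
no `y ∈ F'` with `Ex x y`.
(iv) `F' = F = F₀`, `|F| < 4D+4`: at most `4D+4` such `y`.
Sum `≤ 4K² + (3K+1)(16K²+4) ≤ 100K³`. -/
def StmtDG1 : Prop :=
  ∀ (V κ κ' : Type) [Fintype V] (G : SimpleGraph V) (c : V → V → κ) (c' : V → V → κ') (K : ℕ),
    1 ≤ K → CS c → CS c' → Stp c' c → Inv c G.Adj →
    (∀ x, Sq (c' x) Finset.univ < Sq (fib c) Finset.univ + K ∧
      Num (c' x) Finset.univ < Num (fib c) Finset.univ + K) →
    (∀ x y, Ex G c' x y → Ex G c' y x) ∧ Inv c' (Ex G c') ∧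
    (∀ x, Nat.card {y : V // Ex G c' x y} ≤ 100 * K ^ 3)

/-- WKK. Bounded walks. Proof. Induction; the third claim: `Wk (i+j) x y ↔ ∃ z, Wk i x z ∧ Wk j z y`, so
for `i ≤ 2^(j+1)` split `i = i₁ + i₂`, `i₁, i₂ ≤ 2^j`, and use `Stp`. `i = 0`: `diag`. -/
def StmtWKK : Prop :=
  ∀ (V κ : Type) [Fintype V] (d : ℕ → V → V → κ) (Γ : SimpleGraph V) (D : ℕ),
    (∀ j, CS (d j)) → (∀ j, Stp (d (j + 1)) (d j)) → Inv (d 1) Γ.Adj →
    (∀ x, Nat.card {y : V // Γ.Adj x y} ≤ D) →
    (∀ i x y, Wk Γ i x y → Wk Γ i y x ∧ Wk Γ (i + 1) x y ∧ Γ.Reachable x y) ∧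
    (∀ i j x y, Wk Γ (i + j) x y ↔ ∃ z, Wk Γ i x z ∧ Wk Γ j z y) ∧
    (∀ j i, i ≤ 2 ^ j → Inv (d (j + 1)) (Wk Γ i)) ∧
    (∀ i x, Nat.card {y : V // Wk Γ i x y} ≤ (D + 1) ^ i) ∧
    (∀ i x, (∀ y, Wk Γ (i + 1) x y → Wk Γ i x y) → ∀ y, Γ.Reachable x y → Wk Γ i x y)

/-- DI1. Diameter. Proof. `S_i(x) := {y | Wk i x y ∧ ¬ Wk (i-1) x y}` (`i ≥ 1`); `F x :↔ S_{2K}(x) ≠ ∅`.
By WKK `Wk i` is `d (m+1)`-invariant for `i ≤ 2K ≤ 2^m`, so `F` is a union of `d (m+2)`-fibres (`Stp`).
If not `F x` then everything reachable from `x` is reachable in `2K - 1` steps: `≤ (D+1)^(2K)`.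
Let `F x`. Choose `z_i ∈ S_i(x)` for `1 ≤ i ≤ 2K` (on a walk to an element of `S_{2K}(x)`), `F_i` := the
`d 0`-fibre of `z_i`. If `F_i` is not inside `S_i(x)` then the row `d (m+1) x` splits it. For a `d 0`-fibre
`F'` let `n(F')` be the number of `i` with `F_i = F'`, `F' ⊄ S_i(x)`; if `n(F') ≥ 1` the row has at least
`max (2, n(F')) ≥ 1 + n(F')/2` classes on `F'` (the `z_i` have different distances). By LOC (second part)
`∑ n(F')/2 ≤ Num (d (m+1) x) - Num (fib (d 0)) < K`. So `F_i ⊆ S_i(x)` for some `i`, `1 ≤ i ≤ 2K`. If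
`d (m+2) x' x' = d (m+2) x x` then (`Stp`) there is `e` with `d (m+1) x z = d (m+1) x' (e z)`; `e` maps `F_i`
to `F_i` (onto, finite), so `F_i ⊆ S_i(x')`, `x' ∈ S_i(z_i)`: at most `(D+1)^i` such `x'`. (Compare
`Pool/Agent/WLE/MDia.lean`.) -/
def StmtDI1 : Prop :=
  ∀ (V κ : Type) [Fintype V] (d : ℕ → V → V → κ) (Γ : SimpleGraph V) (K D m : ℕ),
    (∀ j, CS (d j)) → (∀ j, Stp (d (j + 1)) (d j)) → Inv (d 1) Γ.Adj →
    (∀ x, Nat.card {y : V // Γ.Adj x y} ≤ D) → 1 ≤ K → 2 * K ≤ 2 ^ m →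
    (∀ x, Num (d (m + 2) x) Finset.univ < Num (fib (d 0)) Finset.univ + K) →
    ∃ F : V → Prop, (∀ x y, d (m + 2) x x = d (m + 2) y y → F x → F y) ∧
      (∀ x, ¬ F x → Nat.card {y : V // Γ.Reachable x y} ≤ (D + 1) ^ (2 * K)) ∧
      (∀ x, F x → Nat.card {y : V // d (m + 2) y y = d (m + 2) x x} ≤ (D + 1) ^ (2 * K))

/-! ## Phase 2 -/

/-- QMO. Proof. Let `c'` refine `c`. A `c`-fibre in `A` that is not split by `fib c'` is a `c'`-fibre,
and its `tau` does not decrease (the rows of `c'` refine the rows of `c`). The number of split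
`c`-fibres is at most `Num (fib c') A - Num (fib c) A` (TCH), each contributes at most `B` to
`Qf c A B`. -/
def StmtQMO : Prop :=
  ∀ (V κ κ' : Type) [Fintype V] (c : V → V → κ) (c' : V → V → κ') (A : Finset V) (B : ℕ),
    Ref c' c → Cl c A →
    Qf c A B + B * Num (fib c) A ≤ Qf c' A B + B * Num (fib c') A

/-- MII. The minimum. Proof. Among all `(t, q, s)` with `Ref (tc q s) (tc q₀ s₀)` choose one for which
the natural number `Ψ := 8KB(t+q) + KB Phi + 16B(n - Num) + 8(Bn - Qf)` is minimal, where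
`Phi := Phi (fib c) A`, `Num := Num (fib c) A ≤ n`, `Qf := Qf c A B ≤ B Num ≤ Bn`, `c := tc q s`.
Comparison with `(t₀, q₀, s₀)` and `Phi ≤ n` gives the bound of `t + q`. Comparison with
`(t+1, q, sn s x)`: by TCP `fib (tc q (sn s x))` has the same classes as the row `tc q s x`, so the same
`Phi` and `Num` (MON in both directions); with QMO (`Qf(c) + B Num(c) ≤ Qf(c') + B Num(c')`) one
gets `8KB + KB Phi' + 8B Num ≥ KB Phi + 8B Num'`; divide by `B`. Comparison with `(t, q+2, s)`: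
`16KB + 16B Num + 8 Qf ≥ 16B Num' + 8 Qf'` (as `Phi' ≤ Phi`), with QMO `Num' ≤ Num + 2K`, and
(`Num ≤ Num'`) `Qf' ≤ Qf + 2KB`. -/
def StmtMII : Prop :=
  ∀ (V : Type) [Fintype V] (G : SimpleGraph V) (t₀ q₀ : ℕ) (s₀ : Fin t₀ → V) (A : Finset V)
    (K B : ℕ), 1 ≤ K → 1 ≤ B → Cl (tc G q₀ t₀ s₀) A →
    ∃ (t q : ℕ) (s : Fin t → V), Ref (tc G q t s) (tc G q₀ t₀ s₀) ∧
      8 * K * (t + q) ≤ 8 * K * (t₀ + q₀) + (K + 24) * Fintype.card V ∧
      (∀ x, K * Phi (fib (tc G q t s)) A + 8 * Num (tc G q t s x) A ≤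
        8 * K + K * Phi (tc G q t s x) A + 8 * Num (fib (tc G q t s)) A) ∧
      Num (fib (tc G (q + 2) t s)) A ≤ Num (fib (tc G q t s)) A + 2 * K ∧
      Qf (tc G (q + 2) t s) A B ≤ Qf (tc G q t s) A B + 2 * K * B

/-- TAU. Proof. Let `F` be the fibre of `y`; `c'` is constant on the diagonal of `F`. Let `x ∈ A`,
`c x` not constant on `F`, `F'` the `c`-fibre of `x`. Claim: for every `z ∈ F` the row `c z` is not
constant on `F'`. Suppose `c z` is constant on `F'`. For `z' ∈ F` `Stp` (for `c' z' z' = c' z z`) gives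
`e` with `c z' w = c z (e w)` for all `w`; for `w = x`: `e x ∈ F'`, so `c z' x = c z (e x) = c z x`; so
(`val`) `c x z' = c x z` for all `z' ∈ F`, a contradiction. So (TCH for `c y`, `fib c`, and
`Num (c y) A ≤ Num (fib c) A + K`) at most `K` fibres `F'` contain such `x`, each has at most `C`
elements, and `Num (c x) F - 1 ≤ |F| ≤ C`. -/
def StmtTAU : Prop :=
  ∀ (V κ κ' : Type) [Fintype V] (c : V → V → κ) (c' : V → V → κ') (A : Finset V) (K C : ℕ),
    CS c → Stp c' c → Cl c A →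
    (∀ x ∈ A, Num (c x) A ≤ Num (fib c) A + K) →
    (∀ x ∈ A, Nat.card {y : V // c y y = c x x} ≤ C) →
    ∀ y ∈ A, (∀ z, c z z = c y y → c' z z = c' y y) → tau c A (c y y) ≤ K * C * C

/-- STC. Stable fibres give a coherent configuration. Proof. Let `x, x', y, y' ∈ S`,
`c x y = c x' y'`. Then `c x x = c x' x'`, so `c₂ x x = c₂ x' x'`, and `Stp c₂ c₁` gives `e` with
`c₁ x z = c₁ x' (e z)`. For `z = y`: `c₁ x y = c₁ x' (e y)`, so `c x' (e y) = c x y = c x' y'`, `e y` and `y'`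
are in one `c`-fibre, so by hypothesis `c₂ x' (e y) = c₂ x' y'`, and `c₁ x y = c₁ x' (e y) = c₁ x' y'`.
`Stp c₁ c` gives `e'` with `c x z = c x' (e' z)`, `c z y = c (e' z) y'`; `e'` preserves the `c`-fibres, so
it maps `S` onto `S` and gives the equality of the intersection numbers. -/
def StmtSTC : Prop :=
  ∀ (V κ κ₁ κ₂ : Type) [Fintype V] (c : V → V → κ) (c₁ : V → V → κ₁) (c₂ : V → V → κ₂)
    (S : Finset V), CS c → CS c₁ → CS c₂ → Stp c₁ c → Stp c₂ c₁ → Cl c S →
    (∀ x ∈ S, ∀ y, c x x = c y y → c₂ x x = c₂ y y) →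
    (∀ x ∈ S, ∀ y ∈ S, ∀ y' ∈ S, c x y = c x y' → c₂ x y = c₂ x y') →
    Coherent (fun x y : {v : V // v ∈ S} => c x.1 y.1)

/-- STB. Proof. Call a `c`-fibre `F` in `A` good if (1) `c₂` is constant on its diagonal, and
(2) for all `x ∈ A`, `y, y' ∈ F`: `c x y = c x y' → c₂ x y = c₂ x y'`. `S` := the union of the good fibres;
STC. (1) fails for at most `Num (fib c₂) A - Num (fib c) A ≤ 2K` fibres (TCH). Let (1) hold for `F`
(so `F` is also a `c₂`-fibre) and (2) fail. For every `x ∈ A` the row `c₂ x` refines the row `c x` on `F`,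
for some `x` properly, so `tau c₂ A > tau c A` at `F`; and `tau c A ≤ KCC < B` (TAU for `c' := c₁`), so
`min (tau c₂ A) B ≥ min (tau c A) B + 1`. Summing over the fibres with (1):
`Qf c₂ A B ≥ Qf c A B - 2KB + #(such F)`, so there are at most `4KB` such `F`. All fibres in `A` have at
most `C` elements. -/
def StmtSTB : Prop :=
  ∀ (V κ κ₁ κ₂ : Type) [Fintype V] [DecidableEq V] (c : V → V → κ) (c₁ : V → V → κ₁)
    (c₂ : V → V → κ₂) (A : Finset V) (K C B : ℕ), CS c → CS c₁ → CS c₂ → Stp c₁ c →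
    Stp c₂ c₁ → Cl c A → (∀ x ∈ A, Num (c x) A ≤ Num (fib c) A + K) →
    (∀ x ∈ A, Nat.card {y : V // c y y = c x x} ≤ C) → K * C * C < B →
    Num (fib c₂) A ≤ Num (fib c) A + 2 * K → Qf c₂ A B ≤ Qf c A B + 2 * K * B →
    ∃ S : Finset V, S ⊆ A ∧ Cl c S ∧ (A \ S).card ≤ (2 * K + 4 * K * B) * C ∧
      Coherent (fun x y : {v : V // v ∈ S} => c x.1 y.1)

/-- SUB. Restriction to a union `S ⊆ A` of classes of `g` (`f` refines `g`). Proof. `A` is the disjoint
union of `S` and `A ∖ S`, both unions of classes of `g` in `A`; so `Phi g A = Phi g S + Phi g (A ∖ S)` etc.,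
and on `A ∖ S` `Phi f ≤ Phi g`, `Num g ≤ Num f` (MON). And `Phi`, `Num` of the restriction to the
subtype are `Phi`, `Num` on `S`. -/
def StmtSUB : Prop :=
  ∀ (V κ κ' : Type) [Fintype V] (f : V → κ') (g : V → κ) (A S : Finset V), S ⊆ A →
    (∀ y y', f y = f y' → g y = g y') → (∀ y y', g y = g y' → y ∈ S → y' ∈ S) →
    Phi (fun y : {v : V // v ∈ S} => g y.1) Finset.univ + Phi f A ≤
      Phi (fun y : {v : V // v ∈ S} => f y.1) Finset.univ + Phi g A ∧
    Num (fun y : {v : V // v ∈ S} => f y.1) Finset.univ + Num g A ≤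
      Num (fun y : {v : V // v ∈ S} => g y.1) Finset.univ + Num f A

/-- NUC. The nucleus: everything for coherent configurations, from WLE. Proof. `A := univ`.
(a) If `x` is complex and `g : Fin 3 → V` are complex, dependent on `x`, in different fibres, then KEY
gives `Phi (c x) + 8 ≤ Phi (fib c)` and NMD (with `T = {g 0}`) `Num (fib c) + 1 ≤ Num (c x)`, against the
hypothesis. (b) `T` as in NMD has `T.card ≤ K`: NMD, `Phi (c x) ≤ Phi (fib c)` (MON) and the
hypothesis. APP gives `P`; CMB with this `P`. -/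
def StmtNUC : Prop :=
  ∀ (V κ : Type) [Fintype V] (c : V → V → κ) (K C M : ℕ), Coherent c → 1 ≤ K → 1 ≤ M →
    (∀ x, Nat.card {y : V // c y y = c x x} ≤ C) →
    (∀ x, K * Phi (fib c) Finset.univ + 8 * Num (c x) Finset.univ ≤
      8 * K + K * Phi (c x) Finset.univ + 8 * Num (fib c) Finset.univ) →
    ∃ P : Finset V, Cl c P ∧ P.card * M ≤ 2 * C * Fintype.card V ∧
      ∀ R : V → V → Prop, (∀ a b, R a b → R b a) →
        (∀ a b, R a b → a ∉ P ∧ b ∉ P ∧ (c a a = c b b ∨ Dep c a b)) →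
        ∀ x, Nat.card {y : V // Relation.ReflTransGen R x y} ≤ C * (M + M * K + K + 1)

/-! ## The theorem -/

/-- LST. The last part. `c` = types of level `q` over `s`; `d₁` a coarser colouring for which `Ex` has
large components only in `A`; `S ⊆ A` with `A ∖ S` small, `c` coherent on `S`; `P` the set of NUC.
Proof. `P₁ := (A ∖ S) ∪ P` (as a set in `V`), PAD gives `a`. `D x y :↔` (`x ∈ P₁` or `y ∈ P₁`, and
`G.Adj x y`) or (`x, y ∉ P₁` and [(`Hom G c x y` and some pair `x' ≠ y'` in the fibres of `x, y` is adjacent)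
or (not `Hom G c x y`, and `pb < pa` for `d₁`)]). `D` is symmetric and depends only on the fibres of
`tc q a`: for `p ∈ P₁` the fibre is `{p}` (PAD, `diag`) and the adjacency of `p` and `y` depends only on the
fibre of `y`. `X x y :↔ x ≠ y ∧ ¬ (Adj ↔ D)` implies `x, y ∉ P₁`, `Ex G d₁ x y`, `¬ Hom G c x y`. If some vertex
reachable from `x` by `Ex` is not in `A` the `Ex`-component of `x` has at most `C` elements. Otherwise
all elements of the `X`-cell of `x` are in `A ∖ P₁ ⊆ S` (or the cell is `{x}`), and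
`R a b := X a b` on the subtype `S` satisfies the hypotheses of NUC: if the `c`-fibres of
`a, b ∈ S` are different and not dependent then `c` is constant on the product (DEP 3), so
`Hom G c a b`. CLL with `L := C(M + MK + K + 1) + C + 1`. -/
def StmtLST : Prop :=
  ∀ (V κ₁ : Type) [Fintype V] [DecidableEq V] (G : SimpleGraph V) (q t : ℕ) (s : Fin t → V)
    (d₁ : V → V → κ₁) (A S : Finset V) (K C M b : ℕ), 1 ≤ K → 1 ≤ M →
    Ref (tc G q t s) d₁ → Inv d₁ G.Adj →
    (∀ x y, Ex G d₁ x y → Ex G d₁ y x) →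
    (∀ x, x ∉ A → Nat.card {y : V // Relation.ReflTransGen (Ex G d₁) x y} ≤ C) →
    (∀ x ∈ A, Nat.card {y : V // tc G q t s y y = tc G q t s x x} ≤ C) →
    S ⊆ A → Cl (tc G q t s) S → (A \ S).card ≤ b →
    Coherent (fun x y : {v : V // v ∈ S} => tc G q t s x.1 y.1) →
    (∀ x ∈ S, K * Phi (fib (tc G q t s)) A + 8 * Num (tc G q t s x) A ≤
      8 * K + K * Phi (tc G q t s x) A + 8 * Num (fib (tc G q t s)) A) →
    ∃ p : ℕ, p * M ≤ 2 * C * Fintype.card V ∧
      DId (t + (b + p) + q + (C * (M + M * K + K + 1) + C + 1) + 3) G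

/-- FNL. The bound with all parameters. Proof. GR1 with `m + 2` in place of `m`: `(t₀, r₀, s₀)`;
`d j := tc (r₀ + j) s₀`, `d₁ := d 1`. MON separates the two parts of the inequality. DG1, DI1 (with
`Γ` := the graph `Ex G d₁`, `D := 100K³`): `A := {x | F x}`, closed under `fib (tc q₀ s₀)`,
`q₀ := r₀ + m + 2`. MII with `B := K*C*C + 1`: `(t, q, s)`. The hypotheses of STB: the third claim of
MII, MON (`Phi (c x) ≤ Phi (fib c)`) gives `Num (c x) A ≤ Num (fib c) A + K`. STB, LST. The numbers: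
`t + q ≤ t₀ + q₀ + n/8 + 3n/K`, `t₀ + q₀ ≤ 2(m+3) n/K + m + 2`, `p ≤ 2Cn/M`. -/
def StmtFNL : Prop :=
  ∀ (V : Type) [Fintype V] (G : SimpleGraph V) (K M m C B : ℕ), 1 ≤ K → 1 ≤ M →
    2 * K ≤ 2 ^ m → C = (100 * K ^ 3 + 1) ^ (2 * K) → B = K * C * C + 1 →
    ∃ k : ℕ, (k : ℝ) ≤ (Fintype.card V : ℝ) * (1 / 8 + (2 * m + 9) / K + 2 * C / M) +
      ((2 * K + 4 * K * B) * C + C * (M + M * K + K + 1) + C + m + 6) ∧ DId k G

/-- EPS. Proof. `K := 2^j`, `m := j + 1`: `(2m + 9)/K ≤ ε/3` for large `j`; then `M` with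
`2C/M ≤ ε/3`; then `N` such that the constant is `≤ (ε/3) N`. -/
def StmtEPS : Prop :=
  ∀ ε : ℝ, 0 < ε → ∃ N : ℕ, ∀ (V : Type) [Fintype V] (G : SimpleGraph V),
    N ≤ Fintype.card V →
    ∃ k : ℕ, (k : ℝ) ≤ (1 / 8 + ε) * (Fintype.card V : ℝ) ∧ DId k G

end Pool.Agent.DQE
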