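import Mathlib
import Pool.Agent.DQE.St

set_option autoImplicit false

namespace Pool.Agent.DQE

open Pool.Agent.BRW Pool.Agent.WLE

namespace MLst92

theorem hom_symm' {V κ : Type} (G : SimpleGraph V) (c : V → V → κ) (x y : V)
    (h : Hom G c x y) : Hom G c y x := by
  intro x' y' x'' y'' h1 h2 h3 h4 h5 h6
  rw [G.adj_comm x' y', G.adj_comm x'' y'']
  exact h y' x' y'' x'' h2 h1 h4 h3 h5.symm h6.symm

theorem pa_symm {V κ : Type} (G : SimpleGraph V) (c : V → V → κ) (x y : V) :
    pa G c x y = pa G c y x := by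
  unfold pa
  refine Nat.card_congr ?_
  refine (Equiv.prodComm V V).subtypeEquiv ?_
  intro p
  simp only [Equiv.prodComm_apply, Prod.fst_swap, Prod.snd_swap]
  constructor
  · rintro ⟨h1, h2, h3, h4⟩
    exact ⟨h2, h1, h3.symm, h4.symm⟩
  · rintro ⟨h1, h2, h3, h4⟩
    exact ⟨h2, h1, h3.symm, h4.symm⟩

theorem pb_symm {V κ : Type} (G : SimpleGraph V) (c : V → V → κ) (x y : V) :
    pb G c x y = pb G c y x := by
  unfold pb
  refine Nat.card_congr ?_
  refine (Equiv.prodComm V V).subtypeEquiv ?_
  intro p
  simp only [Equiv.prodComm_apply, Prod.fst_swap, Prod.snd_swap]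
  constructor
  · rintro ⟨h1, h2, h3, h4⟩
    exact ⟨h2, h1, h3.symm, fun h => h4 h.symm⟩
  · rintro ⟨h1, h2, h3, h4⟩
    exact ⟨h2, h1, h3.symm, fun h => h4 h.symm⟩

theorem did_mono (hGAM : StmtGAM) {V : Type} (G : SimpleGraph V) (k j : ℕ) (h : DId k G) :
    DId (k + j) G := by
  intro W _ H hB
  apply h W H
  induction j with
  | zero => exact hB
  | succ j ih => exact ih (hGAM.1 V W G H (k + j) 0 _ _ hB)

theorem rtg_symm' {V : Type} (R : V → V → Prop) (h : ∀ a b, R a b → R b a) {x y : V}
    (hxy : Relation.ReflTransGen R x y) : Relation.ReflTransGen R y x := by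
  induction hxy with
  | refl => exact .refl
  | tail _ h2 ih => exact Relation.ReflTransGen.head (h _ _ h2) ih

end MLst92

open MLst92

theorem lst (hGAM : StmtGAM) (hTCP : StmtTCP) (hPAD : StmtPAD) (hCLL : StmtCLL)
    (hSUB : StmtSUB) (hNUC : StmtNUC) (hDEP : StmtDEP) : StmtLST := by
  intro V κ₁ _ _ G q t s d₁ A S K C M b hK hM hRef hInv hsym hout hfib hSA hClS hcard hCoh hpot
  have hCS := (hTCP V G q t s).1
  have hInvc := (hTCP V G q t s).2.2.1
  generalize hc : tc G q t s = c at *
  -- the nucleus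
  obtain ⟨P, hClP, hPc, hR⟩ := hNUC {v : V // v ∈ S} _ (fun x y => c x.1 y.1) K C M hCoh hK hM
    (by
      intro x
      refine le_trans ?_ (hfib x.1 (hSA x.2))
      refine Nat.card_le_card_of_injective
        (fun y : {y : {v : V // v ∈ S} // c y.1 y.1 = c x.1 x.1} =>
          (⟨y.1.1, y.2⟩ : {y : V // c y y = c x.1 x.1})) ?_
      intro a b hab
      simp only [Subtype.mk.injEq] at hab
      exact Subtype.ext (Subtype.ext hab))
    (by
      intro x
      have h1 := hSUB V _ _ (c x.1) (fib c) A S hSA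
        (fun y y' h => (hCS.val x.1 y x.1 y' h).2.1) (fun y y' h hy => hClS y y' h hy)
      have h2 := hpot x.1 x.2
      have h3 := Nat.mul_le_mul_left K h1.1
      have h4 := h1.2
      rw [Nat.mul_add, Nat.mul_add] at h3
      have e1 : (fun y : {v : V // v ∈ S} => fib c y.1) =
        fib (fun x y : {v : V // v ∈ S} => c x.1 y.1) := rfl
      rw [e1] at h3 h4
      change K * Phi (fib (fun x y : {v : V // v ∈ S} => c x.1 y.1)) Finset.univ +
        8 * Num (fun y : {v : V // v ∈ S} => c x.1 y.1) Finset.univ ≤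
        8 * K + K * Phi (fun y : {v : V // v ∈ S} => c x.1 y.1) Finset.univ +
        8 * Num (fib (fun x y : {v : V // v ∈ S} => c x.1 y.1)) Finset.univ
      omega)
  set P₁ : Finset V := (A \ S) ∪ P.image Subtype.val with hP₁
  have hP₁c : P₁.card ≤ b + P.card := by
    refine le_trans (Finset.card_union_le _ _) ?_
    exact Nat.add_le_add hcard Finset.card_image_le
  obtain ⟨a, hRa, ha⟩ := hPAD V G q t s P₁
  rw [hc] at hRa ha
  let HS : V → V → Prop := fun x y => ∃ x' y', c x' x' = c x x ∧ c y' y' = c y y ∧ x' ≠ y' ∧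
    G.Adj x' y'
  let D : V → V → Prop := fun x y => ((x ∈ P₁ ∨ y ∈ P₁) ∧ G.Adj x y) ∨
    (x ∉ P₁ ∧ y ∉ P₁ ∧ ((Hom G c x y ∧ HS x y) ∨
      (¬ Hom G c x y ∧ pb G d₁ x y < pa G d₁ x y)))
  have hDsym : ∀ x y, D x y → D y x := by
    rintro x y (⟨h1, h2⟩ | ⟨h1, h2, h3⟩)
    · exact Or.inl ⟨h1.symm, h2.symm⟩
    · refine Or.inr ⟨h2, h1, ?_⟩
      rcases h3 with ⟨h3, x', y', h4, h5, h6, h7⟩ | ⟨h3, h4⟩
      · exact Or.inl ⟨hom_symm' G c x y h3, y', x', h5, h4, h6.symm, h7.symm⟩
      · refine Or.inr ⟨fun h => h3 (hom_symm' G c y x h), ?_⟩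
        rwa [pb_symm G d₁ y x, pa_symm G d₁ y x]
  have hPfix : ∀ x x', tc G q (t + P₁.card) a x x = tc G q (t + P₁.card) a x' x' →
      x ∈ P₁ → x' = x := by
    intro x x' h hx
    exact (hCS.diag x x x' (ha x hx x x' h)).symm
  -- one half of the invariance
  have hDinv1 : ∀ x y x' y', tc G q (t + P₁.card) a x x = tc G q (t + P₁.card) a x' x' →
      tc G q (t + P₁.card) a y y = tc G q (t + P₁.card) a y' y' → D x y → D x' y' := by
    intro x y x' y' hx hy hD
    have hcx : c x x = c x' x' := hRa x x x' x' hx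
    have hcy : c y y = c y' y' := hRa y y y' y' hy
    rcases hD with ⟨h1, h2⟩ | ⟨h1, h2, h3⟩
    · left
      rcases h1 with h1 | h1
      · have e := hPfix x x' hx h1
        subst e
        exact ⟨Or.inl h1, (hInvc _ _ _ _ (ha x' h1 y y' hy)).1 h2⟩
      · have e := hPfix y y' hy h1
        subst e
        exact ⟨Or.inr h1, ((hInvc _ _ _ _ (ha y' h1 x x' hx)).1 h2.symm).symm⟩
    · right
      have h1' : x' ∉ P₁ := fun h => h1 (by
        have e := hPfix x' x hx.symm h
        rw [e]; exact h)
      have h2' : y' ∉ P₁ := fun h => h2 (by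
        have e := hPfix y' y hy.symm h
        rw [e]; exact h)
      refine ⟨h1', h2', ?_⟩
      have hH : Hom G c x y ↔ Hom G c x' y' := by
        unfold Hom
        rw [hcx, hcy]
      rcases h3 with ⟨h3, u, v, h4, h5, h6, h7⟩ | ⟨h3, h4⟩
      · exact Or.inl ⟨hH.1 h3, u, v, h4.trans hcx, h5.trans hcy, h6, h7⟩
      · refine Or.inr ⟨fun h => h3 (hH.2 h), ?_⟩
        have e1 : d₁ x x = d₁ x' x' := hRef _ _ _ _ hcx
        have e2 : d₁ y y = d₁ y' y' := hRef _ _ _ _ hcy
        have e3 : pb G d₁ x' y' = pb G d₁ x y := by unfold pb; rw [e1, e2]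
        have e4 : pa G d₁ x' y' = pa G d₁ x y := by unfold pa; rw [e1, e2]
        rw [e3, e4]; exact h4
  have hDinv : ∀ x y x' y', tc G q (t + P₁.card) a x x = tc G q (t + P₁.card) a x' x' →
      tc G q (t + P₁.card) a y y = tc G q (t + P₁.card) a y' y' → (D x y ↔ D x' y') :=
    fun x y x' y' h1 h2 => ⟨hDinv1 x y x' y' h1 h2, hDinv1 x' y' x y h1.symm h2.symm⟩
  let X : V → V → Prop := fun u v => u ≠ v ∧ ¬ (G.Adj u v ↔ D u v)
  have hXsym : ∀ u v, X u v → X v u := by
    rintro u v ⟨h1, h2⟩
    refine ⟨h1.symm, fun h => h2 ?_⟩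
    rw [G.adj_comm u v, h]
    exact ⟨hDsym v u, hDsym u v⟩
  have hX : ∀ u v, X u v → u ∉ P₁ ∧ v ∉ P₁ ∧ Ex G d₁ u v ∧ ¬ Hom G c u v := by
    rintro u v ⟨h1, h2⟩
    have hu : u ∉ P₁ := by
      intro hu
      apply h2
      constructor
      · intro h; exact Or.inl ⟨Or.inl hu, h⟩
      · rintro (⟨_, h⟩ | ⟨h, _⟩)
        · exact h
        · exact absurd hu h
    have hv : v ∉ P₁ := by
      intro hv
      apply h2
      constructor
      · intro h; exact Or.inl ⟨Or.inr hv, h⟩
      · rintro (⟨_, h⟩ | ⟨_, h, _⟩)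
        · exact h
        · exact absurd hv h
    have hH : ¬ Hom G c u v := by
      intro hH
      apply h2
      constructor
      · intro h
        exact Or.inr ⟨hu, hv, Or.inl ⟨hH, u, v, rfl, rfl, h1, h⟩⟩
      · rintro (⟨h, _⟩ | ⟨_, _, ⟨_, u', v', h4, h5, h6, h7⟩ | ⟨h, _⟩⟩)
        · rcases h with h | h
          · exact absurd h hu
          · exact absurd h hv
        · exact (hH u' v' u v h4 h5 rfl rfl h6 h1).1 h7
        · exact absurd hH h
    refine ⟨hu, hv, ⟨h1, ?_⟩, hH⟩
    by_cases hadj : G.Adj u v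
    · left
      refine ⟨?_, hadj⟩
      by_contra hlt
      push Not at hlt
      exact h2 ⟨fun _ => Or.inr ⟨hu, hv, Or.inr ⟨hH, hlt⟩⟩, fun _ => hadj⟩
    · right
      refine ⟨?_, hadj⟩
      by_contra hlt
      apply h2
      constructor
      · intro h; exact absurd h hadj
      · rintro (⟨_, h⟩ | ⟨_, _, ⟨h, _⟩ | ⟨_, h⟩⟩)
        · exact h
        · exact absurd h hH
        · exact absurd h hlt
  -- the sizes of the cells
  have hcell : ∀ x, Nat.card {y : V // Relation.ReflTransGen X x y} ≤
      C * (M + M * K + K + 1) + C + 1 := by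
    intro x
    have hmono : ∀ y, Relation.ReflTransGen X x y → Relation.ReflTransGen (Ex G d₁) x y := by
      intro y hy
      exact Relation.ReflTransGen.mono (fun u v h => (hX u v h).2.2.1) _ _ hy
    by_cases hall : ∀ z, Relation.ReflTransGen (Ex G d₁) x z → z ∈ A
    · by_cases hx : x ∈ S ∧ x ∉ P₁
      · -- all of the cell is in `S`
        have hS : ∀ y, Relation.ReflTransGen X x y → y ∈ S := by
          intro y hy
          rcases Relation.ReflTransGen.cases_tail hy with h | ⟨w, _, hw⟩
          · rw [h]; exact hx.1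
          · have h1 := hall y (hmono y hy)
            by_contra h2
            exact (hX w y hw).2.1 (by
              rw [hP₁]
              exact Finset.mem_union_left _ (Finset.mem_sdiff.2 ⟨h1, h2⟩))
        let R : {v : V // v ∈ S} → {v : V // v ∈ S} → Prop := fun u v => X u.1 v.1
        have hbd := hR R (fun u v h => hXsym _ _ h)
          (by
            intro u v h
            obtain ⟨h1, h2, _, h4⟩ := hX u.1 v.1 h
            refine ⟨fun h5 => h1 ?_, fun h5 => h2 ?_, ?_⟩
            · rw [hP₁]
              exact Finset.mem_union_right _ (Finset.mem_image_of_mem _ h5)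
            · rw [hP₁]
              exact Finset.mem_union_right _ (Finset.mem_image_of_mem _ h5)
            · by_contra h6
              push Not at h6
              apply h4
              have h7 := (hDEP _ _ _ hCoh).2.2.1 u v h6.1 h6.2
              intro x' y' x'' y'' g1 g2 g3 g4 _ _
              have k1 : x' ∈ S := hClS _ _ g1.symm u.2
              have k2 : y' ∈ S := hClS _ _ g2.symm v.2
              have k3 : x'' ∈ S := hClS _ _ g3.symm u.2
              have k4 : y'' ∈ S := hClS _ _ g4.symm v.2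
              have l1 := h7 ⟨x', k1⟩ ⟨y', k2⟩ g1 g2
              have l2 := h7 ⟨x'', k3⟩ ⟨y'', k4⟩ g3 g4
              exact hInvc x' y' x'' y'' (l1.trans l2.symm))
          ⟨x, hx.1⟩
        have hlift : ∀ y (hy : Relation.ReflTransGen X x y),
            Relation.ReflTransGen R ⟨x, hx.1⟩ ⟨y, hS y hy⟩ := by
          intro y hy
          induction hy with
          | refl => exact .refl
          | tail h1 h2 ih => exact ih.tail h2
        refine le_trans ?_ (le_trans hbd (by omega))
        refine Nat.card_le_card_of_injective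
          (fun y : {y : V // Relation.ReflTransGen X x y} =>
            (⟨⟨y.1, hS y.1 y.2⟩, hlift y.1 y.2⟩ :
              {y : {v : V // v ∈ S} // Relation.ReflTransGen R ⟨x, hx.1⟩ y})) ?_
        intro u v huv
        simp only [Subtype.mk.injEq] at huv
        exact Subtype.ext huv
      · -- the cell is `{x}`
        have hsingle : ∀ y, Relation.ReflTransGen X x y → y = x := by
          intro y hy
          rcases Relation.ReflTransGen.cases_head hy with h | ⟨w, hw, _⟩
          · exact h.symm
          · exfalso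
            have h1 := (hX x w hw).1
            have h2 := hall x .refl
            apply hx
            refine ⟨?_, h1⟩
            by_contra h3
            exact h1 (by
              rw [hP₁]
              exact Finset.mem_union_left _ (Finset.mem_sdiff.2 ⟨h2, h3⟩))
        have : Subsingleton {y : V // Relation.ReflTransGen X x y} :=
          ⟨fun u v => Subtype.ext ((hsingle _ u.2).trans (hsingle _ v.2).symm)⟩
        have := Finite.card_le_one_iff_subsingleton.2 this
        omega
    · push Not at hall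
      obtain ⟨z, hz1, hz2⟩ := hall
      have h1 := hout z hz2
      have h2 : Nat.card {y : V // Relation.ReflTransGen X x y} ≤
          Nat.card {y : V // Relation.ReflTransGen (Ex G d₁) z y} := by
        refine Nat.card_le_card_of_injective
          (fun y : {y : V // Relation.ReflTransGen X x y} =>
            (⟨y.1, (rtg_symm' _ hsym hz1).trans (hmono y.1 y.2)⟩ :
              {y : V // Relation.ReflTransGen (Ex G d₁) z y})) ?_
        intro u v huv
        simp only [Subtype.mk.injEq] at huv
        exact Subtype.ext huv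
      omega
  refine ⟨P.card, ?_, ?_⟩
  · refine le_trans hPc ?_
    refine Nat.mul_le_mul_left _ ?_
    exact Fintype.card_subtype_le _
  · have h := hCLL V G (t + P₁.card) q (C * (M + M * K + K + 1) + C + 1) a D hDsym hDinv hcell
    obtain ⟨j, hj⟩ := Nat.exists_eq_add_of_le hP₁c
    have h2 := did_mono hGAM G _ j h
    have e : t + P₁.card + q + (C * (M + M * K + K + 1) + C + 1) + 3 + j =
        t + (b + P.card) + q + (C * (M + M * K + K + 1) + C + 1) + 3 := by
      rw [hj]; omega
    rw [e] at h2
    exact h2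

end Pool.Agent.DQE
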