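import Mathlib
import Pool.Agent.BRW.St
import Pool.Agent.DQE.St

set_option autoImplicit false

/-!
# ASM2: gluing of isomorphisms of cells (module DQE_ASM, MP_87b449_lc)   (helper53)
-/

namespace Pool.Agent.DQE

open Pool.Agent.BRW Pool.Agent.WLE

namespace AsmAux

variable {V W : Type} {G : SimpleGraph V} {H : SimpleGraph W} {E : V → V → Prop}
  {E' : W → W → Prop} {T : V → W → Prop}

/-- `β` is an isomorphism of the cell of `x` onto the cell of `x'`, respecting `T`. -/
structure Iso (G : SimpleGraph V) (H : SimpleGraph W) (E : V → V → Prop) (E' : W → W → Prop)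
    (T : V → W → Prop) (x : V) (x' : W) (β : V → W) : Prop where
  pt : β x = x'
  cell : ∀ y, E x y → T y (β y) ∧ E' x' (β y)
  pres : ∀ y z, E x y → E x z → (y = z ↔ β y = β z) ∧ (G.Adj y z ↔ H.Adj (β y) (β z))
  onto : ∀ y', E' x' y' → ∃ y, E x y ∧ β y = y'

/-- The cells of `x` and `x'` are isomorphic, `x` corresponds to `x'`. -/
def I (G : SimpleGraph V) (H : SimpleGraph W) (E : V → V → Prop) (E' : W → W → Prop)
    (T : V → W → Prop) (x : V) (x' : W) : Prop :=
  ∃ β : V → W, Iso G H E E' T x x' β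

theorem Iso.move (hE : Equivalence E) (hE' : Equivalence E') {x y : V} {x' : W} {β : V → W}
    (h : Iso G H E E' T x x' β) (hy : E x y) : Iso G H E E' T y (β y) β := by
  refine ⟨rfl, ?_, ?_, ?_⟩
  · intro z hz
    obtain ⟨h1, h2⟩ := h.cell z (hE.trans hy hz)
    exact ⟨h1, hE'.trans (hE'.symm (h.cell y hy).2) h2⟩
  · intro a b ha hb
    exact h.pres a b (hE.trans hy ha) (hE.trans hy hb)
  · intro y' hy'
    obtain ⟨z, hz, hz'⟩ := h.onto y' (hE'.trans (h.cell y hy).2 hy')
    exact ⟨z, hE.trans (hE.symm hy) hz, hz'⟩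

theorem I.zig (hE : Equivalence E)
    (hT : ∀ x x1 x' x1', T x x' → T x1 x' → T x1 x1' → T x x1')
    {x v : V} {a u : W} (h1 : I G H E E' T x a) (h2 : I G H E E' T v a)
    (h3 : I G H E E' T v u) : I G H E E' T x u := by
  classical
  obtain ⟨β, hβ⟩ := h1
  obtain ⟨δ, hδ⟩ := h2
  obtain ⟨γ, hγ⟩ := h3
  -- the element of the cell of `v` which corresponds to `y`
  have hch : ∀ y : V, ∃ z : V, E x y → E v z ∧ δ z = β y := by
    intro y
    by_cases hy : E x y
    · obtain ⟨z, hz, hz'⟩ := hδ.onto (β y) (hβ.cell y hy).2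
      exact ⟨z, fun _ => ⟨hz, hz'⟩⟩
    · exact ⟨y, fun h => absurd h hy⟩
  choose r hr using hch
  have hrx : r x = v := by
    obtain ⟨h1, h2⟩ := hr x (hE.refl x)
    have h3 : δ (r x) = δ v := by rw [h2, hβ.pt, hδ.pt]
    exact (hδ.pres (r x) v h1 (hE.refl v)).1.2 h3
  refine ⟨fun y => γ (r y), ?_, ?_, ?_, ?_⟩
  · show γ (r x) = u
    rw [hrx, hγ.pt]
  · intro y hy
    obtain ⟨h1, h2⟩ := hr y hy
    obtain ⟨h3, h4⟩ := hγ.cell (r y) h1
    refine ⟨?_, h4⟩
    have h5 := (hδ.cell (r y) h1).1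
    rw [h2] at h5
    exact hT y (r y) (β y) (γ (r y)) (hβ.cell y hy).1 h5 h3
  · intro y z hy hz
    obtain ⟨hy1, hy2⟩ := hr y hy
    obtain ⟨hz1, hz2⟩ := hr z hz
    have e1 := hβ.pres y z hy hz
    have e2 := hδ.pres (r y) (r z) hy1 hz1
    have e3 := hγ.pres (r y) (r z) hy1 hz1
    rw [hy2, hz2] at e2
    exact ⟨e1.1.trans (e2.1.symm.trans e3.1), e1.2.trans (e2.2.symm.trans e3.2)⟩
  · intro u' hu'
    obtain ⟨w, hw, hw'⟩ := hγ.onto u' hu'
    obtain ⟨y, hy, hy'⟩ := hβ.onto (δ w) (hδ.cell w hw).2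
    refine ⟨y, hy, ?_⟩
    obtain ⟨h1, h2⟩ := hr y hy
    have h3 : r y = w := (hδ.pres (r y) w h1 hw).1.2 (by rw [h2, hy'])
    show γ (r y) = u'
    rw [h3, hw']

/-- The invariant on the side of `V`. -/
def inv (G : SimpleGraph V) (H : SimpleGraph W) (E : V → V → Prop) (E' : W → W → Prop)
    (T : V → W → Prop) (x : V) : Set W :=
  {u | ∃ y, E x y ∧ I G H E E' T y u}

/-- The invariant on the side of `W`. -/
def inv' (G : SimpleGraph V) (H : SimpleGraph W) (E : V → V → Prop) (E' : W → W → Prop)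
    (T : V → W → Prop) (x' : W) : Set W :=
  {u | ∃ y', E' x' y' ∧ ∃ v, I G H E E' T v y' ∧ I G H E E' T v u}

theorem inv_eq (hE : Equivalence E) (hE' : Equivalence E')
    (hT : ∀ x x1 x' x1', T x x' → T x1 x' → T x1 x1' → T x x1') {x : V} {x' : W}
    (h : I G H E E' T x x') : inv G H E E' T x = inv' G H E E' T x' := by
  obtain ⟨β, hβ⟩ := h
  ext u
  constructor
  · rintro ⟨y, hy, hu⟩
    exact ⟨β y, (hβ.cell y hy).2, y, ⟨β, hβ.move hE hE' hy⟩, hu⟩
  · rintro ⟨y', hy', v, hv, hu⟩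
    obtain ⟨y, hy, rfl⟩ := hβ.onto y' hy'
    exact ⟨y, hy, I.zig hE hT ⟨β, hβ.move hE hE' hy⟩ hv hu⟩

theorem exists_of_inv (hE' : Equivalence E') (f : V ≃ W) (hf : ∀ x, I G H E E' T x (f x))
    {x : V} {x' : W} (h : inv G H E E' T x = inv' G H E E' T x') :
    ∃ y, E x y ∧ I G H E E' T y x' := by
  have hx : x' ∈ inv' G H E E' T x' := by
    have h1 := hf (f.symm x')
    rw [f.apply_symm_apply] at h1
    exact ⟨x', hE'.refl x', f.symm x', h1, h1⟩
  rw [← h] at hx
  exact hx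

theorem card_eq {x : V} {x' : W} (h : I G H E E' T x x') :
    Nat.card {z : V // E x z} = Nat.card {z : W // E' x' z} := by
  obtain ⟨β, hβ⟩ := h
  refine Nat.card_congr (Equiv.ofBijective
    (fun z : {z : V // E x z} => (⟨β z.1, (hβ.cell z.1 z.2).2⟩ : {z : W // E' x' z})) ?_)
  constructor
  · rintro ⟨a, ha⟩ ⟨b, hb⟩ hab
    have hab' : β a = β b := congrArg Subtype.val hab
    exact Subtype.ext ((hβ.pres a b ha hb).1.2 hab')
  · rintro ⟨z', hz'⟩
    obtain ⟨y, hy, hyz⟩ := hβ.onto z' hz'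
    exact ⟨⟨y, hy⟩, Subtype.ext hyz⟩

end AsmAux

open AsmAux in
/-- **ASM2.** -/
theorem asm2 (hCBJ : StmtCBJ) : StmtASM2 := by
  intro V W _ _ G H E E' T f hE hE' hT hb hcr
  have hf : ∀ x, I G H E E' T x (f x) := by
    intro x
    obtain ⟨β, h1, h2, h3, h4⟩ := hb x
    exact ⟨β, h1, h2, h3, h4⟩
  let S : Setoid V := ⟨E, hE⟩
  let S' : Setoid W := ⟨E', hE'⟩
  obtain ⟨g, hg⟩ := hCBJ V W (Set W) S S' (inv G H E E' T) (inv' G H E E' T) f
    (fun v => (inv_eq hE hE' hT (hf v)).symm)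
    (fun x y hxy => by
      ext u'
      constructor
      · rintro ⟨z, hz, hu⟩
        exact ⟨z, hE.trans (hE.symm hxy) hz, hu⟩
      · rintro ⟨z, hz, hu⟩
        exact ⟨z, hE.trans hxy hz, hu⟩)
    (fun x y hxy => by
      ext u'
      constructor
      · rintro ⟨z, hz, hu⟩
        exact ⟨z, hE'.trans (hE'.symm hxy) hz, hu⟩
      · rintro ⟨z, hz, hu⟩
        exact ⟨z, hE'.trans hxy hz, hu⟩)
    (fun x y hxy => by
      obtain ⟨x1, hx1, ht⟩ := exists_of_inv hE' f hf hxy
      refine Eq.trans ?_ (card_eq ht)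
      refine Nat.card_congr (Equiv.subtypeEquivRight fun z => ?_)
      exact ⟨fun h => hE.trans (hE.symm hx1) h, fun h => hE.trans hx1 h⟩)
  -- choice of the cell bijections
  have hch : ∀ C : Quotient S, ∃ β : V → W, ∃ y : V, Quotient.mk S y = C ∧
      Quotient.mk S' (β y) = g C ∧ Iso G H E E' T y (β y) β := by
    intro C
    induction C using Quotient.inductionOn with
    | h x =>
      obtain ⟨x', hx'⟩ := Quotient.exists_rep (g (Quotient.mk S x))
      have hi := hg x x' hx'.symm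
      obtain ⟨y, hy, β, hβ⟩ := exists_of_inv hE' f hf hi
      refine ⟨β, y, ?_, ?_, ?_⟩
      · exact Quotient.sound (hE.symm hy)
      · rw [hβ.pt]; exact hx'
      · rw [hβ.pt]; exact hβ
  choose β y hy hβy hβ using hch
  let φ : V → W := fun x => β (Quotient.mk S x) x
  have hmem : ∀ x : V, E (y (Quotient.mk S x)) x := fun x => Quotient.exact (hy (Quotient.mk S x))
  have hφmk : ∀ x : V, Quotient.mk S' (φ x) = g (Quotient.mk S x) := by
    intro x
    rw [← hβy (Quotient.mk S x)]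
    exact Quotient.sound (hE'.symm ((hβ (Quotient.mk S x)).cell x (hmem x)).2)
  have hTφ : ∀ x : V, T x (φ x) := fun x => ((hβ (Quotient.mk S x)).cell x (hmem x)).1
  have hsame : ∀ a b : V, E a b → (a = b ↔ φ a = φ b) ∧ (G.Adj a b ↔ H.Adj (φ a) (φ b)) := by
    intro a b hab
    have hq : Quotient.mk S a = Quotient.mk S b := Quotient.sound hab
    have hb : E (y (Quotient.mk S a)) b := hE.trans (hmem a) hab
    have h1 := (hβ (Quotient.mk S a)).pres a b (hmem a) hb
    have h2 : φ b = β (Quotient.mk S a) b := by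
      show β (Quotient.mk S b) b = β (Quotient.mk S a) b
      rw [hq]
    rw [h2]
    exact h1
  have hEE : ∀ a b : V, E' (φ a) (φ b) → E a b := by
    intro a b hab
    have h1 : Quotient.mk S' (φ a) = Quotient.mk S' (φ b) := Quotient.sound hab
    rw [hφmk, hφmk] at h1
    exact Quotient.exact (g.injective h1)
  have hinj : Function.Injective φ := by
    intro a b hab
    have he : E a b := hEE a b (hab ▸ hE'.refl (φ a))
    exact (hsame a b he).1.2 hab
  have hbij : Function.Bijective φ := by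
    refine ⟨hinj, ?_⟩
    have h1 : Function.Injective (f.symm ∘ φ) := f.symm.injective.comp hinj
    have h2 : Function.Surjective (f.symm ∘ φ) := Finite.surjective_of_injective h1
    intro w
    obtain ⟨v, hv⟩ := h2 (f.symm w)
    exact ⟨v, f.symm.injective hv⟩
  refine ⟨⟨Equiv.ofBijective φ hbij, ?_⟩⟩
  intro a b
  show H.Adj (φ a) (φ b) ↔ G.Adj a b
  by_cases hab : E a b
  · exact (hsame a b hab).2.symm
  · exact (hcr a b (φ a) (φ b) (hTφ a) (hTφ b) hab (fun h => hab (hEE a b h))).symm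

end Pool.Agent.DQE
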