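import Mathlib
import Pool.Agent.BRW.St
import Pool.Agent.WLE.St
import Pool.Agent.DQE.Defs
import Pool.Agent.DQE.St

set_option autoImplicit false

/-!
# The final step (`StmtCLL`)
-/

namespace Pool.Agent.DQE

open Pool.Agent.BRW Pool.Agent.WLE

theorem cll_mono (hGAM : StmtGAM) {V W : Type} {G : SimpleGraph V} {H : SimpleGraph W}
    {r r' t : ℕ} {a : Fin t → V} {b : Fin t → W} (h : r ≤ r') (hB : Bj G H r' t a b) :
    Bj G H r t a b := by
  induction h with
  | refl => exact hB
  | step _ ih => exact ih (hGAM.1 V W G H _ _ _ _ hB)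

theorem cll_at (hGAM : StmtGAM) {V W : Type} {G : SimpleGraph V} {H : SimpleGraph W}
    {r t : ℕ} {a : Fin t → V} {b : Fin t → W} (hB : Bj G H r t a b) (i j : Fin t) :
    (a i = a j ↔ b i = b j) ∧ (G.Adj (a i) (a j) ↔ H.Adj (b i) (b j)) := by
  have h : Bj G H 0 t a b := cll_mono hGAM (Nat.zero_le r) hB
  exact h i j

/-- Several rounds. -/
theorem cll_play {V W : Type} {G : SimpleGraph V} {H : SimpleGraph W} {m : ℕ}
    {s : Fin m → V} {s' : Fin m → W} : ∀ (n j : ℕ) (y : Fin n → V), Bj G H (j + n) m s s' →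
      ∃ y' : Fin n → W, Bj G H j (m + n) (Fin.append s y) (Fin.append s' y') := by
  intro n
  induction n with
  | zero =>
    intro j y h
    refine ⟨fun i => i.elim0, ?_⟩
    have e1 : Fin.append s y = s := by
      funext i
      exact Fin.append_left s y i
    have e2 : Fin.append s' (fun i : Fin 0 => i.elim0) = s' := by
      funext i
      exact Fin.append_left s' _ i
    rw [e1, e2]
    exact h
  | succ n ih =>
    intro j y h
    have h' : Bj G H ((j + 1) + n) m s s' := by
      have e : j + (n + 1) = j + 1 + n := by omega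
      rw [e] at h
      exact h
    obtain ⟨y1, h1⟩ := ih (j + 1) (fun i => y i.castSucc) h'
    obtain ⟨-, f, hf⟩ := h1
    refine ⟨Fin.snoc (α := fun _ => W) y1 (f (y (Fin.last n))), ?_⟩
    have h2 := hf (y (Fin.last n))
    have e1 : Fin.append s y =
        sn (Fin.append s (fun i => y i.castSucc)) (y (Fin.last n)) :=
      (congrArg (Fin.append s) (Fin.snoc_init_self (α := fun _ => V) y)).symm.trans
        (Fin.append_snoc s _ _)
    have e2 : Fin.append s' (Fin.snoc (α := fun _ => W) y1 (f (y (Fin.last n)))) =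
        sn (Fin.append s' y1) (f (y (Fin.last n))) := Fin.append_snoc s' _ _
    rw [e1, e2]
    exact h2

/-- Reindexing. -/
theorem cll_re (hGAM : StmtGAM) {V W : Type} {G : SimpleGraph V} {H : SimpleGraph W}
    {r N t : ℕ} {A : Fin N → V} {B : Fin N → W} (hB : Bj G H r N A B) (τ : Fin t → Fin N)
    (p : Fin N) {a : Fin t → V} {b : Fin t → W} {z : V} {z' : W} (ha : ∀ i, A (τ i) = a i)
    (hb : ∀ i, B (τ i) = b i) (hz : A p = z) (hz' : B p = z') :
    Bj G H r (t + 1) (sn a z) (sn b z') := by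
  have h := hGAM.2.1 V W G H r N (t + 1) A B (Fin.snoc (α := fun _ => Fin N) τ p) hB
  have e1 : (fun i => A (Fin.snoc (α := fun _ => Fin N) τ p i)) = sn a z := by
    funext i
    refine Fin.lastCases ?_ (fun j => ?_) i
    · rw [Fin.snoc_last, sn, Fin.snoc_last]
      exact hz
    · rw [Fin.snoc_castSucc, sn, Fin.snoc_castSucc]
      exact ha j
  have e2 : (fun i => B (Fin.snoc (α := fun _ => Fin N) τ p i)) = sn b z' := by
    funext i
    refine Fin.lastCases ?_ (fun j => ?_) i
    · rw [Fin.snoc_last, sn, Fin.snoc_last]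
      exact hz'
    · rw [Fin.snoc_castSucc, sn, Fin.snoc_castSucc]
      exact hb j
  rw [e1, e2] at h
  exact h

theorem cll_symm {V : Type} {X : V → V → Prop} (h : ∀ u v, X u v → X v u) {x y : V}
    (hxy : Relation.ReflTransGen X x y) : Relation.ReflTransGen X y x := by
  induction hxy with
  | refl => exact Relation.ReflTransGen.refl
  | tail _ h2 ih => exact Relation.ReflTransGen.head (h _ _ h2) ih

theorem cll (hGAM : StmtGAM) (hTCP : StmtTCP) (hASM : StmtASM2) : StmtCLL := by
  intro V _ G t q L a D hDs hDi hL W _ H h0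
  classical
  have h0' : Bj G H ((q + L + 3) + t) 0 (fun i => i.elim0) (fun i => i.elim0) := by
    have e : t + q + L + 3 = q + L + 3 + t := by omega
    rw [e] at h0
    exact h0
  obtain ⟨b, hb0⟩ := cll_play t (q + L + 3) a h0'
  have hb : Bj G H (q + L + 3) t a b := by
    have h1 := hGAM.2.1 V W G H _ _ t _ _ (fun i => Fin.natAdd 0 i) hb0
    simpa only [Fin.append_right] using h1
  obtain ⟨-, f, hf⟩ := hb
  -- colours
  obtain ⟨T, hT⟩ : ∃ T : V → W → Prop,
      ∀ x x', T x x' ↔ Bj G H q (t + 1) (sn a x) (sn b x') := ⟨_, fun _ _ => Iff.rfl⟩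
  have hTf : ∀ x, T x (f x) := fun x => (hT _ _).2 (cll_mono hGAM (by omega) (hf x))
  have hTT0 : ∀ x x' y, T x x' → T y x' → Bj G G q (t + 1) (sn a x) (sn a y) := by
    intro x x' y h1 h2
    exact hGAM.2.2.2.2 V W V G H G q (t + 1) _ _ _ ((hT _ _).1 h1)
      (hGAM.2.2.2.1 V W G H q (t + 1) _ _ ((hT _ _).1 h2))
  have hTT : ∀ x x' y, T x x' → T y x' → tc G q t a x x = tc G q t a y y := by
    intro x x' y h1 h2
    exact ((hTCP V G q t a).2.2.2.2.1 x y).2 (hTT0 x x' y h1 h2)
  have hT3 : ∀ x x' x1 x1', T x x' → T x1 x' → T x1 x1' → T x x1' := by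
    intro x x' x1 x1' h1 h2 h3
    exact (hT _ _).2 (hGAM.2.2.2.2 V V W G G H q (t + 1) _ _ _ (hTT0 x x' x1 h1 h2)
      ((hT _ _).1 h3))
  -- the second graph on W
  obtain ⟨D', hD'0⟩ : ∃ D' : W → W → Prop,
      ∀ x' y', D' x' y' ↔ ∃ x y, T x x' ∧ T y y' ∧ D x y := ⟨_, fun _ _ => Iff.rfl⟩
  have hD' : ∀ x x' y y', T x x' → T y y' → (D' x' y' ↔ D x y) := by
    intro x x' y y' hx hy
    rw [hD'0]
    constructor
    · rintro ⟨x1, y1, hx1, hy1, hd⟩
      exact (hDi x1 y1 x y (hTT x1 x' x hx1 hx) (hTT y1 y' y hy1 hy)).1 hd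
    · intro hd
      exact ⟨x, y, hx, hy, hd⟩
  have hD's : ∀ x' y', D' x' y' → D' y' x' := by
    intro x' y' h
    rw [hD'0] at h ⊢
    obtain ⟨x, y, hx, hy, hd⟩ := h
    exact ⟨y, x, hy, hx, hDs _ _ hd⟩
  obtain ⟨X, hX⟩ : ∃ X : V → V → Prop, X = fun u v => u ≠ v ∧ ¬ (G.Adj u v ↔ D u v) :=
    ⟨_, rfl⟩
  obtain ⟨X', hX'⟩ : ∃ X' : W → W → Prop, X' = fun u v => u ≠ v ∧ ¬ (H.Adj u v ↔ D' u v) :=
    ⟨_, rfl⟩
  have hXs : ∀ u v, X u v → X v u := by
    intro u v h
    rw [hX] at h ⊢
    refine ⟨fun e => h.1 e.symm, fun hi => h.2 ?_⟩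
    rw [G.adj_comm u v, hi]
    exact ⟨hDs _ _, hDs _ _⟩
  have hX's : ∀ u v, X' u v → X' v u := by
    intro u v h
    rw [hX'] at h ⊢
    refine ⟨fun e => h.1 e.symm, fun hi => h.2 ?_⟩
    rw [H.adj_comm u v, hi]
    exact ⟨hD's _ _, hD's _ _⟩
  rw [← hX] at hL
  have hE : Equivalence (Relation.ReflTransGen X) :=
    ⟨fun _ => Relation.ReflTransGen.refl,
      fun h => cll_symm hXs h,
      fun h1 h2 => h1.trans h2⟩
  have hE' : Equivalence (Relation.ReflTransGen X') :=
    ⟨fun _ => Relation.ReflTransGen.refl,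
      fun h => cll_symm hX's h,
      fun h1 h2 => h1.trans h2⟩
  -- X and X' correspond
  have hXX : ∀ u u' v v', T u u' → T v v' → (u = v ↔ u' = v') →
      (G.Adj u v ↔ H.Adj u' v') → (X u v ↔ X' u' v') := by
    intro u u' v v' hu hv h1 h2
    rw [hX, hX']
    show (u ≠ v ∧ ¬ (G.Adj u v ↔ D u v)) ↔ (u' ≠ v' ∧ ¬ (H.Adj u' v' ↔ D' u' v'))
    rw [hD' u u' v v' hu hv, ne_eq, ne_eq, h1, h2]
  refine hASM V W G H (Relation.ReflTransGen X) (Relation.ReflTransGen X') T f hE hE'
    (fun x x1 x' x1' => hT3 x x' x1 x1')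
    ?_ ?_
  · intro x
    obtain ⟨n, hn⟩ : ∃ n, n = Nat.card {y : V // Relation.ReflTransGen X x y} := ⟨_, rfl⟩
    have hnL : n ≤ L := by
      rw [hn]
      exact hL x
    have e : Fin n ≃ {y : V // Relation.ReflTransGen X x y} := by
      rw [hn]
      exact (Finite.equivFin _).symm
    obtain ⟨y', hP0⟩ := cll_play n (q + L + 2 - n) (fun i => (e i).1) (by
      have e2 : q + L + 2 - n + n = q + L + 2 := by omega
      rw [e2]
      exact hf x)
    have hP : Bj G H (q + 1 + 1) (t + 1 + n) (Fin.append (sn a x) fun i => (e i).1)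
        (Fin.append (sn b (f x)) y') := cll_mono hGAM (by omega) hP0
    have hyT : ∀ i, T (e i).1 (y' i) := by
      intro i
      refine (hT _ _).2 (cll_mono hGAM (r' := q + 1 + 1) (by omega) (cll_re hGAM hP
        (fun i => Fin.castAdd n i.castSucc) (Fin.natAdd (t + 1) i) ?_ ?_ ?_ ?_))
      · intro j
        rw [Fin.append_left, sn, Fin.snoc_castSucc]
      · intro j
        rw [Fin.append_left, sn, Fin.snoc_castSucc]
      · rw [Fin.append_right]
      · rw [Fin.append_right]
    have hat : ∀ i j, ((e i).1 = (e j).1 ↔ y' i = y' j) ∧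
        (G.Adj (e i).1 (e j).1 ↔ H.Adj (y' i) (y' j)) := by
      intro i j
      have h := cll_at hGAM hP (Fin.natAdd (t + 1) i) (Fin.natAdd (t + 1) j)
      simpa only [Fin.append_right] using h
    have hxx : ∀ i, (e i).1 = x → y' i = f x := by
      intro i hi
      have h := (cll_at hGAM hP (Fin.natAdd (t + 1) i) (Fin.castAdd n (Fin.last t))).1
      rw [Fin.append_right, Fin.append_right, Fin.append_left, Fin.append_left, sn, sn,
        Fin.snoc_last, Fin.snoc_last] at h
      exact h.1 hi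
    have hgo : ∀ z, Relation.ReflTransGen X x z → ∃ i, (e i).1 = z := by
      intro z hz
      exact ⟨e.symm ⟨z, hz⟩, by simp⟩
    obtain ⟨β, hβ⟩ : ∃ β : V → W, ∀ i, β (e i).1 = y' i := by
      refine ⟨fun z => if h : Relation.ReflTransGen X x z then y' (e.symm ⟨z, h⟩) else f x, ?_⟩
      intro i
      have h : Relation.ReflTransGen X x (e i).1 := (e i).2
      simp only [h, dite_true]
      have h2 : e.symm ⟨(e i).1, h⟩ = i := by
        rw [Equiv.symm_apply_eq]
      rw [h2]
    have hβx : β x = f x := by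
      obtain ⟨i, hi⟩ := hgo x Relation.ReflTransGen.refl
      have h1 := hβ i
      rw [hi] at h1
      rw [h1]
      exact hxx i hi
    refine ⟨β, hβx, ?_, ?_, ?_⟩
    · intro z hz
      refine ⟨?_, ?_⟩
      · obtain ⟨i, hi⟩ := hgo z hz
        rw [← hi, hβ]
        exact hyT i
      · induction hz with
        | refl =>
          rw [hβx]
        | tail h1 h2 ih =>
          refine ih.tail ?_
          obtain ⟨i, hi⟩ := hgo _ h1
          obtain ⟨j, hj⟩ := hgo _ (h1.tail h2)
          rw [← hi, ← hj] at h2 ⊢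
          rw [hβ, hβ]
          exact (hXX _ _ _ _ (hyT i) (hyT j) (hat i j).1 (hat i j).2).1 h2
    · intro y z hy hz
      obtain ⟨i, hi⟩ := hgo y hy
      obtain ⟨j, hj⟩ := hgo z hz
      rw [← hi, ← hj, hβ, hβ]
      exact hat i j
    · intro w hw
      induction hw with
      | refl => exact ⟨x, Relation.ReflTransGen.refl, hβx⟩
      | @tail u w h1 h2 ih =>
        obtain ⟨y, hy, hyu⟩ := ih
        obtain ⟨i, hi⟩ := hgo y hy
        have hiu : y' i = u := by
          rw [← hβ i, hi]
          exact hyu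
        obtain ⟨-, g, hg⟩ := hP
        have hgz := hg (g.symm w)
        rw [Equiv.apply_symm_apply] at hgz
        obtain ⟨z, hz⟩ : ∃ z, z = g.symm w := ⟨_, rfl⟩
        rw [← hz] at hgz
        have hTz : T z w := by
          refine (hT _ _).2 (cll_mono hGAM (r' := q + 1) (by omega) (cll_re hGAM hgz
            (fun i => (Fin.castAdd n i.castSucc).castSucc) (Fin.last _) ?_ ?_ ?_ ?_))
          · intro j
            rw [sn, Fin.snoc_castSucc, Fin.append_left, sn, Fin.snoc_castSucc]
          · intro j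
            rw [sn, Fin.snoc_castSucc, Fin.append_left, sn, Fin.snoc_castSucc]
          · rw [sn, Fin.snoc_last]
          · rw [sn, Fin.snoc_last]
        have hat2 : ∀ j, ((e j).1 = z ↔ y' j = w) ∧ (G.Adj (e j).1 z ↔ H.Adj (y' j) w) := by
          intro j
          have h := cll_at hGAM hgz (Fin.natAdd (t + 1) j).castSucc (Fin.last _)
          simp only [sn, Fin.snoc_castSucc, Fin.snoc_last, Fin.append_right] at h
          exact h
        have hXz : X (e i).1 z := by
          rw [← hiu] at h2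
          exact (hXX _ _ _ _ (hyT i) hTz (hat2 i).1 (hat2 i).2).2 h2
        have hEz : Relation.ReflTransGen X x z := (e i).2.tail hXz
        obtain ⟨j, hj⟩ := hgo z hEz
        refine ⟨z, hEz, ?_⟩
        rw [← hj, hβ]
        exact (hat2 j).1.1 hj
  · intro x z x' z' hx hz hxz hxz'
    have h1 : G.Adj x z ↔ D x z := by
      by_contra hc
      apply hxz
      refine Relation.ReflTransGen.single ?_
      rw [hX]
      exact ⟨fun h => hxz (h ▸ Relation.ReflTransGen.refl), hc⟩
    have h2 : H.Adj x' z' ↔ D' x' z' := by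
      by_contra hc
      apply hxz'
      refine Relation.ReflTransGen.single ?_
      rw [hX']
      exact ⟨fun h => hxz' (h ▸ Relation.ReflTransGen.refl), hc⟩
    rw [h1, h2, hD' x x' z z' hx hz]

end Pool.Agent.DQE
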