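import Mathlib
import Pool.Agent.DQE.St

set_option autoImplicit false

/-!
# Module DG1, case (i): large fibres (helper79, for helper92)
-/

namespace Pool.Agent.DQE

open Pool.Agent.BRW Pool.Agent.WLE

open Classical in
lemma DG1.up {V : Type} [Fintype V] (F F' : Finset V) (R : V → V → Prop) (Z : V → Finset V)
    (D : ℕ) (hZ : ∀ x, (Z x).card ≤ D)
    (h : ∀ u ∈ F, ∀ w ∈ F', u ≠ w → R u w → w ∈ Z u) :
    (Finset.univ.filter (fun p : V × V => p.1 ∈ F ∧ p.2 ∈ F' ∧ p.1 ≠ p.2 ∧ R p.1 p.2)).card ≤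
      F.card * D := by
  rw [Finset.card_eq_sum_card_fiberwise (f := Prod.fst) (t := F)
    (fun p hp => (Finset.mem_filter.1 hp).2.1)]
  refine (Finset.sum_le_card_nsmul _ _ D fun u hu => ?_).trans (by rw [smul_eq_mul])
  refine le_trans (Finset.card_le_card_of_injOn Prod.snd (t := Z u) ?_ ?_) (hZ u)
  · intro p hp
    obtain ⟨h1, h2⟩ := Finset.mem_filter.1 hp
    obtain ⟨-, h3, h4, h5, h6⟩ := Finset.mem_filter.1 h1
    rw [h2] at h5 h6
    exact h u hu p.2 h4 h5 h6
  · intro p hp q hq hpq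
    have h1 := (Finset.mem_filter.1 hp).2
    have h2 := (Finset.mem_filter.1 hq).2
    exact Prod.ext (h1.trans h2.symm) hpq

open Classical in
lemma DG1.lo {V : Type} [Fintype V] (F F' : Finset V) (R : V → V → Prop) (Z : V → Finset V)
    (D : ℕ) (hZ : ∀ x, (Z x).card ≤ D)
    (h : ∀ u ∈ F, ∀ w ∈ F', w ∉ Z u → u ≠ w → R u w) :
    F.card * F'.card ≤
      (Finset.univ.filter (fun p : V × V => p.1 ∈ F ∧ p.2 ∈ F' ∧ p.1 ≠ p.2 ∧ R p.1 p.2)).card +
        F.card * (D + 1) := by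
  rw [Finset.card_eq_sum_card_fiberwise (f := Prod.fst) (t := F)
    (fun p hp => (Finset.mem_filter.1 hp).2.1)]
  have h1 : F.card * (D + 1) = ∑ _u ∈ F, (D + 1) := by rw [Finset.sum_const, smul_eq_mul]
  have h2 : F.card * F'.card = ∑ _u ∈ F, F'.card := by rw [Finset.sum_const, smul_eq_mul]
  rw [h1, h2, ← Finset.sum_add_distrib]
  refine Finset.sum_le_sum fun u hu => ?_
  have hsub : F' ⊆ ((Finset.univ.filter (fun p : V × V => p.1 ∈ F ∧ p.2 ∈ F' ∧ p.1 ≠ p.2 ∧
      R p.1 p.2)).filter (fun p => p.1 = u)).image Prod.snd ∪ (Z u ∪ {u}) := by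
    intro w hw
    rw [Finset.mem_union, Finset.mem_union, Finset.mem_singleton]
    by_cases h3 : w ∈ Z u
    · exact Or.inr (Or.inl h3)
    by_cases h4 : u = w
    · exact Or.inr (Or.inr h4.symm)
    · left
      refine Finset.mem_image.2 ⟨(u, w), Finset.mem_filter.2 ⟨Finset.mem_filter.2
        ⟨Finset.mem_univ _, hu, hw, h4, h u hu w hw h3 h4⟩, rfl⟩, rfl⟩
  refine (Finset.card_le_card hsub).trans ((Finset.card_union_le _ _).trans ?_)
  refine Nat.add_le_add Finset.card_image_le ((Finset.card_union_le _ _).trans ?_)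
  have := hZ u
  simp only [Finset.card_singleton]
  omega

open Classical in
lemma DG1.cardp {V κ' : Type} [Fintype V] (c' : V → V → κ') (x y : V) (F F' : Finset V)
    (R : V → V → Prop) (mF : ∀ z, z ∈ F ↔ c' z z = c' x x) (mF' : ∀ z, z ∈ F' ↔ c' z z = c' y y) :
    Nat.card {p : V × V // c' p.1 p.1 = c' x x ∧ c' p.2 p.2 = c' y y ∧ p.1 ≠ p.2 ∧ R p.1 p.2} =
      (Finset.univ.filter (fun p : V × V => p.1 ∈ F ∧ p.2 ∈ F' ∧ p.1 ≠ p.2 ∧ R p.1 p.2)).card := by
  rw [Nat.card_eq_fintype_card, Fintype.card_subtype]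
  congr 1
  ext p
  simp only [Finset.mem_filter, Finset.mem_univ, true_and, mF, mF']

open Classical in
/-- case (i) -/
theorem DG1.caseI {V κ κ' : Type} [Fintype V] (G : SimpleGraph V) (c : V → V → κ)
    (c' : V → V → κ') (D : ℕ) (hc : CS c) (hs : Stp c' c) (hA : Inv c G.Adj) (Z : V → Finset V)
    (hZ : ∀ x, (Z x).card ≤ D)
    (hZ2 : ∀ (x : V) (i : κ), (∀ y, c y y = i → (y ∈ Z x ↔ G.Adj x y)) ∨
      (∀ y, c y y = i → (y ∈ Z x ↔ ¬ G.Adj x y)))
    (x y : V) (hb : 4 * D + 4 ≤ Nat.card {z : V // c' z z = c' y y}) (hE : Ex G c' x y) :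
    y ∈ Z x := by
  have hb' : 4 * D + 4 ≤ (Finset.univ.filter (fun z : V => c' z z = c' y y)).card := by
    rwa [Nat.card_eq_fintype_card, Fintype.card_subtype] at hb
  have hb0 : 4 * D + 4 ≤ (Finset.univ.filter (fun z : V => c z z = c y y)).card := by
    refine hb'.trans (Finset.card_le_card fun z hz => ?_)
    rw [Finset.mem_filter] at hz ⊢
    exact ⟨hz.1, hs.1 _ _ _ _ hz.2⟩
  -- the two alternatives exclude each other
  have hexc : ∀ u v : V, c' u u = c' v v → (∀ w, c w w = c y y → (w ∈ Z u ↔ G.Adj u w)) →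
      (∀ w, c w w = c y y → (w ∈ Z v ↔ ¬ G.Adj v w)) → False := by
    intro u v huv hu hv
    obtain ⟨e, he⟩ := hs.2 u u v v huv
    have hsub : Finset.univ.filter (fun z : V => c z z = c y y) ⊆ Z u ∪ (Z v).image e.symm := by
      intro w hw
      have hw1 : c w w = c y y := (Finset.mem_filter.1 hw).2
      rw [Finset.mem_union]
      by_cases h1 : G.Adj u w
      · exact Or.inl ((hu w hw1).2 h1)
      · right
        have h2 := (he w).1
        have h3 := (hc.val _ _ _ _ h2).2.1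
        have h4 : ¬ G.Adj v (e w) := fun h5 => h1 ((hA _ _ _ _ h2).2 h5)
        exact Finset.mem_image.2 ⟨e w, (hv (e w) (h3.symm.trans hw1)).2 h4, e.symm_apply_apply w⟩
    have h1 := (Finset.card_le_card hsub).trans (Finset.card_union_le _ _)
    have h2 : ((Z v).image e.symm).card ≤ (Z v).card := Finset.card_image_le
    have h3 := hZ u
    have h4 := hZ v
    omega
  obtain ⟨F, hF⟩ : ∃ F : Finset V, F = Finset.univ.filter (fun z : V => c' z z = c' x x) := ⟨_, rfl⟩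
  obtain ⟨F', hF'⟩ : ∃ F' : Finset V, F' = Finset.univ.filter (fun z : V => c' z z = c' y y) :=
    ⟨_, rfl⟩
  have mF : ∀ z, z ∈ F ↔ c' z z = c' x x := fun z => by
    rw [hF, Finset.mem_filter]
    exact ⟨fun h => h.2, fun h => ⟨Finset.mem_univ _, h⟩⟩
  have mF' : ∀ z, z ∈ F' ↔ c' z z = c' y y := fun z => by
    rw [hF', Finset.mem_filter]
    exact ⟨fun h => h.2, fun h => ⟨Finset.mem_univ _, h⟩⟩
  have hFpos : 1 ≤ F.card := Finset.card_pos.2 ⟨x, (mF x).2 rfl⟩
  rw [← hF'] at hb'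
  have hpa := DG1.cardp c' x y F F' (fun u w => G.Adj u w) mF mF'
  have hpb := DG1.cardp c' x y F F' (fun u w => ¬ G.Adj u w) mF mF'
  have hF0 : ∀ w ∈ F', c w w = c y y := fun w hw => hs.1 _ _ _ _ ((mF' w).1 hw)
  have hmul : F.card * (4 * D + 4) ≤ F.card * F'.card := Nat.mul_le_mul_left _ hb'
  by_cases hP : ∃ u ∈ F, ∀ w, c w w = c y y → (w ∈ Z u ↔ G.Adj u w)
  · have hall : ∀ v ∈ F, ∀ w, c w w = c y y → (w ∈ Z v ↔ G.Adj v w) := by
      intro v hv
      obtain ⟨u, hu, h1⟩ := hP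
      rcases hZ2 v (c y y) with h2 | h2
      · exact h2
      · exact (hexc u v (((mF u).1 hu).trans ((mF v).1 hv).symm) h1 h2).elim
    have h1 := DG1.up F F' (fun u w => G.Adj u w) Z D hZ
      (fun u hu w hw _ hR => (hall u hu w (hF0 w hw)).2 hR)
    have h2 := DG1.lo F F' (fun u w => ¬ G.Adj u w) Z D hZ
      (fun u hu w hw hn _ hR => hn ((hall u hu w (hF0 w hw)).2 hR))
    have h1' : pa G c' x y ≤ F.card * D := hpa.le.trans h1
    have h2' : F.card * F'.card ≤ pb G c' x y + F.card * (D + 1) :=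
      h2.trans (Nat.add_le_add_right hpb.ge _)
    have h3 : pa G c' x y ≤ pb G c' x y := by nlinarith
    rcases hE.2 with ⟨_, h5⟩ | ⟨h4, _⟩
    · exact (hall x ((mF x).2 rfl) y rfl).2 h5
    · omega
  · have hall : ∀ v ∈ F, ∀ w, c w w = c y y → (w ∈ Z v ↔ ¬ G.Adj v w) := by
      intro v hv
      rcases hZ2 v (c y y) with h2 | h2
      · exact (hP ⟨v, hv, h2⟩).elim
      · exact h2
    have h1 := DG1.up F F' (fun u w => ¬ G.Adj u w) Z D hZ
      (fun u hu w hw _ hR => (hall u hu w (hF0 w hw)).2 hR)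
    have h2 := DG1.lo F F' (fun u w => G.Adj u w) Z D hZ
      (fun u hu w hw hn _ => by
        by_contra hR
        exact hn ((hall u hu w (hF0 w hw)).2 hR))
    have h1' : pb G c' x y ≤ F.card * D := hpb.le.trans h1
    have h2' : F.card * F'.card ≤ pa G c' x y + F.card * (D + 1) :=
      h2.trans (Nat.add_le_add_right hpa.ge _)
    have h3 : pb G c' x y < pa G c' x y := by nlinarith
    rcases hE.2 with ⟨h4, _⟩ | ⟨_, h5⟩
    · omega
    · exact (hall x ((mF x).2 rfl) y rfl).2 h5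

end Pool.Agent.DQE
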