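import Mathlib
import Pool.Agent.DQE.St

set_option autoImplicit false

/-! DQE: module DG1, symmetry and invariance of the exceptional pairs. -/

namespace Pool.Agent.DQE

open Pool.Agent.BRW Pool.Agent.WLE

theorem dg1_pa_swap {V κ : Type} (G : SimpleGraph V) (c : V → V → κ) (x y : V) :
    pa G c x y = pa G c y x := by
  unfold pa
  exact Nat.card_congr
    ⟨fun p => ⟨(p.1.2, p.1.1), p.2.2.1, p.2.1, p.2.2.2.1.symm, p.2.2.2.2.symm⟩,
      fun p => ⟨(p.1.2, p.1.1), p.2.2.1, p.2.1, p.2.2.2.1.symm, p.2.2.2.2.symm⟩,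
      fun p => rfl, fun p => rfl⟩

theorem dg1_pb_swap {V κ : Type} (G : SimpleGraph V) (c : V → V → κ) (x y : V) :
    pb G c x y = pb G c y x := by
  unfold pb
  exact Nat.card_congr
    ⟨fun p => ⟨(p.1.2, p.1.1), p.2.2.1, p.2.1, p.2.2.2.1.symm, fun h => p.2.2.2.2 h.symm⟩,
      fun p => ⟨(p.1.2, p.1.1), p.2.2.1, p.2.1, p.2.2.2.1.symm, fun h => p.2.2.2.2 h.symm⟩,
      fun p => rfl, fun p => rfl⟩

theorem dg1_symm {V κ : Type} (G : SimpleGraph V) (c : V → V → κ) (x y : V)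
    (h : Ex G c x y) : Ex G c y x := by
  obtain ⟨hne, h⟩ := h
  refine ⟨hne.symm, ?_⟩
  rw [dg1_pa_swap G c y x, dg1_pb_swap G c y x]
  rcases h with ⟨h1, h2⟩ | ⟨h1, h2⟩
  · exact Or.inl ⟨h1, h2.symm⟩
  · exact Or.inr ⟨h1, fun h => h2 h.symm⟩

theorem dg1_inv {V κ κ' : Type} (G : SimpleGraph V) (c : V → V → κ) (c' : V → V → κ')
    (hc' : CS c') (hR : Ref c' c) (hI : Inv c G.Adj) : Inv c' (Ex G c') := by
  have key : ∀ x y x' y', c' x y = c' x' y' → Ex G c' x y → Ex G c' x' y' := by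
    intro x y x' y' h ⟨hne, hE⟩
    obtain ⟨h1, h2, h3⟩ := hc'.val x y x' y' h
    have ha : pa G c' x y = pa G c' x' y' := by unfold pa; rw [h1, h2]
    have hb : pb G c' x y = pb G c' x' y' := by unfold pb; rw [h1, h2]
    have hadj : G.Adj x y ↔ G.Adj x' y' := hI x y x' y' (hR x y x' y' h)
    refine ⟨?_, ?_⟩
    · rintro rfl
      exact hne (hc'.diag x' x y h.symm)
    · rw [← ha, ← hb, ← hadj]
      exact hE
  intro x y x' y' h
  exact ⟨key x y x' y' h, key x' y' x y h.symm⟩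

theorem dg1_12 (V κ κ' : Type) [Fintype V] (G : SimpleGraph V) (c : V → V → κ)
    (c' : V → V → κ') (_hc : CS c) (hc' : CS c') (hs : Stp c' c) (hA : Inv c G.Adj) :
    (∀ x y, Ex G c' x y → Ex G c' y x) ∧ Inv c' (Ex G c') :=
  ⟨fun x y => dg1_symm G c' x y, dg1_inv G c c' hc' hs.1 hA⟩

end Pool.Agent.DQE
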