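import Mathlib
import Pool.Agent.DQE.St
import Pool.Agent.DQE.MDg1a
import Pool.Agent.DQE.MDg1b

set_option autoImplicit false

/-!
# Module DG1: the exceptional pairs have bounded degree (helper79, helper62, for helper92)
-/

namespace Pool.Agent.DQE

open Pool.Agent.BRW Pool.Agent.WLE

/-- no exceptional pair in a fibre on which the row is constant -/
lemma DG1.caseIII {V κ κ' : Type} [Fintype V] (G : SimpleGraph V) (c : V → V → κ)
    (c' : V → V → κ') (hc : CS c) (hs : Stp c' c) (hA : Inv c G.Adj) (x y : V)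
    (hconst : ∀ z, c z z = c y y → c' x z = c' x y) (hE : Ex G c' x y) : False := by
  have key : ∀ u v : V, c' u u = c' x x → c' v v = c' y y → (G.Adj u v ↔ G.Adj x y) := by
    intro u v hu hv
    obtain ⟨e, he⟩ := hs.2 x x u u hu.symm
    have h1 := (he (e.symm v)).1
    rw [Equiv.apply_symm_apply] at h1
    have h2 := (hc.val _ _ _ _ h1).2.1
    have h3 : c v v = c y y := hs.1 _ _ _ _ hv
    have h4 := hconst (e.symm v) (h2.trans h3)
    have h5 : c x (e.symm v) = c x y := hs.1 _ _ _ _ h4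
    exact hA _ _ _ _ (h1.symm.trans h5)
  obtain ⟨hne, ⟨h1, h2⟩ | ⟨h1, h2⟩⟩ := hE
  · have h3 : pb G c' x y = 0 := by
      unfold pb
      rw [Nat.card_eq_zero]
      left
      refine ⟨fun p => p.2.2.2.2 ((key _ _ p.2.1 p.2.2.1).2 h2)⟩
    have h4 : 0 < pa G c' x y := by
      unfold pa
      haveI : Nonempty {p : V × V // c' p.1 p.1 = c' x x ∧ c' p.2 p.2 = c' y y ∧ p.1 ≠ p.2 ∧
        G.Adj p.1 p.2} := ⟨⟨(x, y), rfl, rfl, hne, h2⟩⟩
      exact Nat.card_pos
    omega
  · have h3 : pa G c' x y = 0 := by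
      unfold pa
      rw [Nat.card_eq_zero]
      left
      refine ⟨fun p => h2 ((key _ _ p.2.1 p.2.2.1).1 p.2.2.2.2)⟩
    omega

open Classical in
/-- the count, from the cases -/
lemma DG1.count {V κ κ' : Type} [Fintype V] (G : SimpleGraph V) (c : V → V → κ)
    (c' : V → V → κ') (K : ℕ) (hK : 1 ≤ K) (hTCH : StmtTCH) (hc : CS c) (hc' : CS c')
    (hs : Stp c' c) (hA : Inv c G.Adj) (x : V)
    (hN : Num (c' x) Finset.univ < Num (fib c) Finset.univ + K) (Z : Finset V)
    (hZ : Z.card ≤ 4 * K ^ 2)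
    (hI : ∀ y, 4 * (4 * K ^ 2) + 4 ≤ Nat.card {z : V // c' z z = c' y y} → Ex G c' x y → y ∈ Z) :
    Nat.card {y : V // Ex G c' x y} ≤ 100 * K ^ 3 := by
  obtain ⟨B, hB⟩ : ∃ B, B = 4 * (4 * K ^ 2) + 4 := ⟨_, rfl⟩
  have hrow : ∀ y y', c' x y = c' x y' → fib c' y = fib c' y' := fun y y' h =>
    (hc'.val _ _ _ _ h).2.1
  have hfib : ∀ y y', fib c' y = fib c' y' → fib c y = fib c y' := fun y y' h =>
    hs.1 _ _ _ _ h
  -- (ii)
  let J2 : Finset κ' := (Finset.univ.image (fib c')).filter (fun j => ∃ y ∈ (Finset.univ : Finset V),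
    ∃ y' ∈ (Finset.univ : Finset V), fib c' y = j ∧ fib c y' = fib c y ∧ fib c' y' ≠ j)
  have hNum : Num (fib c') Finset.univ ≤ Num (c' x) Finset.univ := by
    have h1 := (hTCH V κ' κ' (c' x) (fib c') Finset.univ hrow).1
    omega
  have hJ2 : J2.card ≤ 2 * K := by
    have h1 : J2.card + 2 * Num (fib c) Finset.univ ≤ 2 * Num (fib c') Finset.univ :=
      (hTCH V κ κ' (fib c') (fib c) Finset.univ hfib).2
    omega
  -- (iii)
  let J3 : Finset κ := (Finset.univ.image (fib c)).filter (fun i => ∃ y ∈ (Finset.univ : Finset V),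
    ∃ y' ∈ (Finset.univ : Finset V), fib c y = i ∧ fib c y' = i ∧ c' x y ≠ c' x y')
  have hJ3 : J3.card ≤ K := by
    have h1 : J3.card + Num (fib c) Finset.univ ≤ Num (c' x) Finset.univ :=
      (hTCH V κ κ' (c' x) (fib c) Finset.univ (fun y y' h => hfib _ _ (hrow _ _ h))).1
    omega
  let S2 : Finset V := J2.biUnion (fun j =>
    if (Finset.univ.filter (fun z : V => c' z z = j)).card ≤ B then
      Finset.univ.filter (fun z : V => c' z z = j) else ∅)
  let S3 : Finset V := J3.biUnion (fun i =>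
    if (Finset.univ.filter (fun z : V => c z z = i)).card ≤ B then
      Finset.univ.filter (fun z : V => c z z = i) else ∅)
  have hS2 : S2.card ≤ 2 * K * B := by
    refine (Finset.card_biUnion_le_card_mul _ _ B fun j _ => ?_).trans
      (Nat.mul_le_mul_right B hJ2)
    split_ifs with h
    · exact h
    · simp
  have hS3 : S3.card ≤ K * B := by
    refine (Finset.card_biUnion_le_card_mul _ _ B fun j _ => ?_).trans
      (Nat.mul_le_mul_right B hJ3)
    split_ifs with h
    · exact h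
    · simp
  have hcard : ∀ y, Nat.card {z : V // c' z z = c' y y} =
      (Finset.univ.filter (fun z : V => c' z z = c' y y)).card := by
    intro y
    rw [Nat.card_eq_fintype_card, Fintype.card_subtype]
  have hsub : Finset.univ.filter (fun y : V => Ex G c' x y) ⊆ Z ∪ (S2 ∪ S3) := by
    intro y hy
    have hE : Ex G c' x y := (Finset.mem_filter.1 hy).2
    rw [Finset.mem_union, Finset.mem_union]
    by_cases hb : 4 * (4 * K ^ 2) + 4 ≤ Nat.card {z : V // c' z z = c' y y}
    · exact Or.inl (hI y hb hE)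
    right
    rw [← hB, hcard y] at hb
    by_cases h2 : c' y y ∈ J2
    · left
      refine Finset.mem_biUnion.2 ⟨c' y y, h2, ?_⟩
      rw [if_pos (by omega)]
      exact Finset.mem_filter.2 ⟨Finset.mem_univ _, rfl⟩
    have h3 : ∀ y', c y' y' = c y y → c' y' y' = c' y y := by
      intro y' h
      by_contra hne
      exact h2 (Finset.mem_filter.2 ⟨Finset.mem_image.2 ⟨y, Finset.mem_univ _, rfl⟩,
        y, Finset.mem_univ _, y', Finset.mem_univ _, rfl, h, hne⟩)
    by_cases h4 : c y y ∈ J3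
    · right
      refine Finset.mem_biUnion.2 ⟨c y y, h4, ?_⟩
      have h5 : Finset.univ.filter (fun z : V => c z z = c y y) =
          Finset.univ.filter (fun z : V => c' z z = c' y y) := by
        ext z
        simp only [Finset.mem_filter, Finset.mem_univ, true_and]
        exact ⟨h3 z, fun h => hs.1 _ _ _ _ h⟩
      rw [h5, if_pos (by omega)]
      exact Finset.mem_filter.2 ⟨Finset.mem_univ _, rfl⟩
    · exfalso
      refine DG1.caseIII G c c' hc hs hA x y (fun z hz => ?_) hE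
      by_contra hne
      exact h4 (Finset.mem_filter.2 ⟨Finset.mem_image.2 ⟨y, Finset.mem_univ _, rfl⟩,
        z, Finset.mem_univ _, y, Finset.mem_univ _, hz, rfl, hne⟩)
  have h6 : Nat.card {y : V // Ex G c' x y} =
      (Finset.univ.filter (fun y : V => Ex G c' x y)).card := by
    rw [Nat.card_eq_fintype_card, Fintype.card_subtype]
  rw [h6]
  have h7 := (Finset.card_le_card hsub).trans (Finset.card_union_le _ _)
  have h8 := Finset.card_union_le S2 S3
  have h9 : Z.card + (S2.card + S3.card) ≤ 4 * K ^ 2 + (2 * K * B + K * B) := by omega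
  have h10 : 4 * K ^ 2 + (2 * K * B + K * B) ≤ 100 * K ^ 3 := by
    rw [hB]
    obtain ⟨k, rfl⟩ : ∃ k, K = k + 1 := ⟨K - 1, by omega⟩
    nlinarith [Nat.zero_le (k ^ 3), Nat.zero_le (k ^ 2), Nat.zero_le k]
  omega

theorem dg1 (_hMON : StmtMON) (hTCH : StmtTCH) (hDGA : StmtDGA) : StmtDG1 := by
  intro V κ κ' _ G c c' K hK hc hc' hs hA hrow
  obtain ⟨h1, h2⟩ := dg1_12 V κ κ' G c c' hc hc' hs hA
  refine ⟨h1, h2, ?_⟩
  have hZ : ∀ x : V, ∃ Z : Finset V, Z.card ≤ 4 * K ^ 2 ∧
      ∀ i : κ, (∀ y, c y y = i → (y ∈ Z ↔ G.Adj x y)) ∨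
        (∀ y, c y y = i → (y ∈ Z ↔ ¬ G.Adj x y)) := by
    intro x
    exact hDGA V κ κ' (fun y => G.Adj x y) (c' x) (fib c) K
      (fun y y' h => hs.1 _ _ _ _ (hc'.val _ _ _ _ h).2.1)
      (fun y y' h => hA _ _ _ _ (hs.1 _ _ _ _ h)) (hrow x).1
  choose Z hZ1 hZ2 using hZ
  intro x
  exact DG1.count G c c' K hK hTCH hc hc' hs hA x (hrow x).2 (Z x) (hZ1 x)
    (fun y hb hE => DG1.caseI G c c' (4 * K ^ 2) hc hs hA Z hZ1 hZ2 x y hb hE)

end Pool.Agent.DQE
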