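import Mathlib
import Pool.Agent.WLE.St
import Pool.Agent.WLE.MDeg
import Pool.Agent.DQE.Defs
import Pool.Agent.DQE.St

set_option autoImplicit false

/-!
# Minority sides (module DGA)
-/

namespace Pool.Agent.DQE

open Pool.Agent.BRW Pool.Agent.WLE Pool.Agent.WLE.DegAux

open Classical in
/-- DGA. -/
theorem dga (hLOC : StmtLOC) : StmtDGA := by
  intro V κ κ' _ N f g K href hN hSq
  set P : κ → Finset V := fun i => Finset.univ.filter (fun y => g y = i ∧ N y) with hP
  set Q : κ → Finset V := fun i => Finset.univ.filter (fun y => g y = i ∧ ¬ N y) with hQ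
  set Z : Finset V := Finset.univ.filter
    (fun y => if (P (g y)).card ≤ (Q (g y)).card then N y else ¬ N y) with hZ
  set T : Finset κ := Finset.univ.image g with hT
  set d : κ → ℕ := fun i => (Z.filter (fun w => g w = i)).card with hd
  have hZT : Z.card = ∑ i ∈ T, d i := by
    rw [hd]
    exact Finset.card_eq_sum_card_fiberwise
      (fun y _ => Finset.mem_coe.2 (Finset.mem_image_of_mem g (Finset.mem_univ y)))
  have hloc : ∀ i ∈ T, Real.sqrt (cs g Finset.univ i) + Real.sqrt (d i) / 2 ≤
      ∑ j ∈ (Finset.univ.filter (fun y => g y = i)).image f,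
        Real.sqrt (cs f Finset.univ j) := by
    intro i _
    set F : Finset V := Finset.univ.filter (fun y => g y = i) with hF
    have hFu : F = P i ∪ Q i := by
      ext w
      simp only [hF, hP, hQ, Finset.mem_filter, Finset.mem_univ, true_and, Finset.mem_union]
      tauto
    have hPQd : Disjoint (P i) (Q i) := by
      rw [Finset.disjoint_left]
      intro w hw hw'
      simp only [hP, hQ, Finset.mem_filter, Finset.mem_univ, true_and] at hw hw'
      exact hw'.2 hw.2
    have hPc : ∀ y y', f y = f y' → y ∈ P i → y' ∈ P i := by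
      intro y y' h hy
      simp only [hP, Finset.mem_filter, Finset.mem_univ, true_and] at hy ⊢
      exact ⟨(href y y' h).symm.trans hy.1, (hN y y' h).1 hy.2⟩
    have hQc : ∀ y y', f y = f y' → y ∈ Q i → y' ∈ Q i := by
      intro y y' h hy
      simp only [hQ, Finset.mem_filter, Finset.mem_univ, true_and] at hy ⊢
      exact ⟨(href y y' h).symm.trans hy.1, fun h' => hy.2 ((hN y y' h).2 h')⟩
    have hdis : Disjoint ((P i).image f) ((Q i).image f) := by
      rw [Finset.disjoint_left]
      intro j hj hj'
      obtain ⟨y, hy, rfl⟩ := Finset.mem_image.1 hj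
      obtain ⟨y', hy', h⟩ := Finset.mem_image.1 hj'
      exact Finset.disjoint_left.1 hPQd (hPc y y' h.symm hy) hy'
    have h1 := parts f (P i) hPc
    have h2 := parts f (Q i) hQc
    have hFcs : cs g Finset.univ i = F.card := rfl
    have h4 : ((P i ∪ Q i).card : ℝ) = ((P i).card : ℝ) + (Q i).card := by
      rw [Finset.card_union_of_disjoint hPQd]
      push_cast
      ring
    rw [hFcs, hFu, Finset.image_union, Finset.sum_union hdis, h4]
    by_cases hc : (P i).card ≤ (Q i).card
    · have hdi : d i = (P i).card := by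
        change (Z.filter (fun w => g w = i)).card = (P i).card
        congr 1
        ext w
        simp only [hZ, hP, hQ, Finset.mem_filter, Finset.mem_univ, true_and] at hc ⊢
        constructor
        · rintro ⟨hw, rfl⟩
          rw [if_pos hc] at hw
          exact ⟨rfl, hw⟩
        · rintro ⟨rfl, hw⟩
          rw [if_pos hc]
          exact ⟨hw, rfl⟩
      have h3 := num (a := ((P i).card : ℝ)) (b := ((Q i).card : ℝ)) (Nat.cast_nonneg _)
        (by exact_mod_cast hc)
      rw [hdi]
      linarith
    · have hdi : d i = (Q i).card := by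
        change (Z.filter (fun w => g w = i)).card = (Q i).card
        congr 1
        ext w
        simp only [hZ, hP, hQ, Finset.mem_filter, Finset.mem_univ, true_and] at hc ⊢
        constructor
        · rintro ⟨hw, rfl⟩
          rw [if_neg hc] at hw
          exact ⟨rfl, hw⟩
        · rintro ⟨rfl, hw⟩
          rw [if_neg hc]
          exact ⟨hw, rfl⟩
      have h3 := num (a := ((Q i).card : ℝ)) (b := ((P i).card : ℝ)) (Nat.cast_nonneg _)
        (by exact_mod_cast (not_le.1 hc).le)
      rw [hdi, add_comm ((P i).card : ℝ)]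
      linarith
  have hmain := (hLOC V κ' κ f g Finset.univ T href (Finset.Subset.refl _)).2.2
    (fun i => Real.sqrt (d i) / 2) hloc
  have hS : ∑ i ∈ T, Real.sqrt (d i) < 2 * K := by
    have h1 : ∑ i ∈ T, Real.sqrt (d i) / 2 < K := by linarith
    rw [← Finset.sum_div] at h1
    linarith
  have hfin : ((∑ i ∈ T, d i : ℕ) : ℝ) ≤ 4 * (K : ℝ) ^ 2 := by
    have h1 : Real.sqrt ((∑ i ∈ T, d i : ℕ) : ℝ) < 2 * K := lt_of_le_of_lt (sqrt_sum T d) hS
    have h2 := Real.sq_sqrt (Nat.cast_nonneg (α := ℝ) (∑ i ∈ T, d i))
    have h3 := Real.sqrt_nonneg ((∑ i ∈ T, d i : ℕ) : ℝ)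
    nlinarith
  refine ⟨Z, ?_, fun i => ?_⟩
  · rw [hZT]
    exact_mod_cast hfin
  · by_cases hc : (P i).card ≤ (Q i).card
    · left
      rintro y rfl
      simp only [hZ, Finset.mem_filter, Finset.mem_univ, true_and]
      rw [if_pos hc]
    · right
      rintro y rfl
      simp only [hZ, Finset.mem_filter, Finset.mem_univ, true_and]
      rw [if_neg hc]

end Pool.Agent.DQE
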