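import Mathlib
import Pool.Agent.DQE.St

set_option autoImplicit false

/-!
Counting half of DI1 (helper51).
-/

namespace Pool.Agent.DQE

open Pool.Agent.BRW Pool.Agent.WLE

theorem di1_count0 (hLOC : StmtLOC) {V κ κ' : Type} [Fintype V] (f : V → κ') (g : V → κ) (K : ℕ)
    (href : ∀ y y', f y = f y' → g y = g y')
    (hNum : Num f Finset.univ < Num g Finset.univ + K)
    (S : ℕ → V → Prop)
    (hinv : ∀ i, 1 ≤ i → i ≤ 2 * K → ∀ y y', f y = f y' → S i y → S i y')
    (hdis : ∀ i j y, 1 ≤ i → i ≤ 2 * K → 1 ≤ j → j ≤ 2 * K → S i y → S j y → i = j)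
    (z : ℕ → V) (hz : ∀ i, 1 ≤ i → i ≤ 2 * K → S i (z i)) :
    ∃ i, 1 ≤ i ∧ i ≤ 2 * K ∧ ∀ y, g y = g (z i) → S i y := by
  classical
  by_contra hcon
  push Not at hcon
  set J : Finset ℕ := Finset.Icc 1 (2 * K) with hJ
  have hJm : ∀ i, i ∈ J ↔ 1 ≤ i ∧ i ≤ 2 * K := fun i => by rw [hJ, Finset.mem_Icc]
  set T : Finset κ := J.image (fun i => g (z i)) with hT
  have hTsub : T ⊆ (Finset.univ : Finset V).image g := by
    intro t ht
    obtain ⟨i, -, rfl⟩ := Finset.mem_image.1 ht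
    exact Finset.mem_image.2 ⟨z i, Finset.mem_univ _, rfl⟩
  -- number of indices in the fibre
  let nn : κ → ℕ := fun t => (J.filter (fun i => g (z i) = t)).card
  have hsum : ∑ t ∈ T, nn t = 2 * K := by
    have h1 := Finset.card_eq_sum_card_image (fun i => g (z i)) J
    rw [hJ, Nat.card_Icc] at h1
    have h2 : 2 * K + 1 - 1 = 2 * K := by omega
    rw [h2] at h1
    exact h1.symm
  have hloc : ∀ t ∈ T, 1 + (nn t + 1) / 2 ≤
      (((Finset.univ : Finset V).filter (fun y => g y = t)).image f).card := by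
    intro t ht
    obtain ⟨i0, hi0, hi0t⟩ := Finset.mem_image.1 ht
    have hn1 : 1 ≤ nn t := Finset.card_pos.2 ⟨i0, Finset.mem_filter.2 ⟨hi0, hi0t⟩⟩
    -- at least two classes
    have h2 : 2 ≤ (((Finset.univ : Finset V).filter (fun y => g y = t)).image f).card := by
      obtain ⟨h1a, h1b⟩ := (hJm i0).1 hi0
      obtain ⟨w, hw, hwS⟩ := hcon i0 h1a h1b
      have : 1 < (((Finset.univ : Finset V).filter (fun y => g y = t)).image f).card := by
        rw [Finset.one_lt_card]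
        refine ⟨f (z i0), ?_, f w, ?_, ?_⟩
        · exact Finset.mem_image.2 ⟨z i0, Finset.mem_filter.2 ⟨Finset.mem_univ _, hi0t⟩, rfl⟩
        · exact Finset.mem_image.2 ⟨w, Finset.mem_filter.2 ⟨Finset.mem_univ _, hw.trans hi0t⟩, rfl⟩
        · intro e
          exact hwS (hinv i0 h1a h1b _ _ e (hz i0 h1a h1b))
      exact this
    -- at least nn t classes
    have h3 : nn t ≤ (((Finset.univ : Finset V).filter (fun y => g y = t)).image f).card := by
      refine Finset.card_le_card_of_injOn (fun i => f (z i)) ?_ ?_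
      · intro i hi
        have hi' := Finset.mem_filter.1 (Finset.mem_coe.1 hi)
        exact Finset.mem_coe.2 (Finset.mem_image.2
          ⟨z i, Finset.mem_filter.2 ⟨Finset.mem_univ _, hi'.2⟩, rfl⟩)
      · intro i hi j hj e
        have hi' := (hJm i).1 (Finset.mem_filter.1 (Finset.mem_coe.1 hi)).1
        have hj' := (hJm j).1 (Finset.mem_filter.1 (Finset.mem_coe.1 hj)).1
        exact hdis i j (z j) hi'.1 hi'.2 hj'.1 hj'.2
          (hinv i hi'.1 hi'.2 _ _ e (hz i hi'.1 hi'.2)) (hz j hj'.1 hj'.2)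
    omega
  have h := (hLOC V κ' κ f g Finset.univ T href (by convert hTsub)).2.1
    (fun t => (nn t + 1) / 2) (by
      intro t ht
      convert hloc t ht)
  have h4 : K ≤ ∑ t ∈ T, (nn t + 1) / 2 := by
    have h5 : 2 * ∑ t ∈ T, (nn t + 1) / 2 ≥ ∑ t ∈ T, nn t := by
      rw [Finset.mul_sum]
      exact Finset.sum_le_sum (fun t _ => by omega)
    omega
  omega

theorem di1_count (hLOC : StmtLOC) (V κ κ' : Type) [Fintype V] (f : V → κ') (g : V → κ) (K : ℕ)
    (z : ℕ → V) (S : ℕ → V → Prop) (hfg : ∀ y y', f y = f y' → g y = g y')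
    (hS : ∀ i y y', f y = f y' → S i y → S i y') (hdis : ∀ i j y, S i y → S j y → i = j)
    (hz : ∀ i, 1 ≤ i → i ≤ 2 * K → S i (z i)) (_hK1 : 1 ≤ K)
    (hK : Num f Finset.univ < Num g Finset.univ + K) :
    ∃ i, 1 ≤ i ∧ i ≤ 2 * K ∧ ∀ y, g y = g (z i) → S i y :=
  di1_count0 hLOC f g K hfg hK S (fun i _ _ y y' h h' => hS i y y' h h')
    (fun i j y _ _ _ _ h h' => hdis i j y h h') z hz

end Pool.Agent.DQE
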