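import Mathlib
import Pool.Agent.BRW.St
import Pool.Agent.WLE.St
import Pool.Agent.DQE.Defs
import Pool.Agent.DQE.St
import Pool.Agent.DQE.MDi1a

set_option autoImplicit false

/-!
# The diameter (`StmtDI1`)
-/

namespace Pool.Agent.DQE

open Pool.Agent.BRW Pool.Agent.WLE

theorem di1_card {V : Type} [Finite V] {P Q : V → Prop} (h : ∀ y, P y → Q y) :
    Nat.card {y // P y} ≤ Nat.card {y // Q y} :=
  Nat.card_le_card_of_injective (fun y => (⟨y.1, h y.1 y.2⟩ : {y // Q y})) (by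
    intro a b hab
    exact Subtype.ext (congrArg (Subtype.val (p := Q)) hab))

theorem di1_of (hcount : ∀ (V κ κ' : Type) [Fintype V] (f : V → κ') (g : V → κ) (K : ℕ),
    1 ≤ K → (∀ y y', f y = f y' → g y = g y') → Num f Finset.univ < Num g Finset.univ + K →
    ∀ (S : ℕ → V → Prop),
    (∀ i, 1 ≤ i → i ≤ 2 * K → ∀ y y', f y = f y' → S i y → S i y') →
    (∀ i j y, 1 ≤ i → i ≤ 2 * K → 1 ≤ j → j ≤ 2 * K → S i y → S j y → i = j) →
    ∀ (z : ℕ → V), (∀ i, 1 ≤ i → i ≤ 2 * K → S i (z i)) →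
    ∃ i, 1 ≤ i ∧ i ≤ 2 * K ∧ ∀ y, g y = g (z i) → S i y)
    (hMON : StmtMON) (hWKK : StmtWKK) : StmtDI1 := by
  intro V κ _ d Γ K D m hCS hStp hΓ hD hK hm hN
  obtain ⟨w1, w2, w3, w4, w5⟩ := hWKK V κ d Γ D hCS hStp hΓ hD
  have hRef : ∀ j, Ref (d (j + 1)) (d j) := fun j => (hStp j).1
  have hRef0 : ∀ j, Ref (d j) (d 0) := by
    intro j
    induction j with
    | zero => exact fun _ _ _ _ h => h
    | succ j ih => exact fun x y x' y' h => ih _ _ _ _ (hRef j _ _ _ _ h)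
  have wmono : ∀ i j, i ≤ j → ∀ x y, Wk Γ i x y → Wk Γ j x y := by
    intro i j hij
    induction hij with
    | refl => exact fun _ _ h => h
    | step _ ih => exact fun x y h => (w1 _ x y (ih x y h)).2.1
  have hinv : ∀ i, i ≤ 2 * K → Inv (d (m + 1)) (Wk Γ i) := fun i hi => w3 m i (hi.trans hm)
  have htr : ∀ x x', d (m + 2) x x = d (m + 2) x' x' →
      ∃ e : V ≃ V, ∀ z, d (m + 1) x z = d (m + 1) x' (e z) := by
    intro x x' h
    obtain ⟨e, he⟩ := (hStp (m + 1)).2 x x x' x' h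
    exact ⟨e, fun z => (he z).1⟩
  have hpow : ∀ i, i ≤ 2 * K → (D + 1) ^ i ≤ (D + 1) ^ (2 * K) := fun i hi =>
    Nat.pow_le_pow_right (Nat.succ_pos D) hi
  refine ⟨fun x => ∃ y, Wk Γ (2 * K) x y ∧ ¬ Wk Γ (2 * K - 1) x y, ?_, ?_, ?_⟩
  · rintro x x' h ⟨y, hy1, hy2⟩
    obtain ⟨e, he⟩ := htr x x' h
    refine ⟨e y, ?_, ?_⟩
    · exact (hinv (2 * K) le_rfl _ _ _ _ (he y)).1 hy1
    · intro hc
      exact hy2 ((hinv (2 * K - 1) (Nat.sub_le _ _) _ _ _ _ (he y)).2 hc)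
  · intro x hx
    have h1 : ∀ y, Wk Γ (2 * K - 1 + 1) x y → Wk Γ (2 * K - 1) x y := by
      intro y hy
      have e : 2 * K - 1 + 1 = 2 * K := by omega
      rw [e] at hy
      by_contra hc
      exact hx ⟨y, hy, hc⟩
    exact (di1_card (w5 (2 * K - 1) x h1)).trans ((w4 _ x).trans (hpow _ (Nat.sub_le _ _)))
  · rintro x ⟨y, hy1, hy2⟩
    have hz : ∀ i, ∃ z, 1 ≤ i → i ≤ 2 * K → (Wk Γ i x z ∧ ¬ Wk Γ (i - 1) x z) := by
      intro i
      by_cases hi : 1 ≤ i ∧ i ≤ 2 * K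
      · have e : 2 * K = i + (2 * K - i) := by omega
        rw [e] at hy1
        obtain ⟨z, hz1, hz2⟩ := (w2 _ _ _ _).1 hy1
        refine ⟨z, fun _ _ => ⟨hz1, fun hc => hy2 ?_⟩⟩
        have e2 : 2 * K - 1 = (i - 1) + (2 * K - i) := by omega
        rw [e2]
        exact (w2 _ _ _ _).2 ⟨z, hc, hz2⟩
      · exact ⟨x, fun h1 h2 => absurd ⟨h1, h2⟩ hi⟩
    choose z hz using hz
    obtain ⟨i, hi1, hi2, hi⟩ := hcount V κ κ (d (m + 1) x) (fib (d 0)) K hK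
      (fun y y' h => hRef0 (m + 1) _ _ _ _ ((hCS (m + 1)).val _ _ _ _ h).2.1)
      (lt_of_le_of_lt (hMON V κ κ (d (m + 2) x) (d (m + 1) x) Finset.univ
        (fun y y' h => hRef (m + 1) _ _ _ _ h)).2.1 (hN x))
      (fun i y => Wk Γ i x y ∧ ¬ Wk Γ (i - 1) x y)
      (by
        rintro i h1 h2 y y' h ⟨h3, h4⟩
        refine ⟨(hinv i h2 _ _ _ _ h).1 h3, fun hc => h4 ?_⟩
        exact (hinv (i - 1) ((Nat.sub_le _ _).trans h2) _ _ _ _ h).2 hc)
      (by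
        rintro i j y h1 h2 k1 k2 ⟨h3, h4⟩ ⟨k3, k4⟩
        by_contra hc
        rcases lt_or_gt_of_ne hc with h | h
        · exact k4 (wmono i (j - 1) (by omega) _ _ h3)
        · exact h4 (wmono j (i - 1) (by omega) _ _ k3))
      z hz
    refine le_trans (di1_card (Q := fun x' => Wk Γ i (z i) x') ?_) ((w4 i (z i)).trans
      (hpow i hi2))
    intro x' hx'
    obtain ⟨e, he⟩ := htr x x' hx'.symm
    have hu := he (e.symm (z i))
    rw [Equiv.apply_symm_apply] at hu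
    have hg : fib (d 0) (e.symm (z i)) = fib (d 0) (z i) :=
      hRef0 (m + 1) _ _ _ _ ((hCS (m + 1)).val _ _ _ _ hu).2.1
    obtain ⟨h3, -⟩ := hi _ hg
    exact (w1 i x' (z i) ((hinv i hi2 _ _ _ _ hu).1 h3)).1

theorem di1 (hLOC : StmtLOC) (hMON : StmtMON) (hWKK : StmtWKK) : StmtDI1 :=
  di1_of (fun V κ κ' _ f g K _ hfg hNum S hinv hdis z hz =>
    di1_count0 hLOC f g K hfg hNum S hinv hdis z hz) hMON hWKK

end Pool.Agent.DQE
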