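import Mathlib
import Pool.Agent.DQE.St

set_option autoImplicit false

/-!
# DQE: the theorem from FNL (choice of the constants)
-/

namespace Pool.Agent.DQE

open Pool.Agent.BRW Pool.Agent.WLE

/-- EPS from FNL. -/
theorem eps (hFNL : StmtFNL) : StmtEPS := by
  intro ε hε
  obtain ⟨i, hi⟩ := exists_nat_gt (45 / ε)
  have hi0 : (0 : ℝ) < i := lt_of_le_of_lt (by positivity) hi
  have h2i : (i : ℝ) < 2 ^ i := by exact_mod_cast Nat.lt_two_pow_self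
  have h1i : (1 : ℝ) ≤ 2 ^ i := one_le_pow₀ (by norm_num)
  obtain ⟨K, hK⟩ : ∃ K : ℕ, K = 2 ^ (2 * i) := ⟨_, rfl⟩
  obtain ⟨m, hm⟩ : ∃ m : ℕ, m = 2 * i + 1 := ⟨_, rfl⟩
  have hK1 : 1 ≤ K := by rw [hK]; exact Nat.one_le_two_pow
  have hKm : 2 * K ≤ 2 ^ m := by
    rw [hK, hm, pow_succ]
    exact le_of_eq (mul_comm _ _)
  have hKr : (K : ℝ) = 2 ^ i * 2 ^ i := by
    rw [hK]
    push_cast
    rw [two_mul, pow_add]
  have hK0 : (0 : ℝ) < K := by exact_mod_cast hK1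
  have hmr : (m : ℝ) = 2 * i + 1 := by rw [hm]; push_cast; ring
  have hK3 : (2 * (m : ℝ) + 9) / K ≤ ε / 3 := by
    rw [div_le_iff₀ hK0, hKr, hmr]
    rw [div_lt_iff₀ hε] at hi
    have e1 : 2 * (2 * (i : ℝ) + 1) + 9 ≤ 15 * 2 ^ i := by linarith
    have e2 : (45 : ℝ) ≤ 2 ^ i * ε := by nlinarith
    nlinarith
  obtain ⟨C, hC⟩ : ∃ C : ℕ, C = (100 * K ^ 3 + 1) ^ (2 * K) := ⟨_, rfl⟩
  obtain ⟨B, hB⟩ : ∃ B : ℕ, B = K * C * C + 1 := ⟨_, rfl⟩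
  obtain ⟨M, hM⟩ := exists_nat_gt (6 * (C : ℝ) / ε)
  have hM0 : (0 : ℝ) < M := lt_of_le_of_lt (by positivity) hM
  have hM1 : 1 ≤ M := by exact_mod_cast hM0
  have hM3 : 2 * (C : ℝ) / (M : ℝ) ≤ ε / 3 := by
    rw [div_lt_iff₀ hε] at hM
    rw [div_le_div_iff₀ hM0 (by norm_num)]
    nlinarith
  obtain ⟨L, hL⟩ : ∃ L : ℝ, L = (2 * K + 4 * K * B) * C + C * (M + M * K + K + 1) + C + m + 6 :=
    ⟨_, rfl⟩
  obtain ⟨N, hN⟩ := exists_nat_gt (3 * L / ε)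
  refine ⟨N, ?_⟩
  intro V _ G hV
  have hnN : (N : ℝ) ≤ (Fintype.card V : ℝ) := by exact_mod_cast hV
  have hn0 : (0 : ℝ) ≤ (Fintype.card V : ℝ) := Nat.cast_nonneg _
  have hLn : L ≤ ε / 3 * (Fintype.card V : ℝ) := by
    rw [div_lt_iff₀ hε] at hN
    nlinarith
  obtain ⟨k, hk, hD⟩ := hFNL V G K M m C B hK1 hM1 hKm hC hB
  refine ⟨k, hk.trans ?_, hD⟩
  rw [← hL]
  have e1 := mul_le_mul_of_nonneg_left (add_le_add hK3 hM3) hn0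
  nlinarith

end Pool.Agent.DQE
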