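import Mathlib
import Pool.Agent.DQE.St

set_option autoImplicit false

namespace Pool.Agent.DQE

open Pool.Agent.BRW Pool.Agent.WLE

theorem fnl (hMON : StmtMON) (hTCP : StmtTCP) (hGR1 : StmtGR1) (hDG1 : StmtDG1)
    (hDI1 : StmtDI1) (hMII : StmtMII) (hSTB : StmtSTB) (hLST : StmtLST) : StmtFNL := by
  intro V _ G K M m C B hK hM hm hC hB
  classical
  obtain ⟨t₀, r₀, s₀, ht₀, hr₀, hP⟩ := hGR1 V G K (m + 2) hK
  let d : ℕ → V → V → Set (V × V) := fun j => tc G (r₀ + j) t₀ s₀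
  have hCS : ∀ j, CS (d j) := fun j => (hTCP V G (r₀ + j) t₀ s₀).1
  have hStp : ∀ j, Stp (d (j + 1)) (d j) := fun j => (hTCP V G (r₀ + j) t₀ s₀).2.1
  have hRef : ∀ j i, Ref (d (j + i)) (d j) := by
    intro j i
    induction i with
    | zero => intro x y x' y' h; exact h
    | succ i ih =>
      intro x y x' y' h
      exact ih x y x' y' ((hStp (j + i)).1 x y x' y' h)
  have hInv : ∀ j, Inv (d j) G.Adj := fun j => (hTCP V G (r₀ + j) t₀ s₀).2.2.1
  have hRef1 : Ref (d (m + 2)) (d 1) := by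
    have := hRef 1 (m + 1)
    have e : 1 + (m + 1) = m + 2 := by omega
    rw [e] at this
    exact this
  have hRef0 : Ref (d (m + 2)) (d 0) := by
    have := hRef 0 (m + 2)
    have e : 0 + (m + 2) = m + 2 := by omega
    rw [e] at this
    exact this
  -- the two parts of the first potential
  have hrow : ∀ x, (Sq (d 1 x) Finset.univ < Sq (fib (d 0)) Finset.univ + K ∧
      Num (d 1 x) Finset.univ < Num (fib (d 0)) Finset.univ + K) ∧
      Num (d (m + 2) x) Finset.univ < Num (fib (d 0)) Finset.univ + K := by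
    intro x
    have h := hP x
    have e0 : tc G (r₀ + (m + 2)) t₀ s₀ = d (m + 2) := rfl
    have e1 : tc G r₀ t₀ s₀ = d 0 := rfl
    rw [e0, e1] at h
    have m1 := hMON V _ _ (d (m + 2) x) (d 1 x) Finset.univ
      (fun y y' hy => hRef1 x y x y' hy)
    have m2 := hMON V _ _ (d (m + 2) x) (fib (d 0)) Finset.univ
      (fun y y' hy => hRef0 y y y' y' ((hCS (m + 2)).val x y x y' hy).2.1)
    have a1 : ((Num (d 1 x) Finset.univ : ℕ) : ℝ) ≤ (Num (d (m + 2) x) Finset.univ : ℕ) := by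
      exact_mod_cast m1.2.1
    have a2 : ((Num (fib (d 0)) Finset.univ : ℕ) : ℝ) ≤
        (Num (d (m + 2) x) Finset.univ : ℕ) := by
      exact_mod_cast m2.2.1
    have a3 := m1.2.2.1
    have a4 := m2.2.2.1
    have b1 : ((Num (d (m + 2) x) Finset.univ : ℕ) : ℝ) <
        (Num (fib (d 0)) Finset.univ : ℕ) + (K : ℝ) := by linarith
    have b2 : Num (d (m + 2) x) Finset.univ < Num (fib (d 0)) Finset.univ + K := by
      exact_mod_cast b1
    refine ⟨⟨by linarith, lt_of_le_of_lt m1.2.1 b2⟩, b2⟩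
  obtain ⟨hEsym, hEinv, hEdeg⟩ := hDG1 V _ _ G (d 0) (d 1) K hK (hCS 0) (hCS 1) (hStp 0)
    (hInv 0) (fun x => (hrow x).1)
  let Γ : SimpleGraph V :=
    { Adj := Ex G (d 1)
      symm := ⟨fun x y h => hEsym x y h⟩
      loopless := ⟨fun x h => h.1 rfl⟩ }
  obtain ⟨F, hF1, hF2, hF3⟩ := hDI1 V _ d Γ K (100 * K ^ 3) m hCS hStp hEinv hEdeg hK hm
    (fun x => (hrow x).2)
  rw [← hC] at hF2 hF3
  let A : Finset V := Finset.univ.filter F
  have hA : ∀ x, x ∈ A ↔ F x := by
    intro x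
    simp [A]
  have hBpos : 1 ≤ B := by omega
  obtain ⟨t, q, s, hRs, hbd, hM1, hN, hQ⟩ := hMII V G t₀ (r₀ + (m + 2)) s₀ A K B hK hBpos
    (fun x y h hx => (hA y).2 (hF1 x y h ((hA x).1 hx)))
  let c := tc G q t s
  have hRsd : Ref c (d (m + 2)) := hRs
  have hCc : CS c := (hTCP V G q t s).1
  have hClc : Cl c A := by
    intro x y h hx
    exact (hA y).2 (hF1 x y (hRsd x x y y h) ((hA x).1 hx))
  have hnum : ∀ x ∈ A, Num (c x) A ≤ Num (fib c) A + K := by
    intro x _
    have h1 := hM1 x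
    have h2 := (hMON V _ _ (c x) (fib c) A
      (fun y y' hy => (hCc.val x y x y' hy).2.1)).1
    have h3 : K * Phi (c x) A ≤ K * Phi (fib c) A := Nat.mul_le_mul_left K h2
    have h4 : K * Phi (fib c) A + 8 * Num (c x) A ≤
      8 * K + K * Phi (c x) A + 8 * Num (fib c) A := h1
    omega
  have hfibC : ∀ x ∈ A, Nat.card {y : V // c y y = c x x} ≤ C := by
    intro x hx
    refine le_trans ?_ (hF3 x ((hA x).1 hx))
    refine Nat.card_le_card_of_injective
      (fun y : {y : V // c y y = c x x} =>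
        (⟨y.1, hRsd _ _ _ _ y.2⟩ : {y : V // d (m + 2) y y = d (m + 2) x x})) ?_
    intro a b hab
    simp only [Subtype.mk.injEq] at hab
    exact Subtype.ext hab
  obtain ⟨S, hSA, hClS, hSc, hCoh⟩ := hSTB V _ _ _ c (tc G (q + 1) t s) (tc G (q + 2) t s) A
    K C B hCc (hTCP V G (q + 1) t s).1 (hTCP V G (q + 2) t s).1 (hTCP V G q t s).2.1
    (hTCP V G (q + 1) t s).2.1 hClc hnum hfibC (by omega) hN hQ
  obtain ⟨p, hp, hD⟩ := hLST V _ G q t s (d 1) A S K C M ((2 * K + 4 * K * B) * C) hK hM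
    (fun x y x' y' h => hRef1 x y x' y' (hRsd x y x' y' h)) (hInv 1) hEsym
    (by
      intro x hx
      have h1 := hF2 x (fun h => hx ((hA x).2 h))
      refine le_trans ?_ h1
      refine Nat.card_le_card_of_injective
        (fun y : {y : V // Relation.ReflTransGen (Ex G (d 1)) x y} =>
          (⟨y.1, (SimpleGraph.reachable_iff_reflTransGen (G := Γ) x y.1).2 y.2⟩ :
            {y : V // Γ.Reachable x y})) ?_
      intro a b hab
      simp only [Subtype.mk.injEq] at hab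
      exact Subtype.ext hab)
    hfibC hSA hClS hSc hCoh (fun x _ => hM1 x)
  refine ⟨_, ?_, hD⟩
  -- the numbers
  have hKr : (0 : ℝ) < K := by exact_mod_cast hK
  have hMr : (0 : ℝ) < M := by exact_mod_cast hM
  set n : ℝ := (Fintype.card V : ℝ) with hn
  have e1 : ((2 * Fintype.card V / K : ℕ) : ℝ) ≤ 2 * n / K := by
    have := @Nat.cast_div_le ℝ _ _ _ (2 * Fintype.card V) K
    push_cast at this
    exact this
  have e2 : (t₀ : ℝ) ≤ 2 * n / K := le_trans (by exact_mod_cast ht₀) e1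
  have e3 : (r₀ : ℝ) ≤ (m + 2) * (2 * n / K) := by
    have h1 : (r₀ : ℝ) ≤ ((m + 2) * (2 * Fintype.card V / K : ℕ) : ℕ) := by exact_mod_cast hr₀
    have h2 : (((m + 2) * (2 * Fintype.card V / K : ℕ) : ℕ) : ℝ) =
        ((m : ℝ) + 2) * ((2 * Fintype.card V / K : ℕ) : ℝ) := by push_cast; ring
    rw [h2] at h1
    have h3 : ((m : ℝ) + 2) * ((2 * Fintype.card V / K : ℕ) : ℝ) ≤
        (m + 2) * (2 * n / K) := mul_le_mul_of_nonneg_left e1 (by positivity)
    linarith
  have e4 : (p : ℝ) ≤ 2 * C * n / M := by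
    rw [le_div_iff₀ hMr]
    have : ((p * M : ℕ) : ℝ) ≤ ((2 * C * Fintype.card V : ℕ) : ℝ) := by exact_mod_cast hp
    push_cast at this
    exact this
  have e5 : ((t : ℝ) + q) ≤ t₀ + (r₀ + (m + 2)) + n / 8 + 3 * n / K := by
    have h1 : ((8 * K * (t + q) : ℕ) : ℝ) ≤
        ((8 * K * (t₀ + (r₀ + (m + 2))) + (K + 24) * Fintype.card V : ℕ) : ℝ) := by
      exact_mod_cast hbd
    push_cast at h1
    have h2 : (8 * (K : ℝ)) * (t + q) ≤
        (8 * (K : ℝ)) * (t₀ + (r₀ + (m + 2)) + n / 8 + 3 * n / K) := by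
      have h3 : (8 * (K : ℝ)) * (t₀ + (r₀ + (m + 2)) + n / 8 + 3 * n / K) =
          8 * K * (t₀ + (r₀ + (m + 2))) + (K + 24) * n := by
        field_simp
        ring
      rw [h3]
      linarith
    exact le_of_mul_le_mul_left h2 (by positivity)
  have e6 : 2 * n / K + (m + 2) * (2 * n / K) + 3 * n / K = n * ((2 * m + 9) / K) := by
    field_simp
    ring
  have e7 : 2 * C * n / M = n * (2 * C / M) := by
    field_simp
  push_cast
  have e8 : n * (1 / 8 + (2 * (m : ℝ) + 9) / K + 2 * C / M) =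
      n / 8 + n * ((2 * m + 9) / K) + n * (2 * C / M) := by ring
  rw [e8]
  rw [e7] at e4
  linarith

end Pool.Agent.DQE
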