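import Mathlib
import Pool.Agent.DQE.St

set_option autoImplicit false

/-!
# FRM: the forms of the final statement
-/

namespace Pool.Agent.DQE

open Pool.Agent.BRW Pool.Agent.WLE

/-- A system of relations for `k` rounds gives the game. -/
theorem frm_one {V W : Type} (k : ℕ) (G : SimpleGraph V) (H : SimpleGraph W)
    (R : (t : ℕ) → (Fin t → V) → (Fin t → W) → Prop)
    (hadj : ∀ (t : ℕ) (a : Fin t → V) (b : Fin t → W), R t a b → ∀ i j : Fin t,
      (a i = a j ↔ b i = b j) ∧ (G.Adj (a i) (a j) ↔ H.Adj (b i) (b j)))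
    (hext : ∀ (t : ℕ) (a : Fin t → V) (b : Fin t → W), t < k → R t a b → ∃ f : V ≃ W,
      ∀ v : V, R (t + 1) (Fin.snoc (α := fun _ => V) a v)
        (Fin.snoc (α := fun _ => W) b (f v))) :
    ∀ (j t : ℕ) (a : Fin t → V) (b : Fin t → W), j + t = k → R t a b → Bj G H j t a b := by
  intro j
  induction j with
  | zero =>
    intro t a b _ h
    exact hadj t a b h
  | succ j ih =>
    intro t a b hjt h
    obtain ⟨f, hf⟩ := hext t a b (by omega) h
    exact ⟨hadj t a b h, f, fun v => ih (t + 1) _ _ (by omega) (hf v)⟩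

/-- A winning region for `k` pebbles gives the game with `k` rounds. -/
theorem frm_two {V W : Type} (k : ℕ) (G : SimpleGraph V) (H : SimpleGraph W)
    (R : (Fin k → V) → (Fin k → W) → Prop)
    (hadj : ∀ a b, R a b → ∀ i j : Fin k,
      (a i = a j ↔ b i = b j) ∧ (G.Adj (a i) (a j) ↔ H.Adj (b i) (b j)))
    (hext : ∀ a b, R a b → ∀ i : Fin k, ∃ f : V ≃ W,
      ∀ v : V, R (Function.update a i v) (Function.update b i (f v))) :
    ∀ (j t : ℕ) (ht : t ≤ k) (a : Fin t → V) (b : Fin t → W) (p : Fin k → V) (q : Fin k → W),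
      j + t = k → R p q →
      (∀ i : Fin t, a i = p (Fin.castLE ht i) ∧ b i = q (Fin.castLE ht i)) →
      Bj G H j t a b := by
  intro j
  induction j with
  | zero =>
    intro t ht a b p q _ h hab i i'
    rw [(hab i).1, (hab i).2, (hab i').1, (hab i').2]
    exact hadj p q h _ _
  | succ j ih =>
    intro t ht a b p q hjt h hab
    have htk : t < k := by omega
    refine ⟨?_, ?_⟩
    · intro i i'
      rw [(hab i).1, (hab i).2, (hab i').1, (hab i').2]
      exact hadj p q h _ _
    · obtain ⟨f, hf⟩ := hext p q h ⟨t, htk⟩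
      refine ⟨f, fun v => ih (t + 1) htk _ _ _ _ (by omega) (hf v) ?_⟩
      intro i
      refine Fin.lastCases ?_ (fun i => ?_) i
      · have hl : (Fin.castLE htk (Fin.last t) : Fin k) = ⟨t, htk⟩ := by
          ext
          simp
        rw [hl]
        constructor
        · simp [sn]
        · simp [sn]
      · have hne : (Fin.castLE htk (Fin.castSucc i) : Fin k) ≠ ⟨t, htk⟩ := by
          intro hh
          have := congrArg Fin.val hh
          simp at this
          have h2 := i.2
          omega
        have hc : (Fin.castLE htk (Fin.castSucc i) : Fin k) = Fin.castLE ht i := by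
          ext
          simp
        rw [Function.update_of_ne hne, Function.update_of_ne hne, hc]
        constructor
        · simp only [sn, Fin.snoc_castSucc]
          exact (hab i).1
        · simp only [sn, Fin.snoc_castSucc]
          exact (hab i).2

/-- FRM. -/
theorem frm (_hGAM : StmtGAM) : StmtFRM := by
  intro V _ k G hD
  refine ⟨?_, ?_⟩
  · intro W _ H hR
    obtain ⟨R, h0, hadj, hext⟩ := hR
    exact hD W H (frm_one k G H R hadj hext k 0 _ _ (by omega) h0)
  · intro W _ _ H hR
    obtain ⟨R, hadj, hext, f, hf⟩ := hR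
    rcases isEmpty_or_nonempty V with hV | hV
    · have hW : IsEmpty W := f.symm.isEmpty
      exact ⟨⟨f, fun {x} => hV.elim x⟩⟩
    · obtain ⟨v⟩ := hV
      exact hD W H (frm_two k G H R hadj hext k 0 (Nat.zero_le k) _ _ (fun _ => v)
        (fun _ => f v) (by omega) (hf v) (fun i => i.elim0))

end Pool.Agent.DQE
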