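import Mathlib
import Pool.Agent.DQE.St

set_option autoImplicit false

/-!
# Module GAM: elementary properties of the bijective game (MP_87b449_lc)
-/

namespace Pool.Agent.DQE

open Pool.Agent.BRW Pool.Agent.WLE

theorem gam86_sn {V : Type} {t t' : ℕ} (a : Fin t → V) (v : V) (σ : Fin t' → Fin t) :
    (fun i => sn a v (sn (fun i => (σ i).castSucc) (Fin.last t) i)) =
      sn (fun i => a (σ i)) v := by
  funext i
  induction i using Fin.lastCases with
  | last => simp [sn]
  | cast i => simp [sn]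

theorem gam86_mono (V W : Type) (G : SimpleGraph V) (H : SimpleGraph W) (r : ℕ) :
    ∀ (t : ℕ) (a : Fin t → V) (b : Fin t → W), Bj G H (r + 1) t a b → Bj G H r t a b := by
  induction r with
  | zero => intro t a b h; exact h.1
  | succ r ih =>
    intro t a b h
    obtain ⟨h1, f, hf⟩ := h
    exact ⟨h1, f, fun v => ih _ _ _ (hf v)⟩

theorem gam86_reindex (V W : Type) (G : SimpleGraph V) (H : SimpleGraph W) (r : ℕ) :
    ∀ (t t' : ℕ) (a : Fin t → V) (b : Fin t → W) (σ : Fin t' → Fin t), Bj G H r t a b →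
      Bj G H r t' (fun i => a (σ i)) (fun i => b (σ i)) := by
  induction r with
  | zero =>
    intro t t' a b σ h i j
    exact h (σ i) (σ j)
  | succ r ih =>
    intro t t' a b σ h
    obtain ⟨h1, f, hf⟩ := h
    refine ⟨fun i j => h1 (σ i) (σ j), f, fun v => ?_⟩
    have h2 := ih _ _ _ _ (sn (fun i => (σ i).castSucc) (Fin.last t)) (hf v)
    rwa [gam86_sn, gam86_sn] at h2

theorem gam86_refl (V : Type) (G : SimpleGraph V) (r : ℕ) :
    ∀ (t : ℕ) (a : Fin t → V), Bj G G r t a a := by
  induction r with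
  | zero => intro t a i j; exact ⟨Iff.rfl, Iff.rfl⟩
  | succ r ih =>
    intro t a
    exact ⟨fun i j => ⟨Iff.rfl, Iff.rfl⟩, Equiv.refl V, fun v => ih _ _⟩

theorem gam86_symm (V W : Type) (G : SimpleGraph V) (H : SimpleGraph W) (r : ℕ) :
    ∀ (t : ℕ) (a : Fin t → V) (b : Fin t → W), Bj G H r t a b → Bj H G r t b a := by
  induction r with
  | zero =>
    intro t a b h i j
    exact ⟨(h i j).1.symm, (h i j).2.symm⟩
  | succ r ih =>
    intro t a b h
    obtain ⟨h1, f, hf⟩ := h
    refine ⟨fun i j => ⟨(h1 i j).1.symm, (h1 i j).2.symm⟩, f.symm, fun w => ?_⟩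
    have h2 := hf (f.symm w)
    rw [Equiv.apply_symm_apply] at h2
    exact ih _ _ _ h2

theorem gam86_trans (V W U : Type) (G : SimpleGraph V) (H : SimpleGraph W) (K : SimpleGraph U)
    (r : ℕ) : ∀ (t : ℕ) (a : Fin t → V) (b : Fin t → W) (c : Fin t → U), Bj G H r t a b →
      Bj H K r t b c → Bj G K r t a c := by
  induction r with
  | zero =>
    intro t a b c h k i j
    exact ⟨(h i j).1.trans (k i j).1, (h i j).2.trans (k i j).2⟩
  | succ r ih =>
    intro t a b c h k
    obtain ⟨h1, f, hf⟩ := h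
    obtain ⟨k1, g, hg⟩ := k
    exact ⟨fun i j => ⟨(h1 i j).1.trans (k1 i j).1, (h1 i j).2.trans (k1 i j).2⟩, f.trans g,
      fun v => ih _ _ _ _ (hf v) (hg (f v))⟩

theorem gam : StmtGAM :=
  ⟨fun V W G H r t a b h => gam86_mono V W G H r t a b h,
    fun V W G H r t t' a b σ h => gam86_reindex V W G H r t t' a b σ h,
    fun V G r t a => gam86_refl V G r t a,
    fun V W G H r t a b h => gam86_symm V W G H r t a b h,
    fun V W U G H K r t a b c h k => gam86_trans V W U G H K r t a b c h k⟩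

end Pool.Agent.DQE
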