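import Pool.Agent.DQE.St

set_option autoImplicit false

/-!
# First greedy phase with rounds
-/

namespace Pool.Agent.DQE

open Pool.Agent.BRW Pool.Agent.WLE

open Classical in
theorem gr1 (hMON : StmtMON) (hTCP : StmtTCP) : StmtGR1 := by
  intro V _ G K m hK
  set N : ℕ := 2 * Fintype.card V / K with hN
  have key : ∀ t : ℕ, t ≤ N + 1 →
      (∃ (t' r' : ℕ) (s : Fin t' → V), t' < t ∧ r' ≤ m * t' ∧
        ∀ x, Sq (tc G (r' + m) t' s x) Finset.univ + Num (tc G (r' + m) t' s x) Finset.univ <
          Sq (fib (tc G r' t' s)) Finset.univ + Num (fib (tc G r' t' s)) Finset.univ + K) ∨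
      ∃ s : Fin t → V, (t : ℝ) * K ≤
        Sq (fib (tc G (m * t) t s)) Finset.univ + Num (fib (tc G (m * t) t s)) Finset.univ := by
    intro t
    induction t with
    | zero =>
      intro _
      refine Or.inr ⟨fun i => i.elim0, ?_⟩
      have h0 : (0 : ℝ) ≤ Sq (fib (tc G (m * 0) 0 (fun i => i.elim0))) (Finset.univ : Finset V) :=
        Finset.sum_nonneg fun i _ => Real.sqrt_nonneg _
      have h1 : (0 : ℝ) ≤
          (Num (fib (tc G (m * 0) 0 (fun i => i.elim0))) (Finset.univ : Finset V) : ℝ) :=
        Nat.cast_nonneg _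
      have h2 : ((0 : ℕ) : ℝ) * (K : ℝ) = 0 := by simp
      rw [h2]
      exact add_nonneg h0 h1
    | succ t ih =>
      intro ht
      rcases ih (by omega) with ⟨t', r', s, h1, h1', h2⟩ | ⟨s, hs⟩
      · exact Or.inl ⟨t', r', s, by omega, h1', h2⟩
      · by_cases hT : ∀ x, Sq (tc G (m * t + m) t s x) Finset.univ +
            Num (tc G (m * t + m) t s x) Finset.univ <
          Sq (fib (tc G (m * t) t s)) Finset.univ + Num (fib (tc G (m * t) t s)) Finset.univ + K
        · exact Or.inl ⟨t, m * t, s, by omega, le_rfl, hT⟩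
        · push Not at hT
          obtain ⟨x, hx⟩ := hT
          refine Or.inr ⟨sn s x, ?_⟩
          have he : m * (t + 1) = m * t + m := by ring
          rw [he]
          have hfib : ∀ y y' : V, fib (tc G (m * t + m) (t + 1) (sn s x)) y =
              fib (tc G (m * t + m) (t + 1) (sn s x)) y' →
              tc G (m * t + m) t s x y = tc G (m * t + m) t s x y' := by
            intro y y' h
            obtain ⟨-, -, -, -, -, h6⟩ := hTCP V G (m * t + m) t s
            exact ((h6 x).2 y y').1 h
          obtain ⟨-, h2, h3, -⟩ := hMON V _ _ (fib (tc G (m * t + m) (t + 1) (sn s x)))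
            (tc G (m * t + m) t s x) Finset.univ hfib
          have h2' : (Num (tc G (m * t + m) t s x) (Finset.univ : Finset V) : ℝ) ≤
              (Num (fib (tc G (m * t + m) (t + 1) (sn s x))) (Finset.univ : Finset V) : ℝ) := by
            exact_mod_cast h2
          push_cast
          linarith
  rcases key (N + 1) le_rfl with ⟨t', r', s, h1, h1', h2⟩ | ⟨s, hs⟩
  · exact ⟨t', r', s, by omega, h1'.trans (Nat.mul_le_mul_left m (by omega)), h2⟩
  · exfalso
    obtain ⟨-, -, -, h4, h5, -⟩ := hMON V _ _ (fib (tc G (m * (N + 1)) (N + 1) s))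
      (fib (tc G (m * (N + 1)) (N + 1) s)) Finset.univ (fun y y' h => h)
    have h4' : (Num (fib (tc G (m * (N + 1)) (N + 1) s)) (Finset.univ : Finset V) : ℝ) ≤
        (Fintype.card V : ℝ) := by
      have := h4
      rw [Finset.card_univ] at this
      exact_mod_cast this
    have h5' : Sq (fib (tc G (m * (N + 1)) (N + 1) s)) (Finset.univ : Finset V) ≤
        (Fintype.card V : ℝ) := by
      have := h5
      rw [Finset.card_univ] at this
      exact this
    have h6 : 2 * Fintype.card V < (N + 1) * K := by
      have := Nat.lt_div_mul_add (a := 2 * Fintype.card V) (b := K) (by omega)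
      rw [← hN] at this
      nlinarith
    have h7 : (2 * (Fintype.card V : ℝ)) < ((N + 1 : ℕ) : ℝ) * (K : ℝ) := by exact_mod_cast h6
    linarith

end Pool.Agent.DQE
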