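import Mathlib
import Pool.Agent.DQE.St

set_option autoImplicit false

namespace Pool.Agent.DQE

open Pool.Agent.BRW Pool.Agent.WLE

theorem mem_zip_rev {V W : Type} {t : ℕ} (a : Fin t → V) (b : Fin t → W) (i : Fin t) :
    (a i, b i) ∈ (List.ofFn a).reverse.zip (List.ofFn b).reverse := by
  rw [List.mem_iff_getElem]
  have hi := i.2
  refine ⟨t - 1 - i.1, ?_, ?_⟩
  · simp only [List.length_zip, List.length_reverse, List.length_ofFn]
    omega
  · simp only [List.getElem_zip, List.getElem_reverse, List.getElem_ofFn, List.length_ofFn]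
    have e : t - 1 - (t - 1 - i.1) = i.1 := by omega
    simp only [e]

theorem ofFn_sn {V : Type} {t : ℕ} (a : Fin t → V) (v : V) :
    (List.ofFn (sn a v)).reverse = v :: (List.ofFn a).reverse := by
  have h : List.ofFn (sn a v) = (List.ofFn a).concat v := by
    unfold sn
    rw [List.ofFn_succ_last]
    simp
  rw [h]
  simp

/-- The definition-free form of `DId` with lists. -/
theorem lfr {V : Type} (k : ℕ) (G : SimpleGraph V) (h : DId k G) :
    ∀ (W : Type) [Fintype W] (H : SimpleGraph W),
      (∃ R : List V → List W → Prop, R [] [] ∧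
        (∀ a b, R a b → ∀ p ∈ a.zip b, ∀ q ∈ a.zip b,
          (p.1 = q.1 ↔ p.2 = q.2) ∧ (G.Adj p.1 q.1 ↔ H.Adj p.2 q.2)) ∧
        (∀ a b, R a b → a.length < k → ∃ f : V ≃ W, ∀ v : V, R (v :: a) (f v :: b))) →
      Nonempty (G ≃g H) := by
  intro W _ H ⟨R, h0, h1, h2⟩
  apply h W H
  have key : ∀ (j t : ℕ) (a : Fin t → V) (b : Fin t → W), j + t = k →
      R (List.ofFn a).reverse (List.ofFn b).reverse → Bj G H j t a b := by
    intro j
    induction j with
    | zero =>
      intro t a b _ hR i j
      exact h1 _ _ hR _ (mem_zip_rev a b i) _ (mem_zip_rev a b j)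
    | succ j ih =>
      intro t a b hj hR
      refine ⟨fun i j => h1 _ _ hR _ (mem_zip_rev a b i) _ (mem_zip_rev a b j), ?_⟩
      obtain ⟨f, hf⟩ := h2 _ _ hR (by
        simp only [List.length_reverse, List.length_ofFn]
        omega)
      refine ⟨f, fun v => ih (t + 1) _ _ (by omega) ?_⟩
      rw [ofFn_sn, ofFn_sn]
      exact hf v
  refine key k 0 _ _ (by omega) ?_
  simpa using h0

end Pool.Agent.DQE
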