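import Mathlib
import Pool.Agent.BRW.St
import Pool.Agent.WLE.St
import Pool.Agent.DQE.St

set_option autoImplicit false

/-!
# The minimum of the potential (module MII)
-/

namespace Pool.Agent.DQE

open Pool.Agent.BRW Pool.Agent.WLE

theorem mii (hMON : StmtMON) (hTCP : StmtTCP) (hQMO : StmtQMO) : StmtMII := by
  intro V _ G t₀ q₀ s₀ A K B hK hB hA
  classical
  have hB0 : 0 < B := hB
  have hNumn : ∀ (κ : Type) (f : V → κ), Num f A ≤ Fintype.card V := fun κ f =>
    ((hMON V κ κ f f A (fun _ _ h => h)).2.2.2.1).trans (Finset.card_le_univ A)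
  have hPhin : ∀ (κ : Type) (f : V → κ), Phi f A ≤ Fintype.card V := fun κ f =>
    ((hMON V κ κ f f A (fun _ _ h => h)).2.2.2.2.2).trans (Finset.card_le_univ A)
  have hQfn : ∀ (κ : Type) (c : V → V → κ), Qf c A B ≤ B * Fintype.card V := by
    intro κ c
    have h1 : Qf c A B ≤ Num (fib c) A * B := by
      unfold Qf WLE.Num
      rw [← smul_eq_mul, ← Finset.sum_const]
      exact Finset.sum_le_sum fun i _ => min_le_right _ _
    calc Qf c A B ≤ Num (fib c) A * B := h1
      _ ≤ Fintype.card V * B := Nat.mul_le_mul_right _ (hNumn κ _)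
      _ = B * Fintype.card V := Nat.mul_comm _ _
  -- the potential
  obtain ⟨Ψ, hΨ⟩ : ∃ Ψ : (t q : ℕ) → (Fin t → V) → ℕ, ∀ t q s, Ψ t q s =
      8 * K * B * (t + q) + K * B * Phi (fib (tc G q t s)) A +
        16 * B * (Fintype.card V - Num (fib (tc G q t s)) A) +
        8 * (B * Fintype.card V - Qf (tc G q t s) A B) := ⟨fun t q s => _, fun _ _ _ => rfl⟩
  have hex : ∃ m, ∃ (t q : ℕ) (s : Fin t → V),
      Ref (tc G q t s) (tc G q₀ t₀ s₀) ∧ Ψ t q s = m :=
    ⟨_, t₀, q₀, s₀, fun _ _ _ _ h => h, rfl⟩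
  obtain ⟨t, q, s, hR, hm⟩ := Nat.find_spec hex
  have hmin : ∀ (t' q' : ℕ) (s' : Fin t' → V), Ref (tc G q' t' s') (tc G q₀ t₀ s₀) →
      Ψ t q s ≤ Ψ t' q' s' := by
    intro t' q' s' h
    rw [hm]
    exact Nat.find_min' hex ⟨t', q', s', h, rfl⟩
  have hcmp : ∀ (t' q' : ℕ) (s' : Fin t' → V), Ref (tc G q' t' s') (tc G q₀ t₀ s₀) →
      8 * K * B * (t + q) + K * B * Phi (fib (tc G q t s)) A +
        16 * B * Num (fib (tc G q' t' s')) A + 8 * Qf (tc G q' t' s') A B ≤
      8 * K * B * (t' + q') + K * B * Phi (fib (tc G q' t' s')) A +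
        16 * B * Num (fib (tc G q t s)) A + 8 * Qf (tc G q t s) A B := by
    intro t' q' s' h
    have hk := hmin t' q' s' h
    rw [hΨ, hΨ] at hk
    have e1 := Nat.sub_add_cancel (hNumn _ (fib (tc G q t s)))
    have e2 := Nat.sub_add_cancel (hNumn _ (fib (tc G q' t' s')))
    have e3 := Nat.sub_add_cancel (hQfn _ (tc G q t s))
    have e4 := Nat.sub_add_cancel (hQfn _ (tc G q' t' s'))
    generalize Fintype.card V - Num (fib (tc G q t s)) A = a at hk e1
    generalize Fintype.card V - Num (fib (tc G q' t' s')) A = a' at hk e2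
    generalize B * Fintype.card V - Qf (tc G q t s) A B = b at hk e3
    generalize B * Fintype.card V - Qf (tc G q' t' s') A B = b' at hk e4
    have e5 : B * a + B * Num (fib (tc G q t s)) A =
        B * a' + B * Num (fib (tc G q' t' s')) A := by
      rw [← Nat.mul_add, ← Nat.mul_add, e1, e2]
    linarith
  have hcl : Cl (tc G q t s) A := fun x y h hx => hA x y (hR x x y y h) hx
  obtain ⟨hCS, hStp, -, -, -, hTC⟩ := hTCP V G q t s
  refine ⟨t, q, s, hR, ?_, ?_, ?_⟩
  · -- comparison with the start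
    have hk := hmin t₀ q₀ s₀ fun _ _ _ _ h => h
    rw [hΨ, hΨ] at hk
    have h1 : B * (Fintype.card V - Num (fib (tc G q₀ t₀ s₀)) A) ≤ B * Fintype.card V :=
      Nat.mul_le_mul_left _ (Nat.sub_le _ _)
    have h2 : B * Fintype.card V - Qf (tc G q₀ t₀ s₀) A B ≤ B * Fintype.card V := Nat.sub_le _ _
    have h3 : K * B * Phi (fib (tc G q₀ t₀ s₀)) A ≤ K * B * Fintype.card V :=
      Nat.mul_le_mul_left _ (hPhin _ _)
    have h4 : 0 ≤ K * B * Phi (fib (tc G q t s)) A := Nat.zero_le _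
    have h5 : 0 ≤ 16 * B * (Fintype.card V - Num (fib (tc G q t s)) A) := Nat.zero_le _
    have h6 : 0 ≤ 8 * (B * Fintype.card V - Qf (tc G q t s) A B) := Nat.zero_le _
    refine le_of_mul_le_mul_left (?_ : B * _ ≤ B * _) hB0
    generalize Fintype.card V - Num (fib (tc G q₀ t₀ s₀)) A = a at hk h1
    generalize B * Fintype.card V - Qf (tc G q₀ t₀ s₀) A B = b at hk h2
    generalize 16 * B * (Fintype.card V - Num (fib (tc G q t s)) A) = a' at hk h5
    generalize 8 * (B * Fintype.card V - Qf (tc G q t s) A B) = b' at hk h6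
    generalize K * B * Phi (fib (tc G q t s)) A = p' at hk h4
    nlinarith
  · -- comparison with one more parameter
    intro x
    have hRx : Ref (tc G q (t + 1) (sn s x)) (tc G q t s) := (hTC x).1
    have hk := hcmp (t + 1) q (sn s x) fun a b a' b' h => hR _ _ _ _ (hRx _ _ _ _ h)
    have hQ := hQMO V _ _ (tc G q t s) (tc G q (t + 1) (sn s x)) A B hRx hcl
    have hm1 := hMON V _ _ (fib (tc G q (t + 1) (sn s x))) (tc G q t s x) A
      (fun y y' h => ((hTC x).2 y y').1 h)
    have hm2 := hMON V _ _ (tc G q t s x) (fib (tc G q (t + 1) (sn s x))) A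
      (fun y y' h => ((hTC x).2 y y').2 h)
    have hP : Phi (fib (tc G q (t + 1) (sn s x))) A = Phi (tc G q t s x) A :=
      le_antisymm hm1.1 hm2.1
    have hN : Num (fib (tc G q (t + 1) (sn s x))) A = Num (tc G q t s x) A :=
      le_antisymm hm2.2.1 hm1.2.1
    rw [hP, hN] at hk
    rw [hN] at hQ
    refine le_of_mul_le_mul_left (?_ : B * _ ≤ B * _) hB0
    nlinarith
  · -- comparison with two more rounds
    have hStp' : Ref (tc G (q + 2) t s) (tc G q t s) := fun a b a' b' h =>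
      hStp.1 _ _ _ _ ((hTCP V G (q + 1) t s).2.1.1 _ _ _ _ h)
    have hk := hcmp t (q + 2) s fun a b a' b' h => hR _ _ _ _ (hStp' _ _ _ _ h)
    have hQ := hQMO V _ _ (tc G q t s) (tc G (q + 2) t s) A B hStp' hcl
    have hm1 := hMON V _ _ (fib (tc G (q + 2) t s)) (fib (tc G q t s)) A
      (fun y y' h => hStp' _ _ _ _ h)
    have hP : K * B * Phi (fib (tc G (q + 2) t s)) A ≤ K * B * Phi (fib (tc G q t s)) A :=
      Nat.mul_le_mul_left _ hm1.1
    have hN : B * Num (fib (tc G q t s)) A ≤ B * Num (fib (tc G (q + 2) t s)) A :=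
      Nat.mul_le_mul_left _ hm1.2.1
    constructor
    · refine le_of_mul_le_mul_left (?_ : B * _ ≤ B * _) hB0
      nlinarith
    · nlinarith

end Pool.Agent.DQE
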