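import Mathlib
import Pool.Agent.DQE.St
import Pool.Agent.WLE.MNmd

set_option autoImplicit false

/-!
The nucleus: everything for coherent configurations (module DQE_NUC, helper51).
-/

namespace Pool.Agent.DQE

open Pool.Agent.BRW Pool.Agent.WLE

theorem nuc (hMON : StmtMON) (hKEY : StmtKEY) (hNMD : StmtNMD) (hAPP : StmtAPP)
    (hCMB : StmtCMB) : StmtNUC := by
  classical
  intro V κ _ c K C M hc hK hM hC hpot
  have hcl : Cl c (Finset.univ : Finset V) := fun _ _ _ _ => Finset.mem_univ _
  have hCu : ∀ x ∈ (Finset.univ : Finset V), Nat.card {y : V // c y y = c x x} ≤ C :=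
    fun x _ => hC x
  -- (b) at most `K` dependent fibres
  have hT1 : ∀ x ∈ (Finset.univ : Finset V), ∀ T : Finset V,
      (∀ y ∈ T, y ∈ (Finset.univ : Finset V) ∧ Dep c x y) → Dif c T → T.card ≤ K := by
    intro x hx T hT hdif
    have h1 := hNMD V κ c Finset.univ hc hcl x hx T hT hdif
    have h2 := (hMON V κ κ (c x) (fib c) Finset.univ (fun y y' e => row_fib hc e)).1
    have h3 := hpot x
    have h4 : K * Phi (c x) Finset.univ ≤ K * Phi (fib c) Finset.univ := Nat.mul_le_mul_left K h2
    omega
  -- (a) not three complex dependent fibres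
  have h31 : ∀ x ∈ (Finset.univ : Finset V), ¬ Simple c x → ∀ g : Fin 3 → V,
      (∀ i, g i ∈ (Finset.univ : Finset V) ∧ ¬ Simple c (g i) ∧ Dep c x (g i)) →
      ∃ i j, i ≠ j ∧ c (g i) (g i) = c (g j) (g j) := by
    intro x hx hs g hg
    by_contra hcon
    push Not at hcon
    have h1 := hKEY V κ c Finset.univ hc hcl x hx hs g hg hcon
    have h2 := hNMD V κ c Finset.univ hc hcl x hx {g 0}
      (by
        intro y hy
        rw [Finset.mem_singleton] at hy
        rw [hy]
        exact ⟨Finset.mem_univ _, (hg 0).2.2⟩)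
      (by
        intro y hy y' hy' hne
        rw [Finset.mem_singleton] at hy hy'
        exact absurd (hy.trans hy'.symm) hne)
    rw [Finset.card_singleton] at h2
    have h3 := hpot x
    have h4 : K * (Phi (c x) Finset.univ + 8) ≤ K * Phi (fib c) Finset.univ :=
      Nat.mul_le_mul_left K h1
    rw [Nat.mul_add] at h4
    omega
  obtain ⟨P, -, hPcl, -, hPcard, hPM⟩ := hAPP V κ c Finset.univ C M hc hcl hM hCu h31
  refine ⟨P, hPcl, hPcard, fun R hsymm hR x => ?_⟩
  exact hCMB V κ c R Finset.univ P C M K hc hsymm hcl hPcl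
    (fun a b _ hab => ⟨Finset.mem_univ _, hR a b hab⟩) hCu hT1 hPM x (Finset.mem_univ x)

end Pool.Agent.DQE
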