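import Mathlib
import Pool.Agent.DQE.St

set_option autoImplicit false

namespace Pool.Agent.DQE

open Pool.Agent.BRW Pool.Agent.WLE

theorem pad (hTCP : StmtTCP) : StmtPAD := by
  intro V G q t s P
  have key : ∀ (l : List V) (n : ℕ), l.length = n →
      ∃ a : Fin (t + n) → V, Ref (tc G q (t + n) a) (tc G q t s) ∧
      ∀ p ∈ l, ∀ y y' : V, tc G q (t + n) a y y = tc G q (t + n) a y' y' →
        tc G q t s p y = tc G q t s p y' := by
    intro l
    induction l with
    | nil =>
      intro n hn
      simp only [List.length_nil] at hn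
      subst hn
      exact ⟨s, fun x y x' y' h => h, by simp⟩
    | cons p l ih =>
      intro n hn
      obtain ⟨a, ha, hb⟩ := ih l.length rfl
      simp only [List.length_cons] at hn
      subst hn
      obtain ⟨hr, hp⟩ := (hTCP V G q (t + l.length) a).2.2.2.2.2 p
      refine ⟨sn a p, fun x y x' y' h => ha _ _ _ _ (hr _ _ _ _ h), ?_⟩
      intro p' hp' y y' h
      rcases List.mem_cons.1 hp' with rfl | h2
      · exact ha _ _ _ _ ((hp y y').1 h)
      · exact hb p' h2 y y' (hr _ _ _ _ h)
  obtain ⟨a, ha, hb⟩ := key P.toList P.card (Finset.length_toList P)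
  exact ⟨a, ha, fun p hp => hb p (Finset.mem_toList.2 hp)⟩

end Pool.Agent.DQE
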