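import Mathlib
import Pool.Agent.DQE.St

/-!
# Module QMO of the project DQE: the truncated splitting potential is monotone
-/

set_option autoImplicit false

namespace Pool.Agent.DQE

open Pool.Agent.BRW Pool.Agent.WLE

namespace QMO

open Classical in
/-- A finer function has at least as many values. -/
theorem num_le {V κ κ' : Type} (f : V → κ) (g : V → κ') (X : Finset V)
    (h : ∀ y y', g y = g y' → f y = f y') : WLE.Num f X ≤ WLE.Num g X := by
  unfold WLE.Num
  rcases isEmpty_or_nonempty V with hV | hV
  · have hX : X = ∅ := Finset.eq_empty_of_isEmpty X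
    rw [hX]
    simp
  -- choose a representative in `X` of every value of `f`
  have hch : ∀ i ∈ X.image f, ∃ y, y ∈ X ∧ f y = i := by
    intro i hi
    rw [Finset.mem_image] at hi
    exact hi
  choose! r hr using hch
  apply Finset.card_le_card_of_injOn (fun i => g (r i))
  · intro i hi
    have := hr i hi
    exact Finset.mem_coe.mpr (Finset.mem_image_of_mem g this.1)
  · intro i hi j hj hij
    have h1 := hr i hi
    have h2 := hr j hj
    rw [← h1.2, ← h2.2]
    exact h _ _ hij

end QMO

open Classical in
/-- **QMO**. -/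
theorem qmo (hTCH : StmtTCH) : StmtQMO := by
  intro V κ κ' _ c c' A B hRef _
  rcases isEmpty_or_nonempty V with hV | hV
  · have hA : A = ∅ := Finset.eq_empty_of_isEmpty A
    subst hA
    unfold Qf WLE.Num
    simp
  have hfg : ∀ y y', fib c' y = fib c' y' → fib c y = fib c y' := fun y y' h => hRef y y y' y' h
  have h1 := (hTCH V κ κ' (fib c') (fib c) A hfg).1
  set S : Finset κ := (A.image (fib c)).filter
    (fun i => ∃ y ∈ A, ∃ y' ∈ A, fib c y = i ∧ fib c y' = i ∧ fib c' y ≠ fib c' y') with hS
  set U : Finset κ := (A.image (fib c)).filter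
    (fun i => ¬ ∃ y ∈ A, ∃ y' ∈ A, fib c y = i ∧ fib c y' = i ∧ fib c' y ≠ fib c' y') with hU
  have hch : ∀ i ∈ A.image (fib c), ∃ y, y ∈ A ∧ fib c y = i := by
    intro i hi
    rw [Finset.mem_image] at hi
    exact hi
  choose! r hr using hch
  have hsum : Qf c A B = ∑ i ∈ S, min (tau c A i) B + ∑ i ∈ U, min (tau c A i) B := by
    unfold Qf
    rw [hS, hU, Finset.sum_filter_add_sum_filter_not]
  have hSle : ∑ i ∈ S, min (tau c A i) B ≤ S.card * B := by
    calc ∑ i ∈ S, min (tau c A i) B ≤ ∑ _i ∈ S, B :=
          Finset.sum_le_sum (fun i _ => min_le_right _ _)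
      _ = S.card * B := by rw [Finset.sum_const, smul_eq_mul]
  have hUle : ∑ i ∈ U, min (tau c A i) B ≤ Qf c' A B := by
    have hinj : Set.InjOn (fun i => fib c' (r i)) (U : Set κ) := by
      intro i hi j hj hij
      have hi' : i ∈ A.image (fib c) := (Finset.mem_filter.mp (Finset.mem_coe.mp hi)).1
      have hj' : j ∈ A.image (fib c) := (Finset.mem_filter.mp (Finset.mem_coe.mp hj)).1
      rw [← (hr i hi').2, ← (hr j hj').2]
      exact hfg _ _ hij
    have hsub : U.image (fun i => fib c' (r i)) ⊆ A.image (fib c') := by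
      intro j hj
      rw [Finset.mem_image] at hj
      obtain ⟨i, hi, rfl⟩ := hj
      have hi' : i ∈ A.image (fib c) := (Finset.mem_filter.mp hi).1
      exact Finset.mem_image_of_mem _ (hr i hi').1
    have hpt : ∀ i ∈ U, min (tau c A i) B ≤ min (tau c' A (fib c' (r i))) B := by
      intro i hi
      have hi' := Finset.mem_filter.mp hi
      have hri := hr i hi'.1
      have hcl : cl c A i = cl c' A (fib c' (r i)) := by
        ext y
        unfold cl
        rw [Finset.mem_filter, Finset.mem_filter]
        constructor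
        · rintro ⟨hy, hyi⟩
          refine ⟨hy, ?_⟩
          by_contra hne
          exact hi'.2 ⟨y, hy, r i, hri.1, hyi, hri.2, hne⟩
        · rintro ⟨hy, hyi⟩
          refine ⟨hy, ?_⟩
          have := hfg y (r i) hyi
          rw [hri.2] at this
          exact this
      have htau : tau c A i ≤ tau c' A (fib c' (r i)) := by
        unfold tau
        rw [hcl]
        apply Finset.sum_le_sum
        intro x _
        exact Nat.sub_le_sub_right (QMO.num_le (c x) (c' x) _ (fun y y' h => hRef x y x y' h)) 1
      exact min_le_min htau le_rfl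
    calc ∑ i ∈ U, min (tau c A i) B ≤ ∑ i ∈ U, min (tau c' A (fib c' (r i))) B :=
          Finset.sum_le_sum hpt
      _ = ∑ j ∈ U.image (fun i => fib c' (r i)), min (tau c' A j) B := by
          rw [Finset.sum_image hinj]
      _ ≤ Qf c' A B := by
          unfold Qf
          exact Finset.sum_le_sum_of_subset hsub
  have h2 : B * (S.card + WLE.Num (fib c) A) ≤ B * WLE.Num (fib c') A := Nat.mul_le_mul_left B h1
  rw [hsum]
  nlinarith [h2, hSle, hUle]

end Pool.Agent.DQE
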