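import Pool.Agent.DQE.St

set_option autoImplicit false

/-!
# DQE, module STB (helper14): few unstable fibres
-/

namespace Pool.Agent.DQE

open Pool.Agent.BRW Pool.Agent.WLE Finset

theorem stb (hTCH : StmtTCH) (hTAU : StmtTAU) (hSTC : StmtSTC) : StmtSTB := by
  classical
  intro V κ κ₁ κ₂ _ _ c c₁ c₂ A K C B hc hc1 hc2 h1 h2 hA hN hC hB hN2 hQ
  have hR2 : Ref c₂ c₁ := h2.1
  have hR : Ref c₂ c := fun x y x' y' h => h1.1 _ _ _ _ (h2.1 _ _ _ _ h)
  have hfr : ∀ y y' : V, fib c₂ y = fib c₂ y' → fib c y = fib c y' := fun y y' h => hR _ _ _ _ h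
  let P1 : κ → Prop := fun i => ∀ y ∈ A, ∀ y' ∈ A, fib c y = i → fib c y' = i →
    fib c₂ y = fib c₂ y'
  let P2 : κ → Prop := fun i => ∀ x ∈ A, ∀ y ∈ A, ∀ y' ∈ A, fib c y = i → fib c y' = i →
    c x y = c x y' → c₂ x y = c₂ x y'
  let S : Finset V := A.filter (fun y => P1 (fib c y) ∧ P2 (fib c y))
  have hCl : Cl c S := by
    intro x y hxy hx
    rw [mem_filter] at hx ⊢
    have e : fib c x = fib c y := hxy
    rw [← e]
    exact ⟨hA x y hxy hx.1, hx.2⟩
  refine ⟨S, filter_subset _ _, hCl, ?_, ?_⟩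
  swap
  · refine hSTC V κ κ₁ κ₂ c c₁ c₂ S hc hc1 hc2 h1 h2 hCl ?_ ?_
    · intro x hx y hxy
      rw [mem_filter] at hx
      exact hx.2.1 x hx.1 y (hA x y hxy hx.1) rfl hxy.symm
    · intro x hx y hy y' hy' h
      rw [mem_filter] at hx hy hy'
      have e := (hc.val x y x y' h).2.1
      exact hy.2.2 x hx.1 y hy.1 y' hy'.1 rfl e.symm h
  -- the bad fibres
  set I : Finset κ := A.image (fib c) with hI
  set I1 : Finset κ := I.filter (fun i => ¬ P1 i) with hI1
  set J : Finset κ := I.filter (fun i => P1 i) with hJ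
  set I2 : Finset κ := J.filter (fun i => ¬ P2 i) with hI2
  have hc1' : I1.card ≤ 2 * K := by
    have t1 := (hTCH V κ κ₂ (fib c₂) (fib c) A hfr).1
    have e : I1 = (A.image (fib c)).filter (fun i => ∃ y ∈ A, ∃ y' ∈ A, fib c y = i ∧
        fib c y' = i ∧ fib c₂ y ≠ fib c₂ y') := by
      apply filter_congr
      intro i _
      show (¬ ∀ y ∈ A, ∀ y' ∈ A, fib c y = i → fib c y' = i → fib c₂ y = fib c₂ y') ↔ _
      push Not
      rfl
    rw [e]
    omega
  have hc2' : I2.card ≤ 4 * K * B := by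
    rcases A.eq_empty_or_nonempty with h0 | ⟨a0, ha0⟩
    · have : I2 = ∅ := by
        apply Finset.eq_empty_of_forall_notMem
        intro i hi
        rw [hI2, mem_filter, hJ, mem_filter, hI, mem_image] at hi
        obtain ⟨⟨⟨a, ha, -⟩, -⟩, -⟩ := hi
        rw [h0] at ha
        exact absurd ha (Finset.notMem_empty a)
      rw [this]
      simp
    -- the index of the same fibre for `c₂`
    let φ : κ → κ₂ := fun i => if h : ∃ y ∈ A, fib c y = i then fib c₂ h.choose else fib c₂ a0
    have hφ : ∀ i ∈ J, ∀ y ∈ A, fib c y = i → fib c₂ y = φ i := by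
      intro i hi y hy hyi
      rw [hJ, mem_filter] at hi
      have h : ∃ y ∈ A, fib c y = i := ⟨y, hy, hyi⟩
      show fib c₂ y = dite _ _ _
      rw [dif_pos h]
      exact hi.2 y hy _ h.choose_spec.1 hyi h.choose_spec.2
    have hex : ∀ i ∈ J, ∃ y ∈ A, fib c y = i := by
      intro i hi
      rw [hJ, mem_filter, hI, mem_image] at hi
      exact hi.1
    have hmaps : J.image φ ⊆ A.image (fib c₂) := by
      intro j hj
      rw [mem_image] at hj
      obtain ⟨i, hi, rfl⟩ := hj
      obtain ⟨y, hy, hyi⟩ := hex i hi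
      rw [mem_image]
      exact ⟨y, hy, hφ i hi y hy hyi⟩
    have hinj : Set.InjOn φ (J : Set κ) := by
      intro i hi i' hi' h
      have hi0 : i ∈ J := hi
      have hi0' : i' ∈ J := hi'
      obtain ⟨y, hy, hyi⟩ := hex i hi0
      obtain ⟨y', hy', hyi'⟩ := hex i' hi0'
      have e1 := hφ i hi0 y hy hyi
      have e2 := hφ i' hi0' y' hy' hyi'
      have e3 : fib c y = fib c y' := hfr y y' (by rw [e1, e2, h])
      rw [← hyi, ← hyi', e3]
    have hle : ∑ i ∈ J, min (tau c₂ A (φ i)) B ≤ Qf c₂ A B := by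
      rw [← sum_image (f := fun j => min (tau c₂ A j) B) hinj]
      exact sum_le_sum_of_subset hmaps
    have hterm : ∀ i ∈ J, min (tau c A i) B + (if ¬ P2 i then 1 else 0) ≤
        min (tau c₂ A (φ i)) B := by
      intro i hi
      obtain ⟨y, hy, hyi⟩ := hex i hi
      have hP1 : P1 i := (mem_filter.1 hi).2
      have hF : cl c₂ A (φ i) = cl c A i := by
        ext z
        unfold cl
        rw [mem_filter, mem_filter]
        constructor
        · rintro ⟨hz, e⟩
          refine ⟨hz, ?_⟩
          have e1 : fib c₂ z = fib c₂ y := by rw [hφ i hi y hy hyi]; exact e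
          exact (hfr z y e1).trans hyi
        · rintro ⟨hz, e⟩
          exact ⟨hz, hφ i hi z hz e⟩
      have hnum : ∀ x : V, Num (c x) (cl c A i) ≤ Num (c₂ x) (cl c A i) := by
        intro x
        have := (hTCH V κ κ₂ (c₂ x) (c x) (cl c A i) fun y y' h => hR _ _ _ _ h).1
        omega
      have htau : tau c A i ≤ tau c₂ A (φ i) := by
        unfold tau
        rw [hF]
        exact sum_le_sum fun x _ => Nat.sub_le_sub_right (hnum x) 1
      by_cases hP2 : P2 i
      · rw [if_neg (by simpa using hP2), add_zero]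
        exact min_le_min_right B htau
      · rw [if_pos hP2]
        have hP2' := hP2
        simp only [P2] at hP2'
        push Not at hP2'
        obtain ⟨x, hx, y1, hy1, y2, hy2, e1, e2, e3, e4⟩ := hP2'
        have hstrict : Num (c x) (cl c A i) < Num (c₂ x) (cl c A i) := by
          have t1 := (hTCH V κ κ₂ (c₂ x) (c x) (cl c A i) fun y y' h => hR _ _ _ _ h).1
          have hm1 : y1 ∈ cl c A i := by
            unfold cl
            exact mem_filter.2 ⟨hy1, e1⟩
          have hm2 : y2 ∈ cl c A i := by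
            unfold cl
            exact mem_filter.2 ⟨hy2, e2⟩
          have hpos : 0 < (((cl c A i).image (c x)).filter (fun i' => ∃ y ∈ cl c A i,
              ∃ y' ∈ cl c A i, c x y = i' ∧ c x y' = i' ∧ c₂ x y ≠ c₂ x y')).card := by
            rw [card_pos]
            exact ⟨c x y1, mem_filter.2 ⟨mem_image_of_mem _ hm1, y1, hm1, y2, hm2, rfl, e3.symm,
              e4⟩⟩
          omega
        have hge : 1 ≤ Num (c x) (cl c A i) := by
          unfold Pool.Agent.WLE.Num
          rw [Nat.one_le_iff_ne_zero, ← Nat.pos_iff_ne_zero, card_pos]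
          exact ⟨c x y1, mem_image_of_mem _ (by unfold cl; exact mem_filter.2 ⟨hy1, e1⟩)⟩
        have htau' : tau c A i < tau c₂ A (φ i) := by
          unfold tau
          rw [hF]
          refine sum_lt_sum (fun x _ => Nat.sub_le_sub_right (hnum x) 1) ⟨x, hx, ?_⟩
          omega
        have hT := hTAU V κ κ₁ c c₁ A K C hc h1 hA hN hC y hy (by
          intro z hz
          have hzA : z ∈ A := hA y z hz.symm hy
          have e5 : fib c₂ z = fib c₂ y := hP1 z hzA y hy (hz.trans hyi) hyi
          exact hR2 _ _ _ _ e5)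
        have hyi' : c y y = i := hyi
        rw [hyi'] at hT
        have hlt : tau c A i < B := lt_of_le_of_lt hT hB
        rw [min_eq_left hlt.le, Nat.succ_le_iff, lt_min_iff]
        exact ⟨htau', hlt⟩
    have hsum : ∑ i ∈ J, min (tau c A i) B + I2.card ≤ ∑ i ∈ J, min (tau c₂ A (φ i)) B := by
      rw [hI2, card_filter, ← sum_add_distrib]
      exact sum_le_sum hterm
    have hsplit : Qf c A B = ∑ i ∈ J, min (tau c A i) B + ∑ i ∈ I1, min (tau c A i) B := by
      unfold Qf
      rw [hJ, hI1, sum_filter_add_sum_filter_not]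
    have hb : ∑ i ∈ I1, min (tau c A i) B ≤ I1.card * B := by
      rw [← smul_eq_mul]
      exact sum_le_card_nsmul _ _ _ fun i _ => min_le_right _ _
    have hb2 : I1.card * B ≤ 2 * K * B := Nat.mul_le_mul_right B hc1'
    have : 4 * K * B = 2 * K * B + 2 * K * B := by ring
    omega
  -- the cardinality
  have hmaps : ∀ y ∈ A \ S, fib c y ∈ I1 ∪ I2 := by
    intro y hy
    rw [mem_sdiff] at hy
    have hyI : fib c y ∈ I := mem_image_of_mem _ hy.1
    by_cases hp : P1 (fib c y)
    · have hq : ¬ P2 (fib c y) := fun hq => hy.2 (mem_filter.2 ⟨hy.1, hp, hq⟩)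
      exact mem_union_right _ (mem_filter.2 ⟨mem_filter.2 ⟨hyI, hp⟩, hq⟩)
    · exact mem_union_left _ (mem_filter.2 ⟨hyI, hp⟩)
  have hfin := card_le_mul_card_image_of_maps_to hmaps C (by
    intro b _
    rcases (filter (fun a => fib c a = b) (A \ S)).eq_empty_or_nonempty with h0 | ⟨a, ha⟩
    · rw [h0]
      simp
    · rw [mem_filter, mem_sdiff] at ha
      refine le_trans ?_ (hC a ha.1.1)
      rw [Nat.card_eq_fintype_card, Fintype.card_subtype]
      apply card_le_card
      intro y hy
      rw [mem_filter] at hy ⊢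
      exact ⟨mem_univ _, hy.2.trans ha.2.symm⟩)
  calc (A \ S).card ≤ C * (I1 ∪ I2).card := hfin
    _ ≤ C * (2 * K + 4 * K * B) := Nat.mul_le_mul_left _ ((card_union_le _ _).trans (by omega))
    _ = (2 * K + 4 * K * B) * C := mul_comm _ _

end Pool.Agent.DQE
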