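import Mathlib
import Pool.Agent.DQE.St

set_option autoImplicit false

namespace Pool.Agent.DQE

open Pool.Agent.BRW Pool.Agent.WLE

theorem stc : StmtSTC := by
  intro V κ κ₁ κ₂ _ c c₁ c₂ S hc hc1 hc2 h10 h21 hS h1 h2
  refine ⟨?_, ?_, ?_⟩
  · intro x y z h
    exact Subtype.ext (hc.diag x.1 y.1 z.1 h)
  · intro x y x' y' h
    exact (hc.val x.1 y.1 x'.1 y'.1 h).2.2
  · intro x y x' y' h i j
    obtain ⟨x, hx⟩ := x
    obtain ⟨y, hy⟩ := y
    obtain ⟨x', hx'⟩ := x'
    obtain ⟨y', hy'⟩ := y'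
    simp only at h ⊢
    have hxx : c x x = c x' x' := (hc.val x y x' y' h).1
    have hxx2 : c₂ x x = c₂ x' x' := h1 x hx x' hxx
    obtain ⟨e, he⟩ := h21.2 x x x' x' hxx2
    have e1 : c₁ x y = c₁ x' (e y) := (he y).1
    have e2 : c x y = c x' (e y) := h10.1 _ _ _ _ e1
    have e3 : c x' (e y) = c x' y' := e2.symm.trans h
    have hey : e y ∈ S := by
      have h3 : c y y = c (e y) (e y) := (hc.val x y x' (e y) e2).2.1
      exact hS _ _ h3 hy
    have e4 : c₂ x' (e y) = c₂ x' y' := h2 x' hx' (e y) hey y' hy' e3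
    have e5 : c₁ x' (e y) = c₁ x' y' := h21.1 _ _ _ _ e4
    obtain ⟨f, hf⟩ := h10.2 x y x' y' (e1.trans e5)
    have hfS : ∀ z, z ∈ S ↔ f z ∈ S := by
      intro z
      have h3 : c z z = c (f z) (f z) := (hc.val x z x' (f z) (hf z).1).2.1
      exact ⟨fun hz => hS _ _ h3 hz, fun hz => hS _ _ h3.symm hz⟩
    refine Nat.card_congr ⟨fun z => ⟨⟨f z.1.1, (hfS z.1.1).1 z.1.2⟩, ?_⟩,
      fun z => ⟨⟨f.symm z.1.1, ?_⟩, ?_⟩, ?_, ?_⟩
    · have h4 := hf z.1.1
      have h5 := z.2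
      simp only at h5 ⊢
      rw [← h4.1, ← h4.2]
      exact h5
    · have h4 := (hfS (f.symm z.1.1)).2
      rw [Equiv.apply_symm_apply] at h4
      exact h4 z.1.2
    · have h4 := hf (f.symm z.1.1)
      rw [Equiv.apply_symm_apply] at h4
      have h5 := z.2
      simp only at h5 ⊢
      rw [h4.1, h4.2]
      exact h5
    · intro z
      apply Subtype.ext
      apply Subtype.ext
      exact f.symm_apply_apply z.1.1
    · intro z
      apply Subtype.ext
      apply Subtype.ext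
      exact f.apply_symm_apply z.1.1

end Pool.Agent.DQE
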