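import Mathlib
import Pool.Agent.DQE.St

set_option autoImplicit false

/-!
# SUB: restriction to a subset
-/

namespace Pool.Agent.DQE

open Pool.Agent.BRW Pool.Agent.WLE

namespace Sub

open Classical in
theorem image_restr {V κ : Type} (h : V → κ) (S : Finset V) :
    (Finset.univ : Finset {v : V // v ∈ S}).image (fun y : {v : V // v ∈ S} => h y.1) =
      S.image h := by
  ext i
  simp only [Finset.mem_image, Finset.mem_univ, true_and]
  constructor
  · rintro ⟨y, hy⟩
    exact ⟨y.1, y.2, hy⟩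
  · rintro ⟨y, hy, hi⟩
    exact ⟨⟨y, hy⟩, hi⟩

open Classical in
theorem cs_restr {V κ : Type} (h : V → κ) (S : Finset V) (i : κ) :
    cs (fun y : {v : V // v ∈ S} => h y.1) Finset.univ i = cs h S i := by
  unfold cs
  refine Finset.card_bij (fun y _ => y.1) ?_ ?_ ?_
  · intro y hy
    exact Finset.mem_filter.mpr ⟨y.2, (Finset.mem_filter.mp hy).2⟩
  · intro y _ y' _ hyy
    exact Subtype.ext hyy
  · intro y hy
    obtain ⟨h1, h2⟩ := Finset.mem_filter.mp hy
    exact ⟨⟨y, h1⟩, Finset.mem_filter.mpr ⟨Finset.mem_univ _, h2⟩, rfl⟩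

open Classical in
theorem phi_restr {V κ : Type} (h : V → κ) (S : Finset V) :
    Phi (fun y : {v : V // v ∈ S} => h y.1) Finset.univ = Phi h S := by
  unfold Phi
  rw [← image_restr h S]
  refine Finset.sum_congr ?_ ?_
  · congr!
  · intro i _
    rw [cs_restr h S i]

open Classical in
theorem num_restr {V κ : Type} (h : V → κ) (S : Finset V) :
    Num (fun y : {v : V // v ∈ S} => h y.1) Finset.univ = Num h S := by
  unfold WLE.Num
  rw [← image_restr h S]

open Classical in
theorem image_split {V κ : Type} (h : V → κ) (A S : Finset V) (hSA : S ⊆ A) :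
    A.image h = S.image h ∪ (A \ S).image h := by
  rw [← Finset.image_union, Finset.union_sdiff_of_subset hSA]

open Classical in
theorem image_disj {V κ : Type} (h : V → κ) (A S : Finset V)
    (hS : ∀ y y', h y = h y' → y ∈ S → y' ∈ S) :
    Disjoint (S.image h) ((A \ S).image h) := by
  rw [Finset.disjoint_left]
  intro i hi hi'
  obtain ⟨y, hy, rfl⟩ := Finset.mem_image.mp hi
  obtain ⟨y', hy', h2⟩ := Finset.mem_image.mp hi'
  exact (Finset.mem_sdiff.mp hy').2 (hS y y' h2.symm hy)

open Classical in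
theorem cs_in {V κ : Type} (h : V → κ) (A S : Finset V) (hSA : S ⊆ A)
    (hS : ∀ y y', h y = h y' → y ∈ S → y' ∈ S) (i : κ) (hi : i ∈ S.image h) :
    cs h A i = cs h S i := by
  obtain ⟨y, hy, rfl⟩ := Finset.mem_image.mp hi
  unfold cs
  congr 1
  ext z
  simp only [Finset.mem_filter]
  constructor
  · rintro ⟨_, h2⟩
    exact ⟨hS y z h2.symm hy, h2⟩
  · rintro ⟨h1, h2⟩
    exact ⟨hSA h1, h2⟩

open Classical in
theorem cs_out {V κ : Type} (h : V → κ) (A S : Finset V)
    (hS : ∀ y y', h y = h y' → y ∈ S → y' ∈ S) (i : κ) (hi : i ∈ (A \ S).image h) :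
    cs h A i = cs h (A \ S) i := by
  obtain ⟨y, hy, rfl⟩ := Finset.mem_image.mp hi
  unfold cs
  congr 1
  ext z
  simp only [Finset.mem_filter, Finset.mem_sdiff]
  constructor
  · rintro ⟨h1, h2⟩
    exact ⟨⟨h1, fun hz => (Finset.mem_sdiff.mp hy).2 (hS z y h2 hz)⟩, h2⟩
  · rintro ⟨⟨h1, _⟩, h2⟩
    exact ⟨h1, h2⟩

open Classical in
theorem phi_split {V κ : Type} (h : V → κ) (A S : Finset V) (hSA : S ⊆ A)
    (hS : ∀ y y', h y = h y' → y ∈ S → y' ∈ S) :
    Phi h A = Phi h S + Phi h (A \ S) := by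
  unfold Phi
  rw [image_split h A S hSA, Finset.sum_union (image_disj h A S hS)]
  congr 1
  · refine Finset.sum_congr rfl ?_
    intro i hi
    rw [cs_in h A S hSA hS i hi]
  · refine Finset.sum_congr rfl ?_
    intro i hi
    rw [cs_out h A S hS i hi]

open Classical in
theorem num_split {V κ : Type} (h : V → κ) (A S : Finset V) (hSA : S ⊆ A)
    (hS : ∀ y y', h y = h y' → y ∈ S → y' ∈ S) :
    Num h A = Num h S + Num h (A \ S) := by
  unfold WLE.Num
  rw [image_split h A S hSA, Finset.card_union_of_disjoint (image_disj h A S hS)]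

end Sub

theorem sub (hMON : StmtMON) : StmtSUB := by
  classical
  intro V κ κ' _ f g A S hSA hfg hS
  have hSf : ∀ y y', f y = f y' → y ∈ S → y' ∈ S := fun y y' h => hS y y' (hfg y y' h)
  obtain ⟨m1, m2, _⟩ := hMON V κ' κ f g (A \ S) hfg
  rw [Sub.phi_restr g S, Sub.phi_restr f S, Sub.num_restr f S, Sub.num_restr g S,
    Sub.phi_split f A S hSA hSf, Sub.phi_split g A S hSA hS,
    Sub.num_split f A S hSA hSf, Sub.num_split g A S hSA hS]
  constructor <;> omega

end Pool.Agent.DQE
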