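import Mathlib
import Pool.Agent.DQE.Defs
import Pool.Agent.DQE.St

set_option autoImplicit false

/-!
# Module TAU: an element of a stable fibre is split by few rows (helper69, for helper92)
-/

namespace Pool.Agent.DQE

open Pool.Agent.BRW Pool.Agent.WLE

namespace MTau

/-- If the row of `x` splits the (stable) fibre of `y`, then the row of `y` splits the fibre of
`x`. -/
theorem claim {V κ κ' : Type} {c : V → V → κ} {c' : V → V → κ'} (hCS : CS c) (hStp : Stp c' c)
    (y : V) (hconst : ∀ z, c z z = c y y → c' z z = c' y y) (x z₁ z₂ : V)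
    (h1 : c z₁ z₁ = c y y) (h2 : c z₂ z₂ = c y y) (hne : c x z₁ ≠ c x z₂) :
    ∃ w, c w w = c x x ∧ c y w ≠ c y x := by
  by_contra hcon
  push Not at hcon
  have key : ∀ z, c z z = c y y → c x z = c x y := by
    intro z hz
    obtain ⟨e, he⟩ := hStp.2 z z y y (hconst z hz)
    have h3 : c z x = c y (e x) := (he x).1
    have h4 : c x x = c (e x) (e x) := (hCS.val z x y (e x) h3).2.1
    have h5 : c y (e x) = c y x := hcon (e x) h4.symm
    exact (hCS.val z x y x (h3.trans h5)).2.2
  exact hne ((key z₁ h1).trans (key z₂ h2).symm)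

theorem card_fib_le {V κ : Type} [Fintype V] [DecidableEq V] [DecidableEq κ] {c : V → V → κ}
    {C : ℕ} (x : V) (h : Nat.card {y : V // c y y = c x x} ≤ C) (S : Finset V)
    (hS : ∀ w ∈ S, c w w = c x x) : S.card ≤ C := by
  refine le_trans ?_ h
  rw [Nat.card_eq_fintype_card, Fintype.card_subtype]
  refine Finset.card_le_card ?_
  intro w hw
  exact Finset.mem_filter.mpr ⟨Finset.mem_univ _, hS w hw⟩

end MTau

open MTau in
theorem tau_le (hTCH : StmtTCH) : StmtTAU := by
  classical
  intro V κ κ' _ c c' A K C hCS hStp hCl hNum hCard y hy hconst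
  have hmemF : ∀ z, z ∈ cl c A (c y y) ↔ z ∈ A ∧ c z z = c y y := by
    intro z
    unfold cl
    rw [Finset.mem_filter]
  have hFc : (cl c A (c y y)).card ≤ C :=
    card_fib_le y (hCard y hy) _ (fun w hw => ((hmemF w).1 hw).2)
  -- the elements whose rows split `F`
  let B : Finset V := A.filter (fun x => 1 < Num (c x) (cl c A (c y y)))
  have hB : ∀ x ∈ B, x ∈ A ∧ ∃ w, c w w = c x x ∧ c y w ≠ c y x := by
    intro x hx
    obtain ⟨hxA, hx1⟩ := Finset.mem_filter.mp hx
    refine ⟨hxA, ?_⟩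
    unfold WLE.Num at hx1
    obtain ⟨a, ha, b, hb, hab⟩ := Finset.one_lt_card.mp hx1
    obtain ⟨z₁, hz₁, rfl⟩ := Finset.mem_image.mp ha
    obtain ⟨z₂, hz₂, rfl⟩ := Finset.mem_image.mp hb
    exact claim hCS hStp y hconst x z₁ z₂ ((hmemF z₁).1 hz₁).2 ((hmemF z₂).1 hz₂).2 hab
  have hval : ∀ w w', c y w = c y w' → fib c w = fib c w' := by
    intro w w' h
    exact (hCS.val y w y w' h).2.1
  have hT := (hTCH V κ κ (c y) (fib c) A hval).1
  have hN := hNum y hy
  have himg : B.image (fib c) ⊆ (A.image (fib c)).filter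
      (fun i => ∃ y₁ ∈ A, ∃ y₂ ∈ A, fib c y₁ = i ∧ fib c y₂ = i ∧ c y y₁ ≠ c y y₂) := by
    intro i hi
    obtain ⟨x, hx, rfl⟩ := Finset.mem_image.mp hi
    obtain ⟨hxA, w, hw, hne⟩ := hB x hx
    refine Finset.mem_filter.mpr ⟨Finset.mem_image_of_mem _ hxA, w, hCl x w hw.symm hxA, x, hxA,
      hw, rfl, hne⟩
  have hcardimg : (B.image (fib c)).card ≤ K := by
    have h1 := Finset.card_le_card himg
    have h2 : ((A.image (fib c)).filter
      (fun i => ∃ y₁ ∈ A, ∃ y₂ ∈ A, fib c y₁ = i ∧ fib c y₂ = i ∧ c y y₁ ≠ c y y₂)).card ≤ K := by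
      have h3 : ((A.image (fib c)).filter
        (fun i => ∃ y₁ ∈ A, ∃ y₂ ∈ A, fib c y₁ = i ∧ fib c y₂ = i ∧ c y y₁ ≠ c y y₂)).card +
        Num (fib c) A ≤ Num (c y) A := by
        convert hT
      omega
    exact h1.trans h2
  have hBc : B.card ≤ C * K := by
    refine le_trans (Finset.card_le_mul_card_image (f := fib c) B C ?_)
      (Nat.mul_le_mul_left C hcardimg)
    intro a ha
    obtain ⟨x, hx, rfl⟩ := Finset.mem_image.mp ha
    refine card_fib_le x (hCard x (hB x hx).1) _ ?_
    intro w hw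
    exact (Finset.mem_filter.mp hw).2
  unfold tau
  calc ∑ x ∈ A, (Num (c x) (cl c A (c y y)) - 1)
      = ∑ x ∈ B, (Num (c x) (cl c A (c y y)) - 1) := by
        symm
        refine Finset.sum_subset (Finset.filter_subset _ _) ?_
        intro x hxA hxB
        have : ¬ 1 < Num (c x) (cl c A (c y y)) := by
          intro h
          exact hxB (Finset.mem_filter.mpr ⟨hxA, h⟩)
        omega
    _ ≤ ∑ x ∈ B, C := by
        refine Finset.sum_le_sum ?_
        intro x _
        have h1 : Num (c x) (cl c A (c y y)) ≤ (cl c A (c y y)).card := by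
          unfold WLE.Num
          exact Finset.card_image_le
        omega
    _ = B.card * C := by rw [Finset.sum_const, smul_eq_mul]
    _ ≤ (C * K) * C := Nat.mul_le_mul_right C hBc
    _ = K * C * C := by ring

end Pool.Agent.DQE
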