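import Mathlib
import Pool.Agent.DQE.St
import Pool.Agent.WLE.LOC

set_option autoImplicit false

/-!
# Module TCH: counting split classes (helper19, for helper92)
-/

namespace Pool.Agent.DQE

open Pool.Agent.BRW Pool.Agent.WLE Pool.Agent.WLE.MLoc

theorem tch : StmtTCH := by
  classical
  intro V κ κ' _ f g A h
  have hNf : Num f A = ∑ i ∈ A.image g, (blk f g A i).card := by
    have h1 : Num f A = ((A.image g).biUnion (blk f g A)).card := by
      unfold Pool.Agent.WLE.Num
      rw [image_eq f g A]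
    rw [h1]
    exact Finset.card_biUnion (fun i _ i' _ hi => disj A h i i' hi)
  have hNg : Num g A = ∑ i ∈ A.image g, 1 := by
    unfold Pool.Agent.WLE.Num
    rw [Finset.card_eq_sum_ones]
  have hpos : ∀ i ∈ A.image g, 1 ≤ (blk f g A i).card := by
    intro i hi
    obtain ⟨y, hy, rfl⟩ := Finset.mem_image.1 hi
    exact Finset.card_pos.2 ⟨f y, mem_blk.2 ⟨y, hy, rfl, rfl⟩⟩
  have htwo : ∀ i, (∃ y ∈ A, ∃ y' ∈ A, g y = i ∧ g y' = i ∧ f y ≠ f y') →
      2 ≤ (blk f g A i).card := by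
    rintro i ⟨y, hy, y', hy', hg, hg', hf⟩
    exact Finset.one_lt_card.2 ⟨f y, mem_blk.2 ⟨y, hy, hg, rfl⟩, f y', mem_blk.2 ⟨y', hy', hg', rfl⟩, hf⟩
  refine ⟨?_, ?_⟩
  · rw [hNf, hNg, Finset.card_filter, ← Finset.sum_add_distrib]
    refine Finset.sum_le_sum fun i hi => ?_
    have h1 := hpos i hi
    split_ifs with hP
    · have h2 := htwo i hP
      omega
    · omega
  · have hT : ((A.image f).filter (fun j => ∃ y ∈ A, ∃ y' ∈ A, f y = j ∧ g y' = g y ∧ f y' ≠ j)).card
        ≤ ∑ i ∈ A.image g, (if (∃ y ∈ A, ∃ y' ∈ A, g y = i ∧ g y' = i ∧ f y ≠ f y') then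
            (blk f g A i).card else 0) := by
      have h1 : ((A.image f).filter (fun j => ∃ y ∈ A, ∃ y' ∈ A, f y = j ∧ g y' = g y ∧ f y' ≠ j)) ⊆
          ((A.image g).filter (fun i => ∃ y ∈ A, ∃ y' ∈ A, g y = i ∧ g y' = i ∧ f y ≠ f y')).biUnion
            (blk f g A) := by
        intro j hj
        obtain ⟨-, y, hy, y', hy', hf, hg, hf'⟩ := Finset.mem_filter.1 hj
        refine Finset.mem_biUnion.2 ⟨g y, Finset.mem_filter.2 ⟨Finset.mem_image_of_mem g hy,
          y, hy, y', hy', rfl, hg, ?_⟩, mem_blk.2 ⟨y, hy, rfl, hf⟩⟩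
        rw [hf]
        exact fun he => hf' he.symm
      refine (Finset.card_le_card h1).trans (Finset.card_biUnion_le.trans ?_)
      rw [Finset.sum_filter]
    refine (Nat.add_le_add_right hT _).trans ?_
    rw [hNf, hNg, Finset.mul_sum, Finset.mul_sum, ← Finset.sum_add_distrib]
    refine Finset.sum_le_sum fun i hi => ?_
    have h1 := hpos i hi
    split_ifs with hP
    · have h2 := htwo i hP
      omega
    · omega

end Pool.Agent.DQE
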