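import Mathlib
import Pool.Agent.BRW.St
import Pool.Agent.WLE.St
import Pool.Agent.DQE.Defs
import Pool.Agent.DQE.St

set_option autoImplicit false

/-!
# Types (module TCP of the quantifier depth proof)
-/

namespace Pool.Agent.DQE

open Pool.Agent.BRW Pool.Agent.WLE

/-! ## Values of extended tuples -/

theorem tcp_sn_last {V : Type} {t : ℕ} (s : Fin t → V) (x : V) : sn s x (Fin.last t) = x := by
  unfold sn
  exact Fin.snoc_last (α := fun _ => V) x s

theorem tcp_sn_cast {V : Type} {t : ℕ} (s : Fin t → V) (x : V) (i : Fin t) :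
    sn s x i.castSucc = s i := by
  unfold sn
  exact Fin.snoc_castSucc (α := fun _ => V) x s i

/-- Composition of a tuple with an extended reindexing. -/
theorem tcp_comp {V : Type} {t n : ℕ} (a : Fin n → V) (f : Fin t → Fin n) (l : Fin n) :
    (fun i => a (sn (V := Fin n) f l i)) = sn (fun i => a (f i)) (a l) := by
  funext i
  refine Fin.lastCases ?_ (fun j => ?_) i
  · rw [tcp_sn_last, tcp_sn_last]
  · rw [tcp_sn_cast, tcp_sn_cast]

/-! ## Reindexing of positions with at most three new entries -/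

section

variable {V W : Type} {G : SimpleGraph V} {H : SimpleGraph W}

/-- `(s, x, y)` to `(s, y, x)`. -/
theorem tcp_swap (hGAM : StmtGAM) {r t : ℕ} {s : Fin t → V} {x y : V} {s' : Fin t → W}
    {x' y' : W} (h : Bj G H r (t + 2) (sn (sn s x) y) (sn (sn s' x') y')) :
    Bj G H r (t + 2) (sn (sn s y) x) (sn (sn s' y') x') := by
  have h2 := hGAM.2.1 V W G H r (t + 2) (t + 2) _ _
    (sn (V := Fin (t + 2)) (sn (V := Fin (t + 2)) (fun i : Fin t => i.castSucc.castSucc)
      (Fin.last (t + 1))) (Fin.last t).castSucc) h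
  rw [tcp_comp, tcp_comp, tcp_comp, tcp_comp] at h2
  simp only [tcp_sn_last, tcp_sn_cast] at h2
  exact h2

/-- `(s, x, y)` to `(s, x)`. -/
theorem tcp_p1 (hGAM : StmtGAM) {r t : ℕ} {s : Fin t → V} {x y : V} {s' : Fin t → W}
    {x' y' : W} (h : Bj G H r (t + 2) (sn (sn s x) y) (sn (sn s' x') y')) :
    Bj G H r (t + 1) (sn s x) (sn s' x') := by
  have h2 := hGAM.2.1 V W G H r (t + 2) (t + 1) _ _ (fun i => i.castSucc) h
  simp only [tcp_sn_cast] at h2
  exact h2

/-- `(s, x)` to `(s, x, x)`. -/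
theorem tcp_dup (hGAM : StmtGAM) {r t : ℕ} {s : Fin t → V} {x : V} {s' : Fin t → W}
    {x' : W} (h : Bj G H r (t + 1) (sn s x) (sn s' x')) :
    Bj G H r (t + 2) (sn (sn s x) x) (sn (sn s' x') x') := by
  have h2 := hGAM.2.1 V W G H r (t + 1) (t + 2) _ _
    (sn (V := Fin (t + 1)) (fun i => i) (Fin.last t)) h
  rw [tcp_comp, tcp_comp] at h2
  simp only [tcp_sn_last] at h2
  exact h2

/-- `(s, x, y, z)` to `(s, x, z)`. -/
theorem tcp_p13 (hGAM : StmtGAM) {r t : ℕ} {s : Fin t → V} {x y z : V} {s' : Fin t → W}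
    {x' y' z' : W}
    (h : Bj G H r (t + 3) (sn (sn (sn s x) y) z) (sn (sn (sn s' x') y') z')) :
    Bj G H r (t + 2) (sn (sn s x) z) (sn (sn s' x') z') := by
  have h2 := hGAM.2.1 V W G H r (t + 3) (t + 2) _ _
    (sn (V := Fin (t + 3)) (fun i : Fin (t + 1) => i.castSucc.castSucc)
      (Fin.last (t + 2))) h
  rw [tcp_comp, tcp_comp] at h2
  simp only [tcp_sn_last, tcp_sn_cast] at h2
  exact h2

/-- `(s, x, y, z)` to `(s, z, y)`. -/
theorem tcp_p32 (hGAM : StmtGAM) {r t : ℕ} {s : Fin t → V} {x y z : V} {s' : Fin t → W}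
    {x' y' z' : W}
    (h : Bj G H r (t + 3) (sn (sn (sn s x) y) z) (sn (sn (sn s' x') y') z')) :
    Bj G H r (t + 2) (sn (sn s z) y) (sn (sn s' z') y') := by
  have h2 := hGAM.2.1 V W G H r (t + 3) (t + 2) _ _
    (sn (V := Fin (t + 3)) (sn (V := Fin (t + 3))
      (fun i : Fin t => i.castSucc.castSucc.castSucc) (Fin.last (t + 2)))
      (Fin.last (t + 1)).castSucc) h
  rw [tcp_comp, tcp_comp, tcp_comp, tcp_comp] at h2
  simp only [tcp_sn_last, tcp_sn_cast] at h2
  exact h2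

/-- `(s, p, x, y)` to `(s, x, y)`. -/
theorem tcp_p23 (hGAM : StmtGAM) {r t : ℕ} {s : Fin t → V} {p x y : V} {s' : Fin t → W}
    {p' x' y' : W}
    (h : Bj G H r (t + 3) (sn (sn (sn s p) x) y) (sn (sn (sn s' p') x') y')) :
    Bj G H r (t + 2) (sn (sn s x) y) (sn (sn s' x') y') := by
  have h2 := hGAM.2.1 V W G H r (t + 3) (t + 2) _ _
    (sn (V := Fin (t + 3)) (sn (V := Fin (t + 3))
      (fun i : Fin t => i.castSucc.castSucc.castSucc) (Fin.last (t + 1)).castSucc)
      (Fin.last (t + 2))) h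
  rw [tcp_comp, tcp_comp, tcp_comp, tcp_comp] at h2
  simp only [tcp_sn_last, tcp_sn_cast] at h2
  exact h2

/-- The atomic part of a position. -/
theorem tcp_at {r t : ℕ} {a : Fin t → V} {b : Fin t → W} (h : Bj G H r t a b) :
    At G H t a b := by
  cases r with
  | zero => exact h
  | succ r => exact h.1

end

/-- Equality of types is equivalence of positions. -/
theorem tcp_eq (hGAM : StmtGAM) {V : Type} (G : SimpleGraph V) (r t : ℕ) (s : Fin t → V)
    (x y x' y' : V) :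
    tc G r t s x y = tc G r t s x' y' ↔
      Bj G G r (t + 2) (sn (sn s x) y) (sn (sn s x') y') := by
  constructor
  · intro h
    have h1 : ((x', y') : V × V) ∈ tc G r t s x' y' :=
      hGAM.2.2.1 V G r (t + 2) (sn (sn s x') y')
    rw [← h] at h1
    exact h1
  · intro h
    ext p
    constructor
    · intro hp
      exact hGAM.2.2.2.2 V V V G G G r (t + 2) _ _ _ (hGAM.2.2.2.1 V V G G r (t + 2) _ _ h) hp
    · intro hp
      exact hGAM.2.2.2.2 V V V G G G r (t + 2) _ _ _ h hp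

/-- Equality of types of diagonal pairs. -/
theorem tcp_diag (hGAM : StmtGAM) {V : Type} (G : SimpleGraph V) (r t : ℕ) (s : Fin t → V)
    (x x' : V) :
    tc G r t s x x = tc G r t s x' x' ↔ Bj G G r (t + 1) (sn s x) (sn s x') := by
  rw [tcp_eq hGAM]
  exact ⟨fun h => tcp_p1 hGAM h, fun h => tcp_dup hGAM h⟩

/-- TCP. Types. -/
theorem tcp (hGAM : StmtGAM) : StmtTCP := by
  intro V G r t s
  refine ⟨⟨?_, ?_⟩, ⟨?_, ?_⟩, ?_, ?_, ?_, ?_⟩
  · intro x y z h
    rw [tcp_eq hGAM] at h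
    have h1 := (tcp_at h (Fin.last t).castSucc (Fin.last (t + 1))).1
    simp only [tcp_sn_last, tcp_sn_cast] at h1
    exact h1.1 trivial
  · intro x y x' y' h
    rw [tcp_eq hGAM] at h
    refine ⟨?_, ?_, ?_⟩
    · rw [tcp_diag hGAM]
      exact tcp_p1 hGAM h
    · rw [tcp_diag hGAM]
      exact tcp_p1 hGAM (tcp_swap hGAM h)
    · rw [tcp_eq hGAM]
      exact tcp_swap hGAM h
  · intro x y x' y' h
    rw [tcp_eq hGAM] at h ⊢
    exact hGAM.1 V V G G r (t + 2) _ _ h
  · intro x y x' y' h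
    rw [tcp_eq hGAM] at h
    obtain ⟨_, f, hf⟩ := h
    refine ⟨f, fun z => ⟨?_, ?_⟩⟩
    · rw [tcp_eq hGAM]
      exact tcp_p13 hGAM (hf z)
    · rw [tcp_eq hGAM]
      exact tcp_p32 hGAM (hf z)
  · intro x y x' y' h
    rw [tcp_eq hGAM] at h
    have h1 := (tcp_at h (Fin.last t).castSucc (Fin.last (t + 1))).2
    simp only [tcp_sn_last, tcp_sn_cast] at h1
    exact h1
  · intro x y x' y'
    exact tcp_eq hGAM G r t s x y x' y'
  · intro x x'
    exact tcp_diag hGAM G r t s x x'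
  · intro p
    refine ⟨?_, ?_⟩
    · intro x y x' y' h
      rw [tcp_eq hGAM] at h ⊢
      exact tcp_p23 hGAM h
    · intro y y'
      rw [tcp_eq hGAM G r t s p y p y', tcp_diag hGAM G r (t + 1) (sn s p) y y']

end Pool.Agent.DQE
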