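import Mathlib
import Pool.Agent.DQE.St

set_option autoImplicit false

namespace Pool.Agent.DQE

open Pool.Agent.BRW Pool.Agent.WLE

theorem wk_split {V : Type} (Γ : SimpleGraph V) (i : ℕ) : ∀ (j : ℕ) (x y : V),
    Wk Γ (i + j) x y ↔ ∃ z, Wk Γ i x z ∧ Wk Γ j z y := by
  intro j
  induction j with
  | zero =>
    intro x y
    constructor
    · intro h
      exact ⟨y, h, rfl⟩
    · rintro ⟨z, h, hz⟩
      have hz' : z = y := hz
      subst hz'
      exact h
  | succ j ih =>
    intro x y
    constructor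
    · rintro ⟨w, hw, hwy⟩
      obtain ⟨z, h1, h2⟩ := (ih x w).mp hw
      exact ⟨z, h1, w, h2, hwy⟩
    · rintro ⟨z, h1, w, h2, hwy⟩
      exact ⟨w, (ih x w).mpr ⟨z, h1, h2⟩, hwy⟩

theorem wk_succ {V : Type} (Γ : SimpleGraph V) (i : ℕ) (x y : V) (h : Wk Γ i x y) :
    Wk Γ (i + 1) x y := ⟨y, h, Or.inl rfl⟩

theorem wk_refl {V : Type} (Γ : SimpleGraph V) (i : ℕ) (x : V) : Wk Γ i x x := by
  induction i with
  | zero => rfl
  | succ i ih => exact wk_succ Γ i x x ih

theorem wk_one {V : Type} (Γ : SimpleGraph V) (x y : V) : Wk Γ 1 x y ↔ x = y ∨ Γ.Adj x y := by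
  constructor
  · rintro ⟨z, hz, h⟩
    have hz' : x = z := hz
    subst hz'
    exact h
  · intro h
    exact ⟨x, rfl, h⟩

theorem wk_symm {V : Type} (Γ : SimpleGraph V) (i : ℕ) : ∀ (x y : V), Wk Γ i x y →
    Wk Γ i y x := by
  induction i with
  | zero =>
    intro x y h
    exact Eq.symm (h : x = y)
  | succ i ih =>
    rintro x y ⟨z, hz, h⟩
    have h1 : Wk Γ 1 y z := by
      rw [wk_one]
      rcases h with h | h
      · exact Or.inl h.symm
      · exact Or.inr h.symm
    have h2 := (wk_split Γ 1 i y x).mpr ⟨z, h1, ih x z hz⟩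
    rwa [Nat.add_comm 1 i] at h2

theorem wk_reach {V : Type} (Γ : SimpleGraph V) (i : ℕ) : ∀ (x y : V), Wk Γ i x y →
    Γ.Reachable x y := by
  induction i with
  | zero =>
    intro x y h
    have h' : x = y := h
    subst h'
    exact SimpleGraph.Reachable.refl _
  | succ i ih =>
    rintro x y ⟨z, hz, h⟩
    rcases h with h | h
    · subst h
      exact ih x z hz
    · exact (ih x z hz).trans h.reachable

theorem wk_card {V : Type} [Fintype V] (Γ : SimpleGraph V) (D : ℕ)
    (hD : ∀ x, Nat.card {y : V // Γ.Adj x y} ≤ D) (i : ℕ) : ∀ (x : V),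
    Nat.card {y : V // Wk Γ i x y} ≤ (D + 1) ^ i := by
  classical
  induction i with
  | zero =>
    intro x
    have : Nat.card {y : V // Wk Γ 0 x y} = 1 := by
      rw [Nat.card_eq_one_iff_unique]
      refine ⟨⟨fun a b => ?_⟩, ⟨x, rfl⟩⟩
      apply Subtype.ext
      have h1 : x = a.1 := a.2
      have h2 : x = b.1 := b.2
      rw [← h1, ← h2]
    rw [this, pow_zero]
  | succ i ih =>
    intro x
    have h1 : Nat.card {y : V // Wk Γ (i + 1) x y} =
        (Finset.univ.filter (fun y => Wk Γ (i + 1) x y)).card := by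
      rw [Nat.card_eq_fintype_card, Fintype.card_subtype]
    have h2 : Nat.card {y : V // Wk Γ i x y} =
        (Finset.univ.filter (fun y => Wk Γ i x y)).card := by
      rw [Nat.card_eq_fintype_card, Fintype.card_subtype]
    have h3 : Finset.univ.filter (fun y => Wk Γ (i + 1) x y) ⊆
        (Finset.univ.filter (fun y => Wk Γ i x y)).biUnion
          (fun z => insert z (Finset.univ.filter (fun y => Γ.Adj z y))) := by
      intro y hy
      obtain ⟨z, hz, h⟩ := (Finset.mem_filter.mp hy).2
      refine Finset.mem_biUnion.mpr ⟨z, Finset.mem_filter.mpr ⟨Finset.mem_univ _, hz⟩, ?_⟩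
      rcases h with h | h
      · rw [h]
        exact Finset.mem_insert_self _ _
      · exact Finset.mem_insert_of_mem (Finset.mem_filter.mpr ⟨Finset.mem_univ _, h⟩)
    rw [h1]
    refine (Finset.card_le_card h3).trans ?_
    refine (Finset.card_biUnion_le_card_mul _ _ (D + 1) ?_).trans ?_
    · intro z _
      refine (Finset.card_insert_le _ _).trans ?_
      have := hD z
      rw [Nat.card_eq_fintype_card, Fintype.card_subtype] at this
      omega
    · rw [← h2, pow_succ]
      exact Nat.mul_le_mul_right _ (ih x)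

theorem wkk : StmtWKK := by
  intro V κ _ d Γ D hCS hStp hInv hD
  refine ⟨?_, ?_, ?_, wk_card Γ D hD, ?_⟩
  · intro i x y h
    exact ⟨wk_symm Γ i x y h, wk_succ Γ i x y h, wk_reach Γ i x y h⟩
  · intro i j x y
    exact wk_split Γ i j x y
  · have h0 : ∀ j, Inv (d (j + 1)) (Wk Γ 0) := by
      intro j x y x' y' h
      have key : ∀ a b a' b' : V, d (j + 1) a b = d (j + 1) a' b' → a = b → a' = b' := by
        intro a b a' b' hab he
        subst he
        exact (hCS (j + 1)).diag a a' b' hab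
      exact ⟨fun hh => key x y x' y' h hh, fun hh => key x' y' x y h.symm hh⟩
    intro j
    induction j with
    | zero =>
      intro i hi
      have hi' : i = 0 ∨ i = 1 := by
        rw [pow_zero] at hi
        omega
      rcases hi' with hi' | hi'
      · subst hi'
        exact h0 0
      · subst hi'
        intro x y x' y' h
        rw [wk_one, wk_one]
        have h1 : x = y ↔ x' = y' := h0 0 x y x' y' h
        have h2 : Γ.Adj x y ↔ Γ.Adj x' y' := hInv x y x' y' h
        rw [h1, h2]
    | succ j ih =>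
      intro i hi x y x' y' h
      obtain ⟨i₁, i₂, hi12, hi1, hi2⟩ : ∃ i₁ i₂ : ℕ, i = i₁ + i₂ ∧ i₁ ≤ 2 ^ j ∧ i₂ ≤ 2 ^ j := by
        rw [pow_succ] at hi
        refine ⟨min i (2 ^ j), i - min i (2 ^ j), ?_, ?_, ?_⟩ <;> omega
      subst hi12
      rw [wk_split, wk_split]
      obtain ⟨e, he⟩ := (hStp (j + 1)).2 x y x' y' h
      constructor
      · rintro ⟨z, hz1, hz2⟩
        exact ⟨e z, (ih i₁ hi1 x z x' (e z) (he z).1).mp hz1,
          (ih i₂ hi2 z y (e z) y' (he z).2).mp hz2⟩
      · rintro ⟨z', hz1, hz2⟩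
        obtain ⟨z, rfl⟩ := e.surjective z'
        exact ⟨z, (ih i₁ hi1 x z x' (e z) (he z).1).mpr hz1,
          (ih i₂ hi2 z y (e z) y' (he z).2).mpr hz2⟩
  · intro i x hx y hy
    rw [SimpleGraph.reachable_iff_reflTransGen] at hy
    induction hy with
    | refl => exact wk_refl Γ i x
    | tail _ hbc ih => exact hx _ ⟨_, ih, Or.inr hbc⟩

end Pool.Agent.DQE
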